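import Pool.Agent.LibTHL.Defs

/-! Rows B1-B4: the blocks. -/

set_option autoImplicit false

namespace Pool.Agent.LibTHL

open Finset

theorem B14_dvd {b : ℕ → ℕ} {J j : ℕ} (hb : GoodB b J) (hj : J ≤ j) : b j ∣ 2 ^ j :=
  (dvd_mul_left _ _).trans (hb.dvd j hj)

/-- B1. -/
theorem blk_spec {b : ℕ → ℕ} {J n : ℕ} (hb : GoodB b J) (h : J ≤ Nat.log 2 n) :
    blk b J n ≤ n ∧ n < blk b J n + b (Nat.log 2 n) ∧ Nat.log 2 (blk b J n) = Nat.log 2 n ∧
      b (Nat.log 2 n) ∣ blk b J n ∧ IsBlk b J (blk b J n) := by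
  have hJ := hb.hJ
  have hn : n ≠ 0 := by
    rintro rfl
    rw [Nat.log_zero_right] at h
    omega
  have hb0 := hb.pos (Nat.log 2 n)
  have e : blk b J n = b (Nat.log 2 n) * (n / b (Nat.log 2 n)) := by
    unfold blk
    rw [if_neg (not_lt.2 h)]
  have h1 : blk b J n ≤ n := by rw [e]; exact Nat.mul_div_le _ _
  have h2 : n < blk b J n + b (Nat.log 2 n) := by
    rw [e]
    have h3 := Nat.lt_mul_div_succ n hb0
    rwa [mul_add, mul_one] at h3
  have h4 : 2 ^ Nat.log 2 n ≤ n := Nat.pow_log_le_self 2 hn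
  have h5 : n < 2 ^ (Nat.log 2 n + 1) := Nat.lt_pow_succ_log_self one_lt_two n
  have h6 : 2 ^ Nat.log 2 n ≤ blk b J n := by
    obtain ⟨c, hc⟩ := B14_dvd hb h
    have h7 : c ≤ n / b (Nat.log 2 n) := by
      rw [Nat.le_div_iff_mul_le hb0, mul_comm, ← hc]
      exact h4
    rw [e]
    calc 2 ^ Nat.log 2 n = b (Nat.log 2 n) * c := hc
      _ ≤ _ := Nat.mul_le_mul_left _ h7
  have h8 : Nat.log 2 (blk b J n) = Nat.log 2 n := by
    rw [Nat.log_eq_iff (Or.inl (by omega))]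
    exact ⟨h6, h1.trans_lt h5⟩
  have h9 : b (Nat.log 2 n) ∣ blk b J n := by rw [e]; exact dvd_mul_right _ _
  refine ⟨h1, h2, h8, h9, ?_, ?_⟩
  · rw [h8]; exact h
  · rw [h8]; exact h9

/-- B2. -/
theorem blk_of_mem {b : ℕ → ℕ} {J i n : ℕ} (hb : GoodB b J) (hi : IsBlk b J i) (h1 : i ≤ n)
    (h2 : n < i + b (Nat.log 2 i)) : blk b J n = i ∧ Nat.log 2 n = Nat.log 2 i := by
  have hJ := hb.hJ
  obtain ⟨h3, c, hc⟩ := hi
  have hi0 : i ≠ 0 := by
    rintro rfl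
    rw [Nat.log_zero_right] at h3
    omega
  have hb0 := hb.pos (Nat.log 2 i)
  have h4 : 2 ^ Nat.log 2 i ≤ i := Nat.pow_log_le_self 2 hi0
  have h5 : i < 2 ^ (Nat.log 2 i + 1) := Nat.lt_pow_succ_log_self one_lt_two i
  obtain ⟨d, hd⟩ := B14_dvd hb h3
  have h6 : i + b (Nat.log 2 i) ≤ 2 ^ (Nat.log 2 i + 1) := by
    have h9 : 2 ^ (Nat.log 2 i + 1) = b (Nat.log 2 i) * (2 * d) := by
      rw [pow_succ, hd]; ring
    have h7 : c < 2 * d := by
      by_contra hcon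
      push Not at hcon
      have h8 : b (Nat.log 2 i) * (2 * d) ≤ b (Nat.log 2 i) * c := Nat.mul_le_mul_left _ hcon
      omega
    have h8 : b (Nat.log 2 i) * (c + 1) ≤ b (Nat.log 2 i) * (2 * d) := Nat.mul_le_mul_left _ h7
    rw [h9]
    calc i + b (Nat.log 2 i) = b (Nat.log 2 i) * (c + 1) := by rw [mul_add, mul_one, ← hc]
      _ ≤ _ := h8
  have hl : Nat.log 2 n = Nat.log 2 i := by
    rw [Nat.log_eq_iff (Or.inl (by omega))]
    exact ⟨h4.trans h1, h2.trans_le h6⟩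
  refine ⟨?_, hl⟩
  unfold blk
  rw [hl, if_neg (not_lt.2 h3)]
  have h10 : n / b (Nat.log 2 i) = c := by
    apply Nat.div_eq_of_lt_le
    · rw [mul_comm, ← hc]; exact h1
    · rw [mul_comm, mul_add, mul_one, ← hc]; exact h2
  rw [h10]
  exact hc.symm

/-- the quotient of an odd block -/
theorem B14_odd {b : ℕ → ℕ} {J i : ℕ} (hb : GoodB b J) (hi : IsBlk b J i) (ho : OddB b i) :
    ∃ c d : ℕ, i = b (Nat.log 2 i) * (2 * c + 1) ∧ 2 ^ Nat.log 2 i = 2 * b (Nat.log 2 i) * d ∧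
      d ≤ c ∧ c < 2 * d := by
  have hJ := hb.hJ
  obtain ⟨h3, c, hc⟩ := hi
  have hi0 : i ≠ 0 := by
    rintro rfl
    rw [Nat.log_zero_right] at h3
    omega
  have hb0 := hb.pos (Nat.log 2 i)
  have h4 : 2 ^ Nat.log 2 i ≤ i := Nat.pow_log_le_self 2 hi0
  have h5 : i < 2 ^ (Nat.log 2 i + 1) := Nat.lt_pow_succ_log_self one_lt_two i
  obtain ⟨d, hd⟩ := hb.dvd _ h3
  have hq : i / b (Nat.log 2 i) = c := by
    conv_lhs => rw [hc]
    rw [← hc]
    exact Nat.div_eq_of_eq_mul_right hb0 hc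
  have ho' : Odd c := by
    unfold OddB at ho
    rwa [hq] at ho
  obtain ⟨e, he⟩ := ho'
  refine ⟨e, d, by rw [← he]; exact hc, hd, ?_, ?_⟩
  · by_contra hcon
    push Not at hcon
    have h6 : b (Nat.log 2 i) * (c + 1) ≤ b (Nat.log 2 i) * (2 * d) :=
      Nat.mul_le_mul_left _ (by omega)
    have h7 : 2 * b (Nat.log 2 i) * d = b (Nat.log 2 i) * (2 * d) := by ring
    rw [mul_add, mul_one, ← hc] at h6
    omega
  · by_contra hcon
    push Not at hcon
    have h6 : b (Nat.log 2 i) * (4 * d) ≤ b (Nat.log 2 i) * c :=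
      Nat.mul_le_mul_left _ (by omega)
    have h7 : 2 ^ (Nat.log 2 i + 1) = b (Nat.log 2 i) * (4 * d) := by
      rw [pow_succ, hd]; ring
    omega

/-- B3: the left neighbour of an odd block. -/
theorem left_nb {b : ℕ → ℕ} {J i : ℕ} (hb : GoodB b J) (hi : IsBlk b J i) (ho : OddB b i) :
    len b i ≤ i ∧ IsBlk b J (i - len b i) ∧ ¬ OddB b (i - len b i) ∧
      Nat.log 2 (i - len b i) = Nat.log 2 i := by
  have hJ := hb.hJ
  obtain ⟨c, d, h1, h2, h3, h4⟩ := B14_odd hb hi ho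
  have hb0 := hb.pos (Nat.log 2 i)
  have h5 : i < 2 ^ (Nat.log 2 i + 1) := Nat.lt_pow_succ_log_self one_lt_two i
  have e : i - len b i = b (Nat.log 2 i) * (2 * c) := by
    unfold len
    have h6 : b (Nat.log 2 i) * (2 * c + 1) = b (Nat.log 2 i) * (2 * c) + b (Nat.log 2 i) := by
      ring
    omega
  have h6 : 2 ^ Nat.log 2 i ≤ i - len b i := by
    rw [e, h2]
    calc 2 * b (Nat.log 2 i) * d = b (Nat.log 2 i) * (2 * d) := by ring
      _ ≤ _ := Nat.mul_le_mul_left _ (by omega)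
  have hl : Nat.log 2 (i - len b i) = Nat.log 2 i := by
    rw [Nat.log_eq_iff (Or.inl (by have := hi.1; omega))]
    exact ⟨h6, (Nat.sub_le _ _).trans_lt h5⟩
  refine ⟨?_, ⟨?_, ?_⟩, ?_, hl⟩
  · unfold len
    calc b (Nat.log 2 i) = b (Nat.log 2 i) * 1 := (mul_one _).symm
      _ ≤ b (Nat.log 2 i) * (2 * c + 1) := Nat.mul_le_mul_left _ (by omega)
      _ = i := h1.symm
  · rw [hl]; exact hi.1
  · rw [hl, e]; exact dvd_mul_right _ _
  · unfold OddB
    rw [hl, e, Nat.mul_div_cancel_left _ hb0, Nat.not_odd_iff_even]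
    exact ⟨c, by ring⟩

/-- B4: the right neighbour of an odd block. -/
theorem right_nb {b : ℕ → ℕ} {J i : ℕ} (hb : GoodB b J) (hi : IsBlk b J i) (ho : OddB b i) :
    IsBlk b J (i + len b i) ∧ ¬ OddB b (i + len b i) ∧
      (Nat.log 2 (i + len b i) = Nat.log 2 i ∨ Nat.log 2 (i + len b i) = Nat.log 2 i + 1) := by
  have hJ := hb.hJ
  obtain ⟨c, d, h1, h2, h3, h4⟩ := B14_odd hb hi ho
  have hb0 := hb.pos (Nat.log 2 i)
  have hi3 := hi.1
  have hi0 : i ≠ 0 := by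
    rintro rfl
    rw [Nat.log_zero_right] at hi3
    omega
  have h4' : 2 ^ Nat.log 2 i ≤ i := Nat.pow_log_le_self 2 hi0
  have e : i + len b i = b (Nat.log 2 i) * (2 * (c + 1)) := by
    unfold len
    calc i + b (Nat.log 2 i) = b (Nat.log 2 i) * (2 * c + 1) + b (Nat.log 2 i) := by rw [← h1]
      _ = _ := by ring
  have h7 : 2 ^ (Nat.log 2 i + 1) = b (Nat.log 2 i) * (2 * (2 * d)) := by
    rw [pow_succ, h2]; ring
  rcases Nat.lt_or_ge (c + 1) (2 * d) with h8 | h8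
  · have h9 : i + len b i < 2 ^ (Nat.log 2 i + 1) := by
      rw [e, h7]
      exact Nat.mul_lt_mul_of_pos_left (by omega) hb0
    have hl : Nat.log 2 (i + len b i) = Nat.log 2 i := by
      rw [Nat.log_eq_iff (Or.inl (by omega))]
      exact ⟨h4'.trans (Nat.le_add_right _ _), h9⟩
    refine ⟨⟨?_, ?_⟩, ?_, Or.inl hl⟩
    · rw [hl]; exact hi3
    · rw [hl, e]; exact dvd_mul_right _ _
    · unfold OddB
      rw [hl, e, Nat.mul_div_cancel_left _ hb0, Nat.not_odd_iff_even]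
      exact ⟨c + 1, by ring⟩
  · have h9 : c + 1 = 2 * d := by omega
    have h10 : i + len b i = 2 ^ (Nat.log 2 i + 1) := by rw [e, h7, h9]
    have hl : Nat.log 2 (i + len b i) = Nat.log 2 i + 1 := by
      rw [h10]
      exact Nat.log_pow one_lt_two _
    have h11 : J ≤ Nat.log 2 i + 1 := hi3.trans (Nat.le_succ _)
    obtain ⟨f, hf⟩ := hb.dvd _ h11
    have h12 : i + len b i = b (Nat.log 2 i + 1) * (2 * f) := by rw [h10, hf]; ring
    refine ⟨⟨?_, ?_⟩, ?_, Or.inr hl⟩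
    · rw [hl]; exact h11
    · rw [hl, h12]; exact dvd_mul_right _ _
    · unfold OddB
      rw [hl, h12, Nat.mul_div_cancel_left _ (hb.pos _), Nat.not_odd_iff_even]
      exact ⟨f, by ring⟩

end Pool.Agent.LibTHL
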