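import Pool.Agent.LibTHL.Blk

/-! Row B5: the numbers depending on a given block. -/

set_option autoImplicit false

namespace Pool.Agent.LibTHL

open Finset

theorem B5_fiber {b : ℕ → ℕ} {J : ℕ} (hb : GoodB b J) (y c B : ℕ)
    (hB : ∀ j, j ≤ Nat.log 2 y → b j ≤ B) :
    #{n ∈ range (y + 1) | J ≤ Nat.log 2 n ∧ blk b J n = c} ≤ B := by
  rcases Finset.eq_empty_or_nonempty {n ∈ range (y + 1) | J ≤ Nat.log 2 n ∧ blk b J n = c} with h | h
  · rw [h, card_empty]
    exact Nat.zero_le _
  · obtain ⟨n0, hn0⟩ := h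
    rw [mem_filter, mem_range] at hn0
    obtain ⟨hn1, hn2, hn3⟩ := hn0
    have h1 := (blk_spec hb hn2).2.2.1
    rw [hn3] at h1
    have h2 : b (Nat.log 2 c) ≤ B := by
      apply hB
      rw [h1]
      exact Nat.log_mono_right (by omega)
    refine le_trans (card_le_card (t := Ico c (c + b (Nat.log 2 c))) fun n hn => ?_) ?_
    · rw [mem_filter, mem_range] at hn
      obtain ⟨hn1, hn2, rfl⟩ := hn
      obtain ⟨h3, h4, h5, -, -⟩ := blk_spec hb hn2
      rw [mem_Ico, h5]
      exact ⟨h3, h4⟩
    · rw [Nat.card_Ico]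
      omega

theorem card_nb {b : ℕ → ℕ} {J : ℕ} (hb : GoodB b J) (y i B : ℕ)
    (hB : ∀ j, j ≤ Nat.log 2 y → b j ≤ B) : #{n ∈ range (y + 1) | i ∈ nb b J n} ≤ 4 * B := by
  set s : Finset ℕ := {i, i + b (Nat.log 2 i), i - b (Nat.log 2 i), i - b (Nat.log 2 i - 1)} with hs
  have hsub : {n ∈ range (y + 1) | i ∈ nb b J n} ⊆
      s.biUnion fun c => {n ∈ range (y + 1) | J ≤ Nat.log 2 n ∧ blk b J n = c} := by
    intro n hn
    rw [mem_filter] at hn
    obtain ⟨hn1, hn2⟩ := hn
    unfold nb at hn2
    by_cases hJ : Nat.log 2 n < J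
    · rw [if_pos hJ] at hn2
      exact absurd hn2 (notMem_empty _)
    rw [if_neg hJ] at hn2
    have hJ' : J ≤ Nat.log 2 n := not_lt.1 hJ
    obtain ⟨-, -, h5, -, h7⟩ := blk_spec hb hJ'
    rw [mem_biUnion]
    refine ⟨blk b J n, ?_, mem_filter.2 ⟨hn1, hJ', rfl⟩⟩
    by_cases ho : OddB b (blk b J n)
    · rw [if_pos ho, mem_insert, mem_insert, mem_singleton] at hn2
      rcases hn2 with h | h | h
      · obtain ⟨g1, g2, g3, g4⟩ := left_nb hb h7 ho
        rw [← h] at g4
        unfold len at h g1
        have : blk b J n = i + b (Nat.log 2 i) := by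
          rw [g4]
          omega
        rw [this]
        simp [hs]
      · rw [← h]
        simp [hs]
      · obtain ⟨g1, g2, g3⟩ := right_nb hb h7 ho
        rw [← h] at g3
        unfold len at h
        rcases g3 with g3 | g3
        · have : blk b J n = i - b (Nat.log 2 i) := by
            rw [g3]
            omega
          rw [this]
          simp [hs]
        · have : blk b J n = i - b (Nat.log 2 i - 1) := by
            rw [g3, Nat.add_sub_cancel]
            omega
          rw [this]
          simp [hs]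
    · rw [if_neg ho, mem_singleton] at hn2
      rw [← hn2]
      simp [hs]
  refine (card_le_card hsub).trans ?_
  refine (card_biUnion_le_card_mul s _ B fun c _ => B5_fiber hb y c B hB).trans ?_
  apply Nat.mul_le_mul_right
  rw [hs]
  exact Finset.card_le_four

end Pool.Agent.LibTHL
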