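import Pool.Agent.LibTHL.Blk

/-! Rows B6, B7. -/

set_option autoImplicit false

namespace Pool.Agent.LibTHL

open Finset MeasureTheory ProbabilityTheory Filter Topology

theorem B67_isBlk_pow {b : ℕ → ℕ} {J j : ℕ} (hb : GoodB b J) (hj : J ≤ j) :
    IsBlk b J (2 ^ j) ∧ Nat.log 2 (2 ^ j) = j := by
  have h1 : Nat.log 2 (2 ^ j) = j := Nat.log_pow (by norm_num) j
  refine ⟨⟨by rw [h1]; exact hj, ?_⟩, h1⟩
  rw [h1]
  exact (Dvd.intro_left 2 rfl).trans (hb.dvd j hj)

/-- B6: short sets lie in one block or in two neighbouring blocks. -/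
theorem two_blocks {b : ℕ → ℕ} {J j : ℕ} (hb : GoodB b J) (hj : J ≤ j) (F : Finset ℕ)
    (h1 : ∀ n ∈ F, Nat.log 2 n = j) (h2 : ∀ n ∈ F, ∀ n' ∈ F, n' < n + b j) :
    (∃ i, IsBlk b J i ∧ Nat.log 2 i = j ∧ ∀ n ∈ F, blk b J n = i) ∨
    (∃ i, IsBlk b J i ∧ Nat.log 2 i = j ∧ OddB b i ∧
      ∀ n ∈ F, blk b J n = i ∨ blk b J n = i - len b i) ∨
    (∃ i, IsBlk b J i ∧ Nat.log 2 i = j ∧ OddB b i ∧ Nat.log 2 (i + len b i) = Nat.log 2 i ∧
      ∀ n ∈ F, blk b J n = i ∨ blk b J n = i + len b i) := by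
  rcases F.eq_empty_or_nonempty with rfl | hne
  · left
    exact ⟨2 ^ j, (B67_isBlk_pow hb hj).1, (B67_isBlk_pow hb hj).2, by simp⟩
  have hbj := hb.pos j
  set m := F.min' hne with hm
  have hmF : m ∈ F := F.min'_mem hne
  have hblk : ∀ n ∈ F, blk b J n = b j * (n / b j) := by
    intro n hn
    unfold blk
    rw [h1 n hn, if_neg (by omega)]
  have hq : ∀ n ∈ F, n / b j = m / b j ∨ n / b j = m / b j + 1 := by
    intro n hn
    have a1 : m ≤ n := F.min'_le n hn
    have a2 : n < m + b j := h2 m hmF n hn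
    have a3 : m / b j ≤ n / b j := Nat.div_le_div_right a1
    have a4 : n / b j ≤ (m + b j) / b j := Nat.div_le_div_right a2.le
    rw [Nat.add_div_right m hbj] at a4
    omega
  have hsp : ∀ n ∈ F, Nat.log 2 (blk b J n) = j ∧ IsBlk b J (blk b J n) := by
    intro n hn
    have := blk_spec hb (n := n) (by rw [h1 n hn]; exact hj)
    rw [h1 n hn] at this
    exact ⟨this.2.2.1, this.2.2.2.2⟩
  by_cases hall : ∀ n ∈ F, n / b j = m / b j
  · left
    refine ⟨blk b J m, (hsp m hmF).2, (hsp m hmF).1, fun n hn => ?_⟩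
    rw [hblk n hn, hblk m hmF, hall n hn]
  · push Not at hall
    obtain ⟨n1, hn1, hne1⟩ := hall
    have hn1' : n1 / b j = m / b j + 1 := (hq n1 hn1).resolve_left hne1
    have e0 : blk b J m = b j * (m / b j) := hblk m hmF
    have e1 : blk b J n1 = b j * (m / b j + 1) := by rw [hblk n1 hn1, hn1']
    have hdis : ∀ n ∈ F, blk b J n = blk b J m ∨ blk b J n = blk b J n1 := by
      intro n hn
      rcases hq n hn with h | h
      · left; rw [hblk n hn, e0, h]
      · right; rw [hblk n hn, e1, h]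
    have hl0 : len b (blk b J m) = b j := by unfold len; rw [(hsp m hmF).1]
    have hl1 : len b (blk b J n1) = b j := by unfold len; rw [(hsp n1 hn1).1]
    rcases Nat.even_or_odd (m / b j) with hev | hod
    · right; left
      refine ⟨blk b J n1, (hsp n1 hn1).2, (hsp n1 hn1).1, ?_, fun n hn => ?_⟩
      · unfold OddB
        rw [(hsp n1 hn1).1, e1, Nat.mul_div_cancel_left _ hbj]
        exact hev.add_one
      · have : blk b J n1 - len b (blk b J n1) = blk b J m := by
          rw [hl1, e0, e1, mul_add, mul_one, Nat.add_sub_cancel]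
        rw [this]
        exact (hdis n hn).symm
    · right; right
      have e2 : blk b J m + len b (blk b J m) = blk b J n1 := by
        rw [hl0, e0, e1, mul_add, mul_one]
      refine ⟨blk b J m, (hsp m hmF).2, (hsp m hmF).1, ?_, ?_, fun n hn => ?_⟩
      · unfold OddB
        rw [(hsp m hmF).1, e0, Nat.mul_div_cancel_left _ hbj]
        exact hod
      · rw [e2, (hsp n1 hn1).1, (hsp m hmF).1]
      · rw [e2]
        exact hdis n hn

theorem B67_hit {b : ℕ → ℕ} {J : ℕ} (hb : GoodB b J) {A : Set ℕ}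
    (hA : ∀ i, IsBlk b J i → OddB b i → ∃ n ∈ A, blk b J n = i) (i : ℕ) (hi : IsBlk b J i)
    (ho : OddB b i) : ∃ a ∈ A, i ≤ a ∧ a < i + b (Nat.log 2 i) := by
  obtain ⟨a, haA, ha⟩ := hA i hi ho
  have hJ := hb.hJ
  have h1 : J ≤ Nat.log 2 a := by
    by_contra hcon
    have h2 : blk b J a = 0 := by
      unfold blk
      rw [if_pos (by omega)]
    rw [ha] at h2
    have h3 := hi.1
    rw [h2, Nat.log_zero_right] at h3
    omega
  have h2 := blk_spec hb h1
  rw [ha] at h2
  refine ⟨a, haA, h2.1, ?_⟩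
  rw [h2.2.2.1]
  exact h2.2.1

/-- B7: the odd blocks are everywhere. -/
theorem gap_of_hit {b : ℕ → ℕ} {J : ℕ} (hb : GoodB b J) {A : Set ℕ}
    (hA : ∀ i, IsBlk b J i → OddB b i → ∃ n ∈ A, blk b J n = i) (m : ℕ)
    (hm : J ≤ Nat.log 2 m) :
    ∃ a ∈ A, m < a ∧ a ≤ m + 3 * b (Nat.log 2 m) + 2 * b (Nat.log 2 m + 1) := by
  have hJ := hb.hJ
  set j := Nat.log 2 m with hj
  have hbj := hb.pos j
  have hbj1 := hb.pos (j + 1)
  have hm0 : m ≠ 0 := by
    intro h
    rw [h, Nat.log_zero_right] at hj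
    omega
  have hsp := blk_spec hb hm
  rw [← hj] at hsp
  have e0 : blk b J m = b j * (m / b j) := by
    unfold blk
    rw [← hj, if_neg (by omega)]
  obtain ⟨s1, s2, s3, s4, s5⟩ := hsp
  set i0 := blk b J m with hi0
  have hlow : 2 ^ j ≤ i0 := by
    have h0 : i0 ≠ 0 := by
      intro h
      rw [h, Nat.log_zero_right] at s3
      omega
    have := Nat.pow_log_le_self 2 h0
    rwa [s3] at this
  have hmlt : m < 2 ^ (j + 1) := Nat.lt_pow_succ_log_self (by norm_num) m
  have hpow : 2 ^ (j + 1) = 2 * 2 ^ j := by rw [pow_succ, mul_comm]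
  obtain ⟨c, hc⟩ := hb.dvd j hm
  -- `2 ^ (j + 1) = b j * (4 c)`
  have hc' : 2 ^ (j + 1) = b j * (4 * c) := by rw [hpow, hc]; ring
  set t := m / b j with ht
  have hlog : ∀ i, 2 ^ j ≤ i → i < 2 ^ (j + 1) → Nat.log 2 i = j := by
    intro i a1 a2
    exact Nat.log_eq_of_pow_le_of_lt_pow a1 a2
  have htle : t < 4 * c := by
    have : b j * t < b j * (4 * c) := by
      rw [← hc', ← e0]
      omega
    exact Nat.lt_of_mul_lt_mul_left this
  have key : ∀ i r : ℕ, i = b j * r → 2 ^ j ≤ i → r < 4 * c → Odd r → m < i →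
      i + b j ≤ m + 3 * b j + 1 →
      ∃ a ∈ A, m < a ∧ a ≤ m + 3 * b j + 2 * b (j + 1) := by
    intro i r hir hi1 hr hodd hmi hib
    have hi2 : i < 2 ^ (j + 1) := by
      rw [hir, hc']
      exact Nat.mul_lt_mul_of_pos_left hr hbj
    have hl := hlog i hi1 hi2
    obtain ⟨a, ha, h3, h4⟩ := B67_hit hb hA i ⟨by rw [hl]; exact hm, by rw [hl]; exact ⟨r, hir⟩⟩
      (by unfold OddB; rw [hl, hir, Nat.mul_div_cancel_left _ hbj]; exact hodd)
    rw [hl] at h4
    exact ⟨a, ha, by omega, by omega⟩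
  have m1 : b j * (t + 1) = i0 + b j := by rw [e0]; ring
  have m2 : b j * (t + 2) = i0 + 2 * b j := by rw [e0]; ring
  by_cases hlast : t + 1 = 4 * c
  · -- the next level
    have hj1 : J ≤ j + 1 := by omega
    obtain ⟨d, hd⟩ := hb.dvd (j + 1) hj1
    have hd' : 2 ^ (j + 1) = b (j + 1) * (2 * d) := by rw [hd]; ring
    have hend : i0 + b j = 2 ^ (j + 1) := by rw [← m1, hlast, hc']
    set i := 2 ^ (j + 1) + b (j + 1) with hi
    have hir : i = b (j + 1) * (2 * d + 1) := by rw [hi, hd']; ring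
    have hd0 : 0 < d := by
      rcases Nat.eq_zero_or_pos d with h | h
      · rw [h] at hd; simp at hd
      · exact h
    have hble : b (j + 1) ≤ 2 ^ (j + 1) := by
      rw [hd']
      exact Nat.le_mul_of_pos_right _ (by omega)
    have hblt : b (j + 1) < 2 ^ (j + 1) := by
      rw [hd']
      nlinarith
    have hl : Nat.log 2 i = j + 1 := by
      apply Nat.log_eq_of_pow_le_of_lt_pow
      · omega
      · rw [pow_succ]; omega
    obtain ⟨a, ha, h3, h4⟩ := B67_hit hb hA i ⟨by rw [hl]; exact hj1, by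
        rw [hl]; exact ⟨2 * d + 1, hir⟩⟩
      (by unfold OddB; rw [hl, hir, Nat.mul_div_cancel_left _ hbj1]; exact ⟨d, rfl⟩)
    rw [hl] at h4
    exact ⟨a, ha, by omega, by omega⟩
  · have hlt : t + 1 < 4 * c := by omega
    rcases Nat.even_or_odd t with hev | hod
    · exact key (i0 + b j) (t + 1) m1.symm (by omega) hlt hev.add_one s2 (by omega)
    · have hlt2 : t + 2 < 4 * c := by
        obtain ⟨r, hr⟩ := hod
        omega
      refine key (i0 + 2 * b j) (t + 2) m2.symm (by omega) hlt2 ?_ (by omega) (by omega)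
      obtain ⟨r, hr⟩ := hod
      exact ⟨r + 1, by omega⟩

end Pool.Agent.LibTHL
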