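import Pool.Agent.LibTHL.BlkCard

/-! Row C3: the number of the conflicts. -/

set_option autoImplicit false

namespace Pool.Agent.LibTHL

open Finset

theorem C3_nb_card (b : ℕ → ℕ) (J n : ℕ) : #(nb b J n) ≤ 3 := by
  unfold nb
  split_ifs
  · simp
  · exact Finset.card_le_three
  · simp

theorem C3_inner {b : ℕ → ℕ} {J : ℕ} (hb : GoodB b J) (x M B h i : ℕ) (hh : h ≤ M)
    (hB : ∀ j, j ≤ Nat.log 2 (x + M) → b j ≤ B) :
    #{c ∈ Icc 1 x | i ∈ nb b J (c + h)} ≤ 4 * B := by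
  refine le_trans ?_ (card_nb hb (x + M) i B hB)
  refine card_le_card_of_injOn (fun c => c + h) ?_ ?_
  · intro c hc
    have hc' := mem_filter.1 (Finset.mem_coe.1 hc)
    have h1 := mem_Icc.1 hc'.1
    refine Finset.mem_coe.2 (mem_filter.2 ⟨mem_range.2 ?_, hc'.2⟩)
    show c + h < x + M + 1
    omega
  · intro c _ c' _ he
    have he' : c + h = c' + h := he
    omega

/-- C3: the number of the conflicts. -/
theorem conflicts {b : ℕ → ℕ} {J : ℕ} (hb : GoodB b J) (x : ℕ) (H : Finset ℕ) (M B : ℕ)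
    (hH : ∀ h ∈ H, h ≤ M) (hB : ∀ j, j ≤ Nat.log 2 (x + M) → b j ≤ B)
    (a : ℕ) (v : Finset ℕ) (hv : v ⊆ Icc 1 x)
    (hc : ∀ c ∈ v, ¬ Disjoint ((H.image (a + ·)).biUnion (nb b J))
      ((H.image (c + ·)).biUnion (nb b J))) :
    #v ≤ 12 * #H ^ 2 * B := by
  set S : Finset ℕ := (H.image (a + ·)).biUnion (nb b J) with hS
  have hScard : #S ≤ #H * 3 := by
    rw [hS]
    refine (card_biUnion_le_card_mul _ _ 3 (fun n _ => C3_nb_card b J n)).trans ?_
    exact Nat.mul_le_mul_right _ card_image_le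
  have hsub : v ⊆ S.biUnion (fun i => H.biUnion (fun h => {c ∈ Icc 1 x | i ∈ nb b J (c + h)})) := by
    intro c hcv
    have h1 := hc c hcv
    rw [Finset.not_disjoint_iff] at h1
    obtain ⟨i, hiS, hi⟩ := h1
    rw [mem_biUnion] at hi
    obtain ⟨n, hn, hin⟩ := hi
    rw [mem_image] at hn
    obtain ⟨h, hh, rfl⟩ := hn
    rw [mem_biUnion]
    refine ⟨i, hiS, ?_⟩
    rw [mem_biUnion]
    exact ⟨h, hh, mem_filter.2 ⟨hv hcv, hin⟩⟩
  calc #v ≤ #(S.biUnion (fun i => H.biUnion (fun h => {c ∈ Icc 1 x | i ∈ nb b J (c + h)}))) :=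
        card_le_card hsub
    _ ≤ #S * (#H * (4 * B)) := by
        refine card_biUnion_le_card_mul _ _ _ (fun i _ => ?_)
        exact card_biUnion_le_card_mul _ _ _ (fun h hh => C3_inner hb x M B h i (hH h hh) hB)
    _ ≤ (#H * 3) * (#H * (4 * B)) := Nat.mul_le_mul_right _ hScard
    _ = 12 * #H ^ 2 * B := by ring

end Pool.Agent.LibTHL
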