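import Pool.Agent.LibTHL.Defs

/-! Rows P1, P2, P3. -/

set_option autoImplicit false

namespace Pool.Agent.LibTHL

open Finset MeasureTheory ProbabilityTheory Filter Topology
open Pool.Agent.LibBar93 (sieveLim dens euler)
open Pool.Agent.LibCI99 (cnt hlConst dlt vee prim)
open scoped ENNReal

/-- P3. -/
theorem kappa_le {κ : ℕ → ℕ} {J : ℕ} (hκ : GoodK κ J) (j : ℕ) (hj : J ≤ j) :
    6000 * κ j ≤ Nat.log 2 j := by
  have h1 := hκ.small j hj
  have h2 : 6000 * κ j < 2 ^ (6000 * κ j) := Nat.lt_two_pow_self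
  have h3 : TL j ≤ Nat.log 2 j := by
    unfold TL
    exact Nat.div_le_self _ _
  omega

/-- P2. -/
theorem bK_le (κ : ℕ → ℕ) (j : ℕ) : bK κ j ≤ 64 * (2 * κ j + 1) * (j + 1) := by
  unfold bK
  have hx : 1 < 32 * (2 * κ j + 1) * (j + 1) := by
    have h1 : 1 ≤ (2 * κ j + 1) * (j + 1) := Nat.one_le_iff_ne_zero.2 (by positivity)
    calc 1 < 32 * 1 := by norm_num
      _ ≤ 32 * ((2 * κ j + 1) * (j + 1)) := Nat.mul_le_mul_left _ h1
      _ = _ := by ring
  have h1 := Nat.pow_pred_clog_lt_self (b := 2) (by norm_num) hx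
  have h2 : 0 < Nat.clog 2 (32 * (2 * κ j + 1) * (j + 1)) := Nat.clog_pos (by norm_num) hx
  have h3 : Nat.clog 2 (32 * (2 * κ j + 1) * (j + 1))
      = (Nat.clog 2 (32 * (2 * κ j + 1) * (j + 1))).pred + 1 := by
    have := Nat.succ_pred_eq_of_pos h2
    omega
  rw [h3, pow_succ]
  have h4 : 2 ^ (Nat.clog 2 (32 * (2 * κ j + 1) * (j + 1))).pred * 2
      ≤ (32 * (2 * κ j + 1) * (j + 1)) * 2 := Nat.mul_le_mul_right _ h1.le
  calc _ ≤ (32 * (2 * κ j + 1) * (j + 1)) * 2 := h4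
    _ = _ := by ring

/-- exponential growth -/
theorem P123_grow (j : ℕ) (hj : 64 ≤ j) : 64 * (j * (j + 1)) ≤ 2 ^ j := by
  induction j, hj using Nat.le_induction with
  | base => norm_num
  | succ n hn ih =>
    have h : 64 * ((n + 1) * (n + 1 + 1)) ≤ 2 * (64 * (n * (n + 1))) := by nlinarith
    calc _ ≤ 2 * (64 * (n * (n + 1))) := h
      _ ≤ 2 * 2 ^ n := Nat.mul_le_mul_left _ ih
      _ = 2 ^ (n + 1) := by rw [pow_succ]; ring

/-- P1. -/
theorem goodB_bK {κ : ℕ → ℕ} {J : ℕ} (hκ : GoodK κ J) : GoodB (bK κ) J := by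
  refine ⟨hκ.hJ, fun j => ?_, fun j hj => ?_⟩
  · unfold bK
    positivity
  · unfold bK
    have h64 : 64 ≤ j := hκ.hJ.trans hj
    have h1 := kappa_le hκ j hj
    have h2 : Nat.log 2 j ≤ j := Nat.log_le_self 2 j
    have h3 : 2 * κ j + 1 ≤ j := by omega
    have h4 : 32 * (2 * κ j + 1) * (j + 1) ≤ 2 ^ (j - 1) := by
      have h5 := P123_grow j h64
      have h6 : 2 ^ j = 2 * 2 ^ (j - 1) := by
        rw [← pow_succ']
        congr 1
        omega
      have h7 : 32 * (2 * κ j + 1) * (j + 1) ≤ 32 * j * (j + 1) :=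
        Nat.mul_le_mul_right _ (Nat.mul_le_mul_left _ h3)
      have h8 : 2 * (32 * j * (j + 1)) ≤ 2 * 2 ^ (j - 1) := by
        rw [← h6]
        calc 2 * (32 * j * (j + 1)) = 64 * (j * (j + 1)) := by ring
          _ ≤ 2 ^ j := h5
      omega
    have h9 : Nat.clog 2 (32 * (2 * κ j + 1) * (j + 1)) ≤ j - 1 :=
      Nat.clog_le_of_le_pow h4
    rw [← pow_succ']
    exact pow_dvd_pow 2 (by omega)

end Pool.Agent.LibTHL
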