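import Pool.Agent.LibTHL.Hoeff
import Pool.Agent.LibTHL.Conf
import Pool.Agent.LibTHL.ParA
import Pool.Agent.LibBar93.Union

/-! The counts are close to their expected values, almost surely. -/

set_option autoImplicit false

namespace Pool.Agent.LibTHL

open Finset MeasureTheory ProbabilityTheory Filter
open Pool.Agent.LibBar93 (cls sh cls_sub card_cls tuples tuples_eq log_facts mem_sh)
open Pool.Agent.LibCI99 (cnt)
open scoped ENNReal

theorem cnt_eq_tuples (A : Set ℕ) (H : Finset ℕ) (q a x : ℕ) :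
    cnt A H q a x = (tuples A H q a x : ℝ) := rfl

section

variable {κ : ℕ → ℕ} {J : ℕ} {s : ℕ → ℕ → ℝ} {p : ℕ → ℝ} {Ω : Type} [MeasurableSpace Ω]
  {μ : Measure Ω} [IsProbabilityMeasure μ] {A : Ω → Set ℕ} {P : Finset ℕ → ℝ}

theorem Model.P_nonneg (hM : Model p (bK κ) κ s J μ A P) (G : Finset ℕ) : 0 ≤ P G := by
  rw [← hM.prob G]
  exact measureReal_nonneg

theorem Model.P_le_one (hM : Model p (bK κ) κ s J μ A P) (G : Finset ℕ) : P G ≤ 1 := by
  rw [← hM.prob G]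
  exact measureReal_le_one

theorem kappa_crude (hκ : GoodK κ J) (j : ℕ) : κ j ≤ j + J := by
  have h1 := kappa_le hκ (max j J) (le_max_right _ _)
  have h2 := hκ.mono (le_max_left j J)
  have h3 : Nat.log 2 (max j J) ≤ max j J := Nat.log_le_self 2 _
  have h4 : max j J ≤ j + J := by omega
  omega

theorem bK_crude (hκ : GoodK κ J) (x M j : ℕ) (hx : 1 ≤ x) (hj : j ≤ Nat.log 2 (x + M)) :
    bK κ j ≤ 64 * ((2 * (M + J) + 3) * (Nat.log 2 x + 1)) ^ 2 := by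
  have h1 := bK_le κ j
  have h2 := kappa_crude hκ j
  have h3 : Nat.log 2 (x + M) ≤ Nat.log 2 x + (M + 1) := by
    have h4 : x + M < 2 ^ (Nat.log 2 x + (M + 1) + 1) := by
      have h5 : x < 2 ^ (Nat.log 2 x + 1) := Nat.lt_pow_succ_log_self one_lt_two x
      have h6 : M + 1 < 2 ^ (M + 1) := Nat.lt_two_pow_self
      calc x + M ≤ x * (M + 1) := by nlinarith
        _ < 2 ^ (Nat.log 2 x + 1) * 2 ^ (M + 1) :=
            Nat.mul_lt_mul_of_lt_of_le h5 h6.le (by positivity)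
        _ = 2 ^ (Nat.log 2 x + (M + 1) + 1) := by
            rw [← pow_add]
            congr 1
            omega
    have := Nat.log_lt_of_lt_pow (by omega) h4
    omega
  have h5 : j + 1 ≤ (2 * (M + J) + 3) * (Nat.log 2 x + 1) := by nlinarith
  have h6 : 2 * κ j + 1 ≤ (2 * (M + J) + 3) * (Nat.log 2 x + 1) := by nlinarith
  calc bK κ j ≤ 64 * (2 * κ j + 1) * (j + 1) := h1
    _ = 64 * ((2 * κ j + 1) * (j + 1)) := by ring
    _ ≤ 64 * (((2 * (M + J) + 3) * (Nat.log 2 x + 1)) * ((2 * (M + J) + 3) *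
        (Nat.log 2 x + 1))) := Nat.mul_le_mul_left _ (Nat.mul_le_mul h6 h5)
    _ = 64 * ((2 * (M + J) + 3) * (Nat.log 2 x + 1)) ^ 2 := by ring

/-- the bound for the number of the conflicts -/
def DD (H : Finset ℕ) (K x : ℕ) : ℕ := 12 * #H ^ 2 * (64 * (K * (Nat.log 2 x + 1)) ^ 2)

open Classical in
/-- the bad event -/
def bad (A : Ω → Set ℕ) (P : Finset ℕ → ℝ) (H : Finset ℕ) (K x : ℕ) : Set Ω :=
  if 2 ≤ x then
    ⋃ i ∈ (range (x + 1) ×ˢ range (x + 1) : Finset (ℕ × ℕ)),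
      {ω | ((DD H K x : ℝ) + 1) * (2 * ((Nat.log 2 x + 1 : ℕ) : ℝ) * √x) ≤
        |∑ n ∈ cls i.1 i.2 x, ((if ∀ m ∈ sh H n, m ∈ A ω then (1 : ℝ) else 0) - P (sh H n))|}
  else ∅

theorem Model.bad_le (hκ : GoodK κ J) (hM : Model p (bK κ) κ s J μ A P) (H : Finset ℕ) (M : ℕ)
    (hH : ∀ h ∈ H, h ≤ M) (x : ℕ) :
    μ.real (bad A P H (2 * (M + J) + 3) x) ≤ (x + 1) ^ 2 *
      (((DD H (2 * (M + J) + 3) x : ℝ) + 1) *
      (2 * Real.exp (-2 * (2 * ((Nat.log 2 x + 1 : ℕ) : ℝ) * √x) ^ 2 / x))) := by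
  classical
  unfold bad
  split_ifs with hx
  swap
  · rw [measureReal_empty]
    positivity
  have hx0 : (0 : ℝ) < x := by
    have : 0 < x := by omega
    exact_mod_cast this
  refine (measureReal_biUnion_finset_le _ _).trans ?_
  have h1 : ∀ i ∈ (range (x + 1) ×ˢ range (x + 1) : Finset (ℕ × ℕ)),
      μ.real {ω | ((DD H (2 * (M + J) + 3) x : ℝ) + 1) *
          (2 * ((Nat.log 2 x + 1 : ℕ) : ℝ) * √x) ≤
        |∑ n ∈ cls i.1 i.2 x, ((if ∀ m ∈ sh H n, m ∈ A ω then (1 : ℝ) else 0) - P (sh H n))|} ≤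
      ((DD H (2 * (M + J) + 3) x : ℝ) + 1) *
      (2 * Real.exp (-2 * (2 * ((Nat.log 2 x + 1 : ℕ) : ℝ) * √x) ^ 2 / x)) := by
    intro i _
    refine hM.conc (cls i.1 i.2 x) (sh H) (DD H (2 * (M + J) + 3) x) ?_ x _ (by positivity) hx0
      (card_cls _ _ _)
    intro a _ v hv hc
    exact conflicts (goodB_bK hκ) x H M _ hH (fun j hj => bK_crude hκ x M j (by omega) hj) a v
      (hv.trans (cls_sub _ _ _)) hc
  refine (Finset.sum_le_sum h1).trans ?_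
  rw [Finset.sum_const, nsmul_eq_mul, card_product, card_range]
  push_cast
  refine le_of_eq ?_
  ring

end

theorem summable_bad (H : Finset ℕ) (K : ℕ) : Summable (fun x : ℕ => ((x : ℝ) + 1) ^ 2 *
      (((DD H K x : ℝ) + 1) *
      (2 * Real.exp (-2 * (2 * ((Nat.log 2 x + 1 : ℕ) : ℝ) * √x) ^ 2 / x)))) := by
  refine Summable.of_norm_bounded_eventually_nat
    (g := fun x : ℕ => (2 * (12 * (#H : ℝ) ^ 2 * (64 * (K : ℝ) ^ 2) + 1)) * (1 / (x : ℝ) ^ 2)) ?_ ?_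
  · exact (Real.summable_one_div_nat_pow.mpr one_lt_two).mul_left _
  · filter_upwards [eventually_ge_atTop 1] with x hx
    have hlt : x < 2 ^ (Nat.log 2 x + 1) := Nat.lt_pow_succ_log_self one_lt_two x
    obtain ⟨L, hL⟩ : ∃ L, L = Nat.log 2 x + 1 := ⟨_, rfl⟩
    have hL1 : 1 ≤ L := by omega
    rw [← hL] at hlt ⊢
    rw [Real.norm_of_nonneg (by positivity)]
    have hxR : (1 : ℝ) ≤ x := by exact_mod_cast hx
    have hx0 : (0 : ℝ) < x := by linarith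
    have hLR : (1 : ℝ) ≤ L := by exact_mod_cast hL1
    have e0 : -2 * (2 * (L : ℝ) * √x) ^ 2 / x = -(8 * (L : ℝ) ^ 2) := by
      rw [mul_pow, Real.sq_sqrt hx0.le]
      field_simp
      ring
    have e1 : (x : ℝ) + 1 ≤ 2 ^ L := by exact_mod_cast hlt
    have e2 : (DD H K x : ℝ) + 1 ≤ (12 * (#H : ℝ) ^ 2 * (64 * (K : ℝ) ^ 2) + 1) * (L : ℝ) ^ 2 := by
      unfold DD
      rw [← hL]
      push_cast
      have : (1 : ℝ) ≤ (L : ℝ) ^ 2 := one_le_pow₀ hLR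
      nlinarith
    have e3 : Real.exp (-(8 * (L : ℝ) ^ 2)) ≤ (1 / 256 : ℝ) ^ L := by
      have h1 : -(8 * (L : ℝ) ^ 2) ≤ (L : ℝ) * (-8) := by nlinarith
      have h2 : Real.exp (-8) ≤ 1 / 256 := by
        rw [Real.exp_neg, inv_eq_one_div]
        apply one_div_le_one_div_of_le (by norm_num)
        have h3 : (256 : ℝ) = 2 ^ 8 := by norm_num
        have h4 : Real.exp 8 = Real.exp 1 ^ 8 := by
          rw [← Real.exp_nat_mul]
          norm_num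
        rw [h3, h4]
        exact pow_le_pow_left₀ (by norm_num) (by linarith [Real.add_one_le_exp (1 : ℝ)]) 8
      calc Real.exp (-(8 * (L : ℝ) ^ 2)) ≤ Real.exp ((L : ℝ) * (-8)) := Real.exp_le_exp.2 h1
        _ = Real.exp (-8) ^ L := by rw [← Real.exp_nat_mul]
        _ ≤ (1 / 256 : ℝ) ^ L := pow_le_pow_left₀ (Real.exp_pos _).le h2 L
    have e4 : (L : ℝ) ^ 2 ≤ 4 ^ L := by
      have : (L : ℝ) ≤ 2 ^ L := by exact_mod_cast Nat.lt_two_pow_self.le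
      calc (L : ℝ) ^ 2 ≤ (2 ^ L) ^ 2 := by gcongr
        _ = 4 ^ L := by rw [← pow_mul, mul_comm, pow_mul]; norm_num
    have e5 : (x : ℝ) ^ 2 * ((x : ℝ) + 1) ^ 2 * (L : ℝ) ^ 2 * (1 / 256 : ℝ) ^ L ≤ 1 := by
      calc (x : ℝ) ^ 2 * ((x : ℝ) + 1) ^ 2 * (L : ℝ) ^ 2 * (1 / 256 : ℝ) ^ L
          ≤ (2 ^ L) ^ 2 * (2 ^ L) ^ 2 * 4 ^ L * (1 / 256 : ℝ) ^ L := by
            gcongr
            linarith
        _ = (4 * 4 * 4 * (1 / 256 : ℝ)) ^ L := by
            rw [mul_pow, mul_pow, mul_pow, ← pow_mul, mul_comm L 2, pow_mul]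
            norm_num
        _ ≤ 1 := pow_le_one₀ (by norm_num) (by norm_num)
    rw [e0, mul_one_div, le_div_iff₀ (by positivity)]
    calc ((x : ℝ) + 1) ^ 2 * (((DD H K x : ℝ) + 1) * (2 * Real.exp (-(8 * (L : ℝ) ^ 2)))) *
          (x : ℝ) ^ 2
        ≤ ((x : ℝ) + 1) ^ 2 * (((12 * (#H : ℝ) ^ 2 * (64 * (K : ℝ) ^ 2) + 1) * (L : ℝ) ^ 2) *
          (2 * (1 / 256 : ℝ) ^ L)) * (x : ℝ) ^ 2 := by gcongr
      _ = (2 * (12 * (#H : ℝ) ^ 2 * (64 * (K : ℝ) ^ 2) + 1)) *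
          ((x : ℝ) ^ 2 * ((x : ℝ) + 1) ^ 2 * (L : ℝ) ^ 2 * (1 / 256 : ℝ) ^ L) := by ring
      _ ≤ (2 * (12 * (#H : ℝ) ^ 2 * (64 * (K : ℝ) ^ 2) + 1)) * 1 := by gcongr
      _ = _ := by ring

theorem cls_mod {q a x : ℕ} : cls q a x = cls q (a % q) x := by
  unfold cls
  refine Finset.filter_congr fun n _ => ?_
  unfold Nat.ModEq
  rw [Nat.mod_mod]

theorem card_cls_le_one {q a x : ℕ} (hqx : x < q) : #(cls q a x) ≤ 1 := by
  rw [Finset.card_le_one]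
  intro n hn m hm
  unfold cls at hn hm
  rw [mem_filter, mem_Icc] at hn hm
  have h1 : n % q = m % q := hn.2.trans hm.2.symm
  rwa [Nat.mod_eq_of_lt (by omega), Nat.mod_eq_of_lt (by omega)] at h1

/-- C4: the counts are close to their expected values, almost surely. -/
theorem Model.counts {κ : ℕ → ℕ} {J : ℕ} (hκ : GoodK κ J) {s : ℕ → ℕ → ℝ} {p : ℕ → ℝ}
    {Ω : Type} [MeasurableSpace Ω]
    {μ : Measure Ω} [IsProbabilityMeasure μ] {A : Ω → Set ℕ} {P : Finset ℕ → ℝ}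
    (hM : Model p (bK κ) κ s J μ A P) (H : Finset ℕ) : ∀ᵐ ω ∂μ, ∃ C : ℝ, ∀ x : ℕ, 2 ≤ x →
      ∀ q a : ℕ, 0 < q →
      |cnt (A ω) H q a x - ∑ n ∈ Icc 1 x with n ≡ a [MOD q], P (H.image (n + ·))| ≤
        C * √x * Real.log x ^ 3 := by
  classical
  obtain ⟨M, hH⟩ : ∃ M, ∀ h ∈ H, h ≤ M := ⟨H.sup id, fun h hh => Finset.le_sup (f := id) hh⟩
  obtain ⟨K, hK⟩ : ∃ K, K = 2 * (M + J) + 3 := ⟨_, rfl⟩
  have hsum : ∑' x, μ (bad A P H K x) ≠ ∞ := by
    have h1 := (summable_bad H K).tsum_ofReal_ne_top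
    refine ne_top_of_le_ne_top h1 (ENNReal.tsum_le_tsum fun x => ?_)
    rw [← ofReal_measureReal (μ := μ) (s := bad A P H K x)]
    rw [hK]
    exact ENNReal.ofReal_le_ofReal (hM.bad_le hκ H M hH x)
  filter_upwards [ae_eventually_notMem hsum] with ω hω
  obtain ⟨x0, hx0⟩ := eventually_atTop.1 hω
  refine ⟨54 * (12 * (#H : ℝ) ^ 2 * (64 * (K : ℝ) ^ 2) + 1) + 8 * (x0 + 1), ?_⟩
  intro x hx q a hq
  obtain ⟨hL, h2, hl0⟩ := log_facts x hx
  have hx' : (2 : ℝ) ≤ x := by exact_mod_cast hx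
  have hsq : 1 ≤ √(x : ℝ) := Real.one_le_sqrt.2 (by linarith)
  set l := Real.log x with hl
  have h5 : (1 : ℝ) ≤ 8 * l ^ 3 := by
    calc (1 : ℝ) ≤ (2 * l) ^ 3 := one_le_pow₀ h2
      _ = 8 * l ^ 3 := by ring
  have hcnt : cnt (A ω) H q a x - ∑ n ∈ Icc 1 x with n ≡ a [MOD q], P (H.image (n + ·)) =
      ∑ n ∈ cls q a x, ((if ∀ m ∈ sh H n, m ∈ A ω then (1 : ℝ) else 0) - P (sh H n)) := by
    rw [cnt_eq_tuples, tuples_eq, Finset.sum_sub_distrib]
    rfl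
  rw [hcnt]
  have hterm : ∀ n ∈ cls q a x,
      |(if ∀ m ∈ sh H n, m ∈ A ω then (1 : ℝ) else 0) - P (sh H n)| ≤ 1 := by
    intro n _
    have a1 := hM.P_nonneg (sh H n)
    have a2 := hM.P_le_one (sh H n)
    rw [abs_le]
    split_ifs <;> constructor <;> linarith
  have htriv : |∑ n ∈ cls q a x, ((if ∀ m ∈ sh H n, m ∈ A ω then (1 : ℝ) else 0) - P (sh H n))| ≤
      #(cls q a x) := by
    refine (Finset.abs_sum_le_sum_abs _ _).trans ((Finset.sum_le_sum hterm).trans ?_)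
    simp
  have hC0 : (0 : ℝ) ≤ 54 * (12 * (#H : ℝ) ^ 2 * (64 * (K : ℝ) ^ 2) + 1) := by positivity
  have hx00 : (0 : ℝ) ≤ x0 := by positivity
  have hone : (1 : ℝ) ≤ √x * (8 * l ^ 3) := one_le_mul_of_one_le_of_one_le hsq h5
  have hCterm : (0 : ℝ) ≤ 54 * (12 * (#H : ℝ) ^ 2 * (64 * (K : ℝ) ^ 2) + 1) * √x * l ^ 3 := by
    positivity
  have hcase : |∑ n ∈ cls q a x,
      ((if ∀ m ∈ sh H n, m ∈ A ω then (1 : ℝ) else 0) - P (sh H n))| ≤ x0 + 1 ∨
      |∑ n ∈ cls q a x, ((if ∀ m ∈ sh H n, m ∈ A ω then (1 : ℝ) else 0) - P (sh H n))| ≤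
        54 * (12 * (#H : ℝ) ^ 2 * (64 * (K : ℝ) ^ 2) + 1) * √x * l ^ 3 := by
    by_cases hqx : q ≤ x
    · by_cases hxx : x0 ≤ x
      · right
        have h := hx0 x hxx
        unfold bad at h
        rw [if_pos hx] at h
        simp only [Set.mem_iUnion, exists_prop, not_exists, not_and] at h
        have haq : a % q < q := Nat.mod_lt _ hq
        have h' := h (q, a % q) (by
          rw [mem_product, mem_range, mem_range]
          constructor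
          · change q < x + 1
            omega
          · change a % q < x + 1
            omega)
        rw [Set.mem_ofPred_eq, not_le] at h'
        rw [cls_mod]
        refine h'.le.trans ?_
        have hL' : ((Nat.log 2 x + 1 : ℕ) : ℝ) ≤ 3 * l := hL
        have b1 : (DD H K x : ℝ) + 1 ≤
            (12 * (#H : ℝ) ^ 2 * (64 * (K : ℝ) ^ 2) + 1) * ((Nat.log 2 x + 1 : ℕ) : ℝ) ^ 2 := by
          unfold DD
          have : (1 : ℝ) ≤ ((Nat.log 2 x + 1 : ℕ) : ℝ) := by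
            exact_mod_cast Nat.succ_le_succ (Nat.zero_le _)
          have : (1 : ℝ) ≤ ((Nat.log 2 x + 1 : ℕ) : ℝ) ^ 2 := one_le_pow₀ this
          push_cast at this ⊢
          nlinarith
        have hL0 : (0 : ℝ) ≤ ((Nat.log 2 x + 1 : ℕ) : ℝ) := by positivity
        calc ((DD H K x : ℝ) + 1) * (2 * ((Nat.log 2 x + 1 : ℕ) : ℝ) * √x)
            ≤ ((12 * (#H : ℝ) ^ 2 * (64 * (K : ℝ) ^ 2) + 1) * ((Nat.log 2 x + 1 : ℕ) : ℝ) ^ 2) *
              (2 * ((Nat.log 2 x + 1 : ℕ) : ℝ) * √x) := by gcongr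
          _ = 2 * (12 * (#H : ℝ) ^ 2 * (64 * (K : ℝ) ^ 2) + 1) * √x *
              ((Nat.log 2 x + 1 : ℕ) : ℝ) ^ 3 := by ring
          _ ≤ 2 * (12 * (#H : ℝ) ^ 2 * (64 * (K : ℝ) ^ 2) + 1) * √x * (3 * l) ^ 3 := by gcongr
          _ = 54 * (12 * (#H : ℝ) ^ 2 * (64 * (K : ℝ) ^ 2) + 1) * √x * l ^ 3 := by ring
      · left
        push Not at hxx
        refine htriv.trans ((card_cls q a x).trans ?_)
        have : (x : ℝ) ≤ x0 := by exact_mod_cast hxx.le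
        linarith
    · left
      push Not at hqx
      refine htriv.trans ?_
      have : (#(cls q a x) : ℝ) ≤ 1 := by exact_mod_cast card_cls_le_one hqx
      linarith
  rcases hcase with h | h
  · refine h.trans ?_
    nlinarith
  · refine h.trans ?_
    have : 0 ≤ 8 * ((x0 : ℝ) + 1) * √x * l ^ 3 := by positivity
    linarith

end Pool.Agent.LibTHL
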