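import Pool.Agent.LibTHL.Tail
import Pool.Agent.LibTHL.ParA
import Pool.Agent.LibBar93.Params

set_option autoImplicit false

namespace Pool.Agent.LibTHL

open Finset MeasureTheory ProbabilityTheory Filter Topology
open Pool.Agent.LibBar93 (sieveLim dens euler)
open Pool.Agent.LibCI99 (cnt hlConst dlt vee prim)
open scoped ENNReal

theorem h1_tail_bdd (m : ℕ) : ∃ K : ℝ, 1 ≤ K ∧ ∀ T : ℕ, |tailF T m| ≤ K := by
  refine ⟨1 + (m : ℝ) ^ 2 + ∑ T ∈ range (m + 1), |tailF T m|, ?_, fun T => ?_⟩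
  · have : 0 ≤ ∑ T ∈ range (m + 1), |tailF T m| := Finset.sum_nonneg fun _ _ => abs_nonneg _
    nlinarith [sq_nonneg (m : ℝ)]
  · by_cases hT : T ≤ m
    · have h1 : |tailF T m| ≤ ∑ T ∈ range (m + 1), |tailF T m| :=
        Finset.single_le_sum (f := fun T => |tailF T m|) (fun _ _ => abs_nonneg _)
          (Finset.mem_range.2 (by omega))
      nlinarith [sq_nonneg (m : ℝ)]
    · have hm : m ≤ T := by omega
      have h0 : 0 < T := by omega
      have h1 := tailF_le_one T m hm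
      have h2 := le_tailF T m hm h0
      have h3 : (1 : ℝ) ≤ T := by exact_mod_cast h0
      have h4 : (m : ℝ) ^ 2 / T ≤ (m : ℝ) ^ 2 := by
        rw [div_le_iff₀ (by linarith)]
        nlinarith [sq_nonneg (m : ℝ)]
      have h5 : 0 ≤ ∑ T ∈ range (m + 1), |tailF T m| := Finset.sum_nonneg fun _ _ => abs_nonneg _
      rw [abs_le]
      constructor <;> nlinarith [sq_nonneg (m : ℝ)]

theorem h1_count (J0 M x : ℕ) :
    #{n ∈ Icc 1 x | ¬ (J0 ≤ Nat.log 2 n ∧ n + M < 2 ^ (Nat.log 2 n + 1))}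
      ≤ 2 ^ J0 + (Nat.log 2 x + 1) * M := by
  classical
  have hsub : ({n ∈ Icc 1 x | ¬ (J0 ≤ Nat.log 2 n ∧ n + M < 2 ^ (Nat.log 2 n + 1))} : Finset ℕ)
      ⊆ range (2 ^ J0) ∪ (range (Nat.log 2 x + 1)).biUnion
        (fun j => Ico (2 ^ (j + 1) - M) (2 ^ (j + 1))) := by
    intro n hn
    rw [mem_filter, mem_Icc] at hn
    rw [mem_union, mem_biUnion]
    by_cases h : J0 ≤ Nat.log 2 n
    · right
      refine ⟨Nat.log 2 n, mem_range.2 (Nat.lt_succ_of_le (Nat.log_mono_right hn.1.2)), ?_⟩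
      rw [mem_Ico]
      have h1 : ¬ n + M < 2 ^ (Nat.log 2 n + 1) := fun h' => hn.2 ⟨h, h'⟩
      exact ⟨by omega, Nat.lt_pow_succ_log_self (by norm_num) n⟩
    · left
      rw [mem_range]
      exact (Nat.log_lt_iff_lt_pow (by norm_num) (by omega)).1 (not_le.1 h)
  refine (card_le_card hsub).trans ((card_union_le _ _).trans ?_)
  rw [card_range]
  refine Nat.add_le_add_left ?_ _
  refine (card_biUnion_le_card_mul _ _ M fun j _ => ?_).trans ?_
  · rw [Nat.card_Ico]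
    omega
  · rw [card_range]

/-- H1: the expected values. -/
theorem Model.expect {κ : ℕ → ℕ} {J : ℕ} (hκ : GoodK κ J) (hκt : Tendsto κ atTop atTop)
    {Ω : Type} [MeasurableSpace Ω]
    {μ : Measure Ω} [IsProbabilityMeasure μ] {A : Ω → Set ℕ} {P : Finset ℕ → ℝ}
    (hM : Model dens (bK κ) κ (fun j m => tailF (TL j) m) J μ A P) (H : Finset ℕ) :
    ∃ C : ℝ, ∀ x : ℕ, 2 ≤ x → ∀ q a : ℕ,
      |∑ n ∈ Icc 1 x with n ≡ a [MOD q], P (H.image (n + ·)) -
        ∑ n ∈ Icc 1 x with n ≡ a [MOD q], tailF (sieveLim n) #H * ∏ h ∈ H, dens (n + h)| ≤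
        C * Real.log x := by
  classical
  obtain ⟨K, hK1, hK⟩ := h1_tail_bdd #H
  obtain ⟨J1, hJ1⟩ := (tendsto_atTop_atTop.1 hκt) #H
  set M : ℕ := H.sup id with hMdef
  have hle : ∀ h ∈ H, h ≤ M := fun h hh => Finset.le_sup (f := id) hh
  set J0 : ℕ := max (max J J1) M with hJ0
  have hd0 := Pool.Agent.LibBar93.weight_dens.nonneg
  have hd1 := Pool.Agent.LibBar93.weight_dens.le_one
  -- good terms agree
  have hgood : ∀ n : ℕ, (J0 ≤ Nat.log 2 n ∧ n + M < 2 ^ (Nat.log 2 n + 1)) → 0 < n →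
      P (H.image (n + ·)) = tailF (sieveLim n) #H * ∏ h ∈ H, dens (n + h) := by
    rintro n ⟨h1, h2⟩ hn0
    have hJ : J ≤ Nat.log 2 n := le_trans (le_trans (le_max_left _ _) (le_max_left _ _)) h1
    have hJ1' : #H ≤ κ (Nat.log 2 n) :=
      hJ1 _ (le_trans (le_trans (le_max_right _ _) (le_max_left _ _)) h1)
    have hMj : M ≤ Nat.log 2 n := le_trans (le_max_right _ _) h1
    have hinj : Set.InjOn (n + ·) (H : Set ℕ) := fun a _ b _ hab => by
      have : n + a = n + b := hab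
      omega
    have hcard : #(H.image (n + ·)) = #H := card_image_of_injOn hinj
    have hc := hM.corr (Nat.log 2 n) hJ (H.image (n + ·)) ?_ ?_ ?_
    · rw [hc, hcard, prod_image hinj]
      rfl
    · intro m hm
      obtain ⟨h, hh, rfl⟩ := mem_image.1 hm
      have h3 : 2 ^ Nat.log 2 n ≤ n := Nat.pow_log_le_self 2 (by omega)
      have h4 := hle h hh
      exact Nat.log_eq_of_pow_le_of_lt_pow (by omega) (by omega)
    · intro m hm m' hm'
      obtain ⟨h, hh, rfl⟩ := mem_image.1 hm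
      obtain ⟨h', hh', rfl⟩ := mem_image.1 hm'
      have h4 := hle h' hh'
      have h5 : 32 * (2 * κ (Nat.log 2 n) + 1) * (Nat.log 2 n + 1) ≤ bK κ (Nat.log 2 n) :=
        Nat.le_pow_clog (by norm_num) _
      have h6 : Nat.log 2 n + 1 ≤ 32 * (2 * κ (Nat.log 2 n) + 1) * (Nat.log 2 n + 1) := by
        nlinarith [Nat.zero_le (κ (Nat.log 2 n)), Nat.zero_le (Nat.log 2 n)]
      change n + h' < n + h + bK κ (Nat.log 2 n)
      omega
    · rw [hcard]
      exact hJ1'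
  have hP : ∀ G : Finset ℕ, |P G| ≤ 1 := by
    intro G
    rw [← hM.prob G, abs_of_nonneg measureReal_nonneg]
    exact measureReal_le_one
  have hterm : ∀ n : ℕ, |P (H.image (n + ·)) - tailF (sieveLim n) #H * ∏ h ∈ H, dens (n + h)|
      ≤ 2 * K := by
    intro n
    have h1 : |tailF (sieveLim n) #H * ∏ h ∈ H, dens (n + h)| ≤ K := by
      rw [abs_mul, Finset.abs_prod]
      have h2 : ∏ h ∈ H, |dens (n + h)| ≤ 1 :=
        Finset.prod_le_one (fun _ _ => abs_nonneg _)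
          (fun h _ => by rw [abs_of_nonneg (hd0 _)]; exact hd1 _)
      have h3 : 0 ≤ ∏ h ∈ H, |dens (n + h)| := Finset.prod_nonneg fun _ _ => abs_nonneg _
      calc |tailF (sieveLim n) #H| * ∏ h ∈ H, |dens (n + h)| ≤ K * 1 :=
            mul_le_mul (hK _) h2 h3 (by linarith)
        _ = K := mul_one K
    have h2 := hP (H.image (n + ·))
    calc |P (H.image (n + ·)) - tailF (sieveLim n) #H * ∏ h ∈ H, dens (n + h)|
        ≤ |P (H.image (n + ·))| + |tailF (sieveLim n) #H * ∏ h ∈ H, dens (n + h)| := abs_sub _ _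
      _ ≤ 2 * K := by linarith
  have hl2 : 0 < Real.log 2 := Real.log_pos (by norm_num)
  refine ⟨2 * K * (2 ^ J0 / Real.log 2 + 2 * M / Real.log 2), fun x hx q a => ?_⟩
  have hx2 : (2 : ℝ) ≤ x := by exact_mod_cast hx
  have hlx : Real.log 2 ≤ Real.log x := Real.log_le_log (by norm_num) hx2
  rw [← Finset.sum_sub_distrib]
  refine (Finset.abs_sum_le_sum_abs _ _).trans ?_
  have hb : ∀ n ∈ ({n ∈ Icc 1 x | n ≡ a [MOD q]} : Finset ℕ),
      |P (H.image (n + ·)) - tailF (sieveLim n) #H * ∏ h ∈ H, dens (n + h)|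
      ≤ if ¬ (J0 ≤ Nat.log 2 n ∧ n + M < 2 ^ (Nat.log 2 n + 1)) then 2 * K else 0 := by
    intro n hn
    rw [mem_filter, mem_Icc] at hn
    by_cases hg : J0 ≤ Nat.log 2 n ∧ n + M < 2 ^ (Nat.log 2 n + 1)
    · rw [if_neg (not_not.2 hg), hgood n hg (by omega), sub_self, abs_zero]
    · rw [if_pos hg]
      exact hterm n
  refine (Finset.sum_le_sum hb).trans ?_
  have hc1 : ∑ n ∈ ({n ∈ Icc 1 x | n ≡ a [MOD q]} : Finset ℕ),
      (if ¬ (J0 ≤ Nat.log 2 n ∧ n + M < 2 ^ (Nat.log 2 n + 1)) then 2 * K else 0)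
      ≤ ∑ n ∈ Icc 1 x,
      (if ¬ (J0 ≤ Nat.log 2 n ∧ n + M < 2 ^ (Nat.log 2 n + 1)) then 2 * K else 0) := by
    refine Finset.sum_le_sum_of_subset_of_nonneg (Finset.filter_subset _ _) fun n _ _ => ?_
    by_cases hg : J0 ≤ Nat.log 2 n ∧ n + M < 2 ^ (Nat.log 2 n + 1)
    · rw [if_neg (not_not.2 hg)]
    · rw [if_pos hg]
      linarith
  refine hc1.trans ?_
  rw [← Finset.sum_filter, Finset.sum_const, nsmul_eq_mul]
  have hcount := h1_count J0 M x
  have hcount' : ((#{n ∈ Icc 1 x | ¬ (J0 ≤ Nat.log 2 n ∧ n + M < 2 ^ (Nat.log 2 n + 1))} : ℕ) : ℝ)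
      ≤ 2 ^ J0 + (Nat.log 2 x + 1) * M := by exact_mod_cast hcount
  have hlog : (Nat.log 2 x : ℝ) ≤ Real.log x / Real.log 2 := by
    rw [le_div_iff₀ hl2]
    have h1 : 2 ^ Nat.log 2 x ≤ x := Nat.pow_log_le_self 2 (by omega)
    have h2 : ((2 : ℝ)) ^ Nat.log 2 x ≤ x := by exact_mod_cast h1
    have h3 := Real.log_le_log (by positivity) h2
    rwa [Real.log_pow] at h3
  have h1x : 1 ≤ Real.log x / Real.log 2 := by
    rw [le_div_iff₀ hl2]; linarith
  have hMn : (0 : ℝ) ≤ M := Nat.cast_nonneg M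
  have hfin : (2 : ℝ) ^ J0 + (Nat.log 2 x + 1) * M
      ≤ (2 ^ J0 / Real.log 2 + 2 * M / Real.log 2) * Real.log x := by
    have e1 : (2 ^ J0 / Real.log 2 + 2 * M / Real.log 2) * Real.log x
        = 2 ^ J0 * (Real.log x / Real.log 2) + 2 * (Real.log x / Real.log 2) * M := by ring
    rw [e1]
    have h2 : (2 : ℝ) ^ J0 * 1 ≤ 2 ^ J0 * (Real.log x / Real.log 2) :=
      mul_le_mul_of_nonneg_left h1x (by positivity)
    have h3 : ((Nat.log 2 x : ℝ) + 1) * M ≤ 2 * (Real.log x / Real.log 2) * M :=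
      mul_le_mul_of_nonneg_right (by linarith) hMn
    linarith
  calc _ ≤ ((2 : ℝ) ^ J0 + (Nat.log 2 x + 1) * M) * (2 * K) :=
        mul_le_mul_of_nonneg_right hcount' (by linarith)
    _ ≤ ((2 ^ J0 / Real.log 2 + 2 * M / Real.log 2) * Real.log x) * (2 * K) :=
        mul_le_mul_of_nonneg_right hfin (by linarith)
    _ = _ := by ring

end Pool.Agent.LibTHL
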