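import Pool.Agent.LibTHL.Defs

set_option autoImplicit false

namespace Pool.Agent.LibTHL

open Finset MeasureTheory ProbabilityTheory Filter

theorem F15_TL {N i : ℕ} (h : 2 ^ (4 * N) ≤ i) : N ≤ TL i := by
  unfold TL
  have h0 : i ≠ 0 := by
    have : 0 < 2 ^ (4 * N) := by positivity
    omega
  have h1 : 4 * N ≤ Nat.log 2 i := (Nat.le_log_iff_pow_le (by norm_num) h0).mpr h
  omega

/-- F1. -/
theorem exists_kappa (ψ : ℕ → ℕ) (hψ : Tendsto ψ atTop atTop) :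
    ∃ (κ : ℕ → ℕ) (J : ℕ), GoodK κ J ∧ Tendsto κ atTop atTop ∧ ∀ j, J ≤ j → κ (j + 1) ≤ ψ j := by
  classical
  let Q : ℕ → ℕ → Prop := fun j m => ∀ i, j ≤ i → 2 ^ (6000 * m) ≤ TL i ∧ m ≤ ψ (i - 1)
  have hQ : ∀ M : ℕ, ∃ j₀, ∀ j, j₀ ≤ j → Q j M := by
    intro M
    obtain ⟨j₁, h1⟩ := (tendsto_atTop_atTop.mp hψ) M
    refine ⟨max (2 ^ (4 * 2 ^ (6000 * M))) (j₁ + 1), fun j hj i hi => ?_⟩
    have h2 := le_max_left (2 ^ (4 * 2 ^ (6000 * M))) (j₁ + 1)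
    have h3 := le_max_right (2 ^ (4 * 2 ^ (6000 * M))) (j₁ + 1)
    exact ⟨F15_TL ((h2.trans hj).trans hi), h1 (i - 1) (by omega)⟩
  have hQmono : ∀ j j' m, j ≤ j' → Q j m → Q j' m := fun j j' m hjj h i hi => h i (hjj.trans hi)
  obtain ⟨j₁, h1⟩ := hQ 1
  refine ⟨fun j => Nat.findGreatest (Q j) j, max 64 j₁, ?_, ?_, ?_⟩
  · constructor
    · exact le_max_left _ _
    · intro j j' hjj
      exact Nat.findGreatest_mono (fun m hm => hQmono j j' m hjj hm) hjj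
    · intro j hj
      have h2 := le_max_left 64 j₁
      have h3 := le_max_right 64 j₁
      exact Nat.le_findGreatest (by omega) (h1 j (h3.trans hj))
    · intro j hj
      have h2 := le_max_left 64 j₁
      have h3 := le_max_right 64 j₁
      have h4 : Q j (Nat.findGreatest (Q j) j) :=
        Nat.findGreatest_spec (m := 1) (by omega) (h1 j (h3.trans hj))
      exact (h4 j le_rfl).1
  · rw [tendsto_atTop_atTop]
    intro M
    obtain ⟨j₀, h0⟩ := hQ M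
    refine ⟨max M j₀, fun j hj => ?_⟩
    exact Nat.le_findGreatest ((le_max_left _ _).trans hj) (h0 j ((le_max_right _ _).trans hj))
  · intro j hj
    have h2 := le_max_left 64 j₁
    have h3 := le_max_right 64 j₁
    have h4 : Q (j + 1) (Nat.findGreatest (Q (j + 1)) (j + 1)) :=
      Nat.findGreatest_spec (m := 1) (by omega) (h1 (j + 1) (by omega))
    have h5 := (h4 (j + 1) le_rfl).2
    simpa using h5

/-- F5. -/
theorem exists_psi (f : ℕ → ℝ) (hf : Tendsto (fun n : ℕ => f n / Real.log n) atTop atTop) :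
    ∃ ψ : ℕ → ℕ, Tendsto ψ atTop atTop ∧
      ∀ᶠ j : ℕ in atTop, ∀ n : ℕ, 2 ^ (j - 1) ≤ n → (ψ j : ℝ) ^ 2 ≤ f n / Real.log n := by
  classical
  let Q : ℕ → ℕ → Prop := fun j m => ∀ n : ℕ, 2 ^ (j - 1) ≤ n → (m : ℝ) ^ 2 ≤ f n / Real.log n
  have hQ : ∀ M : ℕ, ∃ j₀, ∀ j, j₀ ≤ j → Q j M := by
    intro M
    obtain ⟨n₁, h1⟩ := (tendsto_atTop_atTop.mp hf) ((M : ℝ) ^ 2)
    refine ⟨n₁ + 1, fun j hj n hn => h1 n ?_⟩
    have h2 : j - 1 < 2 ^ (j - 1) := Nat.lt_two_pow_self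
    omega
  refine ⟨fun j => Nat.findGreatest (Q j) j, ?_, ?_⟩
  · rw [tendsto_atTop_atTop]
    intro M
    obtain ⟨j₀, h0⟩ := hQ M
    refine ⟨max M j₀, fun j hj => ?_⟩
    exact Nat.le_findGreatest ((le_max_left _ _).trans hj) (h0 j ((le_max_right _ _).trans hj))
  · obtain ⟨j₀, h0⟩ := hQ 0
    filter_upwards [eventually_ge_atTop j₀] with j hj
    exact Nat.findGreatest_spec (P := Q j) (m := 0) (Nat.zero_le j) (h0 j hj)

end Pool.Agent.LibTHL
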