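import Pool.Agent.LibTHL.Defs
import Pool.Agent.LibCI99.HL2

set_option autoImplicit false

namespace Pool.Agent.LibTHL

open Finset MeasureTheory ProbabilityTheory Filter Topology
open Pool.Agent.LibBar93 (sieveLim dens euler)
open Pool.Agent.LibCI99 (cnt hlConst dlt vee prim)
open scoped ENNReal

/-- T4. -/
theorem hlConst_eq (H : Finset ℕ) (q a : ℕ) (hq : 0 < q) (T : ℕ) (hqT : q ≤ T)
    (hH : ∀ h ∈ H, h ≤ T) : hlConst q a H = dlt q a H T / vee T ^ #H * tailF T #H := by
  classical
  -- the part above `T`
  have hs : Summable (fun p : Nat.Primes => 2 ^ H.card * (H.card : ℝ) ^ 2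
      * (1 / ((p : ℕ) : ℝ) ^ 2)) := by
    refine Summable.mul_left _ ?_
    exact (Real.summable_one_div_nat_pow.mpr one_lt_two).comp_injective
      Nat.Primes.coe_nat_injective
  set f : Nat.Primes → ℝ := fun p => if T < (p : ℕ) then Pool.Agent.LibCI99.loc q a H p else 1
    with hf
  set g : Nat.Primes → ℝ := fun p => if T < (p : ℕ) then 1 else Pool.Agent.LibCI99.loc q a H p
    with hg
  have hmf : Multipliable f := by
    have hs2 : Summable (fun p : Nat.Primes => f p - 1) := by
      refine hs.of_norm_bounded fun p => ?_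
      by_cases hp : T < (p : ℕ)
      · have h1 : f p = Pool.Agent.LibCI99.loc q a H p := if_pos hp
        rw [h1]
        exact Pool.Agent.LibCI99.loc_sub_one q a hq H p p.2
          (fun h hh => lt_of_le_of_lt (hH h hh) hp) (lt_of_le_of_lt hqT hp)
      · have h1 : f p = 1 := if_neg hp
        rw [h1, sub_self, norm_zero]
        positivity
    have := Real.multipliable_one_add_of_summable hs2
    refine this.congr fun p => ?_
    ring
  have hgs : ∀ p ∉ ((Finset.range (T + 1)).subtype Nat.Prime : Finset Nat.Primes), g p = 1 := by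
    intro p hp
    rw [Finset.mem_subtype, Finset.mem_range] at hp
    have hp' : T < (p : ℕ) := by
      by_contra hc
      exact hp (Nat.lt_succ_of_le (not_lt.1 hc))
    exact if_pos hp'
  have hmg : Multipliable g := multipliable_of_ne_finset_one hgs
  have hprod : ∏' p : Nat.Primes, Pool.Agent.LibCI99.loc q a H p
      = (∏' p, f p) * ∏' p, g p := by
    rw [← hmf.tprod_mul hmg]
    refine tprod_congr fun p => ?_
    by_cases hp : T < (p : ℕ)
    · simp only [hf, hg, if_pos hp, mul_one]
    · simp only [hf, hg, if_neg hp, one_mul]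
  have htail : ∏' p, f p = tailF T #H := by
    unfold tailF
    refine tprod_congr fun p => ?_
    by_cases hp : T < (p : ℕ)
    · have hdvd : ¬ (p : ℕ) ∣ q := fun hd =>
        absurd (Nat.le_of_dvd hq hd) (not_le.2 (lt_of_le_of_lt hqT hp))
      simp only [hf, if_pos hp]
      unfold Pool.Agent.LibCI99.loc
      rw [if_neg hdvd, Pool.Agent.LibCI99.occ_of_gt H p
        (fun h hh => lt_of_le_of_lt (hH h hh) hp)]
    · simp only [hf, if_neg hp]
  have hfin : ∏' p, g p = ∏ p ∈ (Finset.range (T + 1)).filter Nat.Prime,
      Pool.Agent.LibCI99.loc q a H p := by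
    refine (tprod_eq_prod (L := SummationFilter.unconditional _) hgs).trans ?_
    have h4 : ∏ p ∈ ((Finset.range (T + 1)).subtype Nat.Prime : Finset Nat.Primes),
        Pool.Agent.LibCI99.loc q a H p =
        ∏ p ∈ (Finset.range (T + 1)).filter Nat.Prime, Pool.Agent.LibCI99.loc q a H p :=
      Finset.prod_subtype_eq_prod_filter (fun p => Pool.Agent.LibCI99.loc q a H p)
    refine Eq.trans (Finset.prod_congr rfl fun p hp => ?_) h4
    rw [Finset.mem_subtype, Finset.mem_range] at hp
    exact if_neg (by omega)
  unfold hlConst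
  rw [hprod, htail, hfin]
  unfold dlt vee Pool.Agent.LibCI99.loc
  rw [Finset.prod_div_distrib, Finset.prod_pow]
  ring

end Pool.Agent.LibTHL
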