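import Pool.Agent.LibTHL.Tail
import Pool.Agent.LibTHL.HLc
import Pool.Agent.LibCI99.HL1
import Pool.Agent.LibCI99.HL3
import Pool.Agent.LibBar93.Params

/-! Row H2: the main term. -/

set_option autoImplicit false

namespace Pool.Agent.LibTHL

open Finset MeasureTheory Filter Topology
open Pool.Agent.LibBar93 (sieveLim dens euler)
open Pool.Agent.LibCI99 (cnt hlConst dlt vee prim goodT)

/-! ### summation by parts -/

theorem H2_abel (u F : ℕ → ℝ) (s : ℕ) (K : ℝ) (hF0 : ∀ n, s + 1 ≤ n → 0 ≤ F n)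
    (hF : ∀ n, s + 1 ≤ n → F (n + 1) ≤ F n) (hD : ∀ e, |∑ n ∈ Ioc s e, u n| ≤ K) (e : ℕ) :
    |∑ n ∈ Ioc s e, u n * F n| ≤ K * F (s + 1) := by
  have hK : 0 ≤ K := (abs_nonneg _).trans (hD 0)
  rcases Nat.lt_or_ge s e with he | he
  · have key : |∑ n ∈ Ioc s e, u n * F n - (∑ n ∈ Ioc s e, u n) * F e| ≤ K * (F (s + 1) - F e) := by
      induction e, (show s + 1 ≤ e from he) using Nat.le_induction with
      | base =>
        have h1 : Ioc s (s + 1) = {s + 1} := by
          ext n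
          rw [mem_Ioc, mem_singleton]
          omega
        rw [h1, sum_singleton, sum_singleton, sub_self, abs_zero, sub_self, mul_zero]
      | succ e he' ih =>
        have ih := ih (by omega)
        have h1 : Ioc s (e + 1) = insert (e + 1) (Ioc s e) := by
          ext n
          rw [mem_insert, mem_Ioc, mem_Ioc]
          omega
        have h2 : e + 1 ∉ Ioc s e := by
          rw [mem_Ioc]
          omega
        rw [h1, sum_insert h2, sum_insert h2]
        have h3 : u (e + 1) * F (e + 1) + ∑ n ∈ Ioc s e, u n * F n -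
            (u (e + 1) + ∑ n ∈ Ioc s e, u n) * F (e + 1) =
            (∑ n ∈ Ioc s e, u n * F n - (∑ n ∈ Ioc s e, u n) * F e) +
              (∑ n ∈ Ioc s e, u n) * (F e - F (e + 1)) := by ring
        rw [h3]
        have h4 := hF e he'
        have h5 : |(∑ n ∈ Ioc s e, u n) * (F e - F (e + 1))| ≤ K * (F e - F (e + 1)) := by
          rw [abs_mul, abs_of_nonneg (by linarith : 0 ≤ F e - F (e + 1))]
          exact mul_le_mul_of_nonneg_right (hD e) (by linarith)
        refine (abs_add_le _ _).trans ?_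
        linarith
    have h1 : |(∑ n ∈ Ioc s e, u n) * F e| ≤ K * F e := by
      rw [abs_mul, abs_of_nonneg (hF0 e he)]
      exact mul_le_mul_of_nonneg_right (hD e) (hF0 e he)
    have h2 := abs_add_le (∑ n ∈ Ioc s e, u n * F n - (∑ n ∈ Ioc s e, u n) * F e)
      ((∑ n ∈ Ioc s e, u n) * F e)
    rw [sub_add_cancel] at h2
    linarith
  · rw [Ioc_eq_empty (by omega), sum_empty, abs_zero]
    exact mul_nonneg hK (hF0 _ le_rfl)

/-! ### the discrepancy of the good numbers -/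

open Classical in
theorem H2_dlt_le (q a : ℕ) (hq : 0 < q) (H : Finset ℕ) (T : ℕ) : dlt q a H T ≤ 1 := by
  have h1 := LibCI99.card_good q a hq H T 0 (q * prim T) dvd_rfl
  have h2 : 0 < q * prim T := Nat.mul_pos hq (LibCI99.prim_pos T)
  have h3 : (((Ioc 0 (0 + q * prim T)).filter (goodT q a H T)).card : ℝ) ≤ (q * prim T : ℕ) := by
    have := card_filter_le (Ioc 0 (0 + q * prim T)) (goodT q a H T)
    rw [Nat.card_Ioc] at this
    exact_mod_cast this.trans (by omega)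
  rw [h1] at h3
  have h4 : (0 : ℝ) < (q * prim T : ℕ) := by exact_mod_cast h2
  exact le_of_mul_le_mul_left (by linarith) h4

open Classical in
theorem H2_disc (q a : ℕ) (hq : 0 < q) (H : Finset ℕ) (T s e : ℕ) :
    |∑ n ∈ Ioc s e, ((if goodT q a H T n then (1 : ℝ) else 0) - dlt q a H T)| ≤
      ((q * prim T : ℕ) : ℝ) := by
  set N := q * prim T with hN
  have hN0 : 0 < N := Nat.mul_pos hq (LibCI99.prim_pos T)
  rcases Nat.lt_or_ge s e with he | he
  · set k := (e - s) / N with hk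
    have hr : (e - s) % N < N := Nat.mod_lt _ hN0
    have h0 : e - s = N * k + (e - s) % N := (Nat.div_add_mod _ _).symm
    have hu : Ioc s e = Ioc s (s + N * k) ∪ Ioc (s + N * k) e := by
      rw [Ioc_union_Ioc_eq_Ioc (by omega) (by omega)]
    have hd : Disjoint (Ioc s (s + N * k)) (Ioc (s + N * k) e) := by
      rw [disjoint_left]
      intro n h1 h2
      rw [mem_Ioc] at h1 h2
      omega
    rw [hu, sum_union hd]
    have h1 : ∑ n ∈ Ioc s (s + N * k), ((if goodT q a H T n then (1 : ℝ) else 0) - dlt q a H T) =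
        0 := by
      have h2 := LibCI99.card_good q a hq H T s (N * k) (Dvd.intro _ rfl)
      rw [sum_sub_distrib, sum_const, Nat.card_Ioc, ← sum_filter, sum_const, nsmul_eq_mul,
        mul_one, nsmul_eq_mul, h2]
      have : s + N * k - s = N * k := by omega
      rw [this, sub_self]
    rw [h1, zero_add]
    refine (abs_sum_le_sum_abs _ _).trans ?_
    have h3 : ∀ n ∈ Ioc (s + N * k) e,
        |(if goodT q a H T n then (1 : ℝ) else 0) - dlt q a H T| ≤ 1 := by
      intro n _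
      have h4 := LibCI99.dlt_nonneg q a H T
      have h5 := H2_dlt_le q a hq H T
      rw [abs_le]
      split_ifs <;> constructor <;> linarith
    refine (sum_le_sum h3).trans ?_
    rw [sum_const, Nat.card_Ioc, nsmul_eq_mul, mul_one]
    exact_mod_cast (by omega : e - (s + N * k) ≤ N)
  · rw [Ioc_eq_empty (by omega), sum_empty, abs_zero]
    positivity

/-! ### the smooth function -/

/-- the product of the reciprocal logarithms -/
noncomputable def H2F (H : Finset ℕ) (n : ℕ) : ℝ := ∏ h ∈ H, 1 / Real.log ((n + h : ℕ) : ℝ)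

theorem H2_log_ge {n : ℕ} (hn : 3 ≤ n) : 1 ≤ Real.log (n : ℝ) := by
  have h1 : (3 : ℝ) ≤ n := by exact_mod_cast hn
  rw [Real.le_log_iff_exp_le (by linarith)]
  have := Real.exp_one_lt_d9
  linarith

theorem H2F_nonneg (H : Finset ℕ) {n : ℕ} (hn : 3 ≤ n) : 0 ≤ H2F H n := by
  refine prod_nonneg fun h _ => ?_
  have := H2_log_ge (n := n + h) (by omega)
  positivity

theorem H2F_anti (H : Finset ℕ) {n : ℕ} (hn : 3 ≤ n) : H2F H (n + 1) ≤ H2F H n := by
  refine prod_le_prod (fun h _ => ?_) fun h _ => ?_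
  · have := H2_log_ge (n := n + 1 + h) (by omega)
    positivity
  · have h1 := H2_log_ge (n := n + h) (by omega)
    apply one_div_le_one_div_of_le (by linarith)
    apply Real.log_le_log
    · exact_mod_cast (by omega : 0 < n + h)
    · exact_mod_cast (by omega : n + h ≤ n + 1 + h)

theorem H2F_le_one (H : Finset ℕ) {n : ℕ} (hn : 3 ≤ n) : H2F H n ≤ 1 := by
  refine prod_le_one (fun h _ => ?_) fun h _ => ?_
  · have := H2_log_ge (n := n + h) (by omega)
    positivity
  · have := H2_log_ge (n := n + h) (by omega)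
    rw [div_le_one (by linarith)]
    exact this

/-- the function of the integral -/
noncomputable def H2f (m : ℕ) (t : ℝ) : ℝ := 1 / Real.log t ^ m

theorem H2f_anti (m : ℕ) {s t : ℝ} (hs : 2 ≤ s) (hst : s ≤ t) : H2f m t ≤ H2f m s := by
  have h1 : 0 < Real.log s := Real.log_pos (by linarith)
  unfold H2f
  apply one_div_le_one_div_of_le (by positivity)
  exact pow_le_pow_left₀ h1.le (Real.log_le_log (by linarith) hst) m

theorem H2f_nonneg (m : ℕ) {t : ℝ} (ht : 2 ≤ t) : 0 ≤ H2f m t := by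
  have h1 : 0 < Real.log t := Real.log_pos (by linarith)
  unfold H2f
  positivity

theorem H2F_le_f (H : Finset ℕ) {n : ℕ} (hn : 3 ≤ n) : H2F H n ≤ H2f #H n := by
  unfold H2F H2f
  rw [← one_div_pow, ← prod_const]
  refine prod_le_prod (fun h _ => ?_) fun h _ => ?_
  · have := H2_log_ge (n := n + h) (by omega)
    positivity
  · have h1 := H2_log_ge hn
    apply one_div_le_one_div_of_le (by linarith)
    apply Real.log_le_log
    · exact_mod_cast (by omega : 0 < n)
    · exact_mod_cast (by omega : n ≤ n + h)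

theorem H2f_le_F (H : Finset ℕ) {M n : ℕ} (hM : ∀ h ∈ H, h ≤ M) (hn : 3 ≤ n) :
    H2f #H ((n + M : ℕ) : ℝ) ≤ H2F H n := by
  unfold H2F H2f
  rw [← one_div_pow, ← prod_const]
  refine prod_le_prod (fun h _ => ?_) fun h hh => ?_
  · have := H2_log_ge (n := n + M) (by omega)
    positivity
  · have h1 := H2_log_ge (n := n + h) (by omega)
    apply one_div_le_one_div_of_le (by linarith)
    apply Real.log_le_log
    · exact_mod_cast (by omega : 0 < n + h)
    · have := hM h hh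
      exact_mod_cast (by omega : n + h ≤ n + M)

theorem H2_int (H : Finset ℕ) {M N0 x : ℕ} (hM : ∀ h ∈ H, h ≤ M) (hN : 3 ≤ N0) (hx : N0 ≤ x) :
    |∑ n ∈ Ioc N0 x, H2F H n - ∫ t in (N0 : ℝ)..x, H2f #H t| ≤ M + 1 := by
  have hanti : AntitoneOn (H2f #H) (Set.Icc (N0 : ℝ) x) := by
    intro s hs t _ hst
    have : (3 : ℝ) ≤ N0 := by exact_mod_cast hN
    exact H2f_anti _ (by linarith [hs.1]) hst
  have h1 := hanti.sum_le_integral_Ico hx
  have h2 := hanti.integral_le_sum_Ico hx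
  have hIoc : Ioc N0 x = (Ico N0 x).image (· + 1) := by
    rw [image_add_right_Ico]
    ext n
    rw [mem_Ioc, mem_Ico]
    omega
  have hs : ∀ g : ℕ → ℝ, ∑ n ∈ Ioc N0 x, g n = ∑ n ∈ Ico N0 x, g (n + 1) := by
    intro g
    rw [hIoc, sum_image fun _ _ _ _ h => Nat.succ_injective h]
  rw [hs]
  have h3 : ∑ n ∈ Ico N0 x, H2F H (n + 1) ≤ ∑ n ∈ Ico N0 x, H2f #H ((n + 1 : ℕ) : ℝ) := by
    refine sum_le_sum fun n hn => ?_
    rw [mem_Ico] at hn
    exact H2F_le_f H (by omega)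
  have h4 : ∑ n ∈ Ico N0 x, H2f #H ((n + (M + 1) : ℕ) : ℝ) ≤ ∑ n ∈ Ico N0 x, H2F H (n + 1) := by
    refine sum_le_sum fun n hn => ?_
    rw [mem_Ico] at hn
    have := H2f_le_F H (n := n + 1) hM (by omega)
    rwa [show n + 1 + M = n + (M + 1) by ring] at this
  have h5 : ∀ i : ℕ, ∑ n ∈ Ico N0 x, H2f #H (n : ℝ) ≤
      ∑ n ∈ Ico N0 x, H2f #H ((n + i : ℕ) : ℝ) + i := by
    intro i
    induction i with
    | zero => simp
    | succ i ih =>
      have h6 : ∑ n ∈ Ico N0 x, H2f #H ((n + i : ℕ) : ℝ) -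
          ∑ n ∈ Ico N0 x, H2f #H ((n + (i + 1) : ℕ) : ℝ) =
          H2f #H ((N0 + i : ℕ) : ℝ) - H2f #H ((x + i : ℕ) : ℝ) := by
        rw [← sum_sub_distrib]
        have := Finset.sum_Ico_sub (fun n : ℕ => H2f #H ((n + i : ℕ) : ℝ)) hx
        have h7 : ∑ n ∈ Ico N0 x, (H2f #H ((n + i : ℕ) : ℝ) - H2f #H ((n + (i + 1) : ℕ) : ℝ)) =
            -∑ n ∈ Ico N0 x, (H2f #H ((n + 1 + i : ℕ) : ℝ) - H2f #H ((n + i : ℕ) : ℝ)) := by
          rw [← sum_neg_distrib]
          refine sum_congr rfl fun n _ => ?_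
          rw [show n + 1 + i = n + (i + 1) by ring]
          ring
        rw [h7, this]
        ring
      have h8 : H2f #H ((N0 + i : ℕ) : ℝ) ≤ 1 := by
        have h9 := H2_log_ge (n := N0 + i) (by omega)
        unfold H2f
        rw [div_le_one (by positivity)]
        exact one_le_pow₀ h9
      have h9 : 0 ≤ H2f #H ((x + i : ℕ) : ℝ) := H2f_nonneg _ (by exact_mod_cast (by omega : 2 ≤ x + i))
      push_cast at *
      linarith
  have h6 := h5 (M + 1)
  push_cast at h1 h2 h3 h4 h6 ⊢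
  rw [abs_le]
  constructor <;> linarith

/-! ### one level -/

open Classical in
/-- the summand -/
noncomputable def H2g (H : Finset ℕ) (q a n : ℕ) : ℝ :=
  if n ≡ a [MOD q] then tailF (sieveLim n) #H * ∏ h ∈ H, dens (n + h) else 0

theorem H2_sieve (n : ℕ) : sieveLim n = TL (Nat.log 2 n) := rfl

open Classical in
theorem H2g_eq (H : Finset ℕ) (q a : ℕ) {M j n : ℕ} (hM : ∀ h ∈ H, h ≤ M) (hj : 3 ≤ j)
    (h1 : 2 ^ j ≤ n) (h2 : n + M < 2 ^ (j + 1)) :
    H2g H q a n = (tailF (TL j) #H / vee (TL j) ^ #H) *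
      ((if goodT q a H (TL j) n then (1 : ℝ) else 0) * H2F H n) := by
  have hlog : ∀ h ∈ H, Nat.log 2 (n + h) = j := by
    intro h hh
    have := hM h hh
    rw [Nat.log_eq_iff (by omega)]
    constructor
    · omega
    · omega
  have hlog0 : Nat.log 2 n = j := by
    rw [Nat.log_eq_iff (by omega)]
    constructor
    · omega
    · omega
  have h8 : 8 ≤ n := by
    have : 2 ^ 3 ≤ 2 ^ j := Nat.pow_le_pow_right (by norm_num) hj
    omega
  unfold H2g
  by_cases ha : n ≡ a [MOD q]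
  · rw [if_pos ha, H2_sieve, hlog0]
    by_cases hc : ∀ h ∈ H, Nat.Coprime (n + h) (prim (TL j))
    · rw [if_pos (show goodT q a H (TL j) n from ⟨ha, hc⟩), one_mul]
      have h3 : ∏ h ∈ H, dens (n + h) = (vee (TL j) ^ #H)⁻¹ * H2F H n := by
        unfold H2F
        rw [← inv_pow, ← prod_const, ← prod_mul_distrib]
        refine prod_congr rfl fun h hh => ?_
        unfold LibBar93.dens
        rw [H2_sieve, hlog h hh, if_pos ⟨by omega, hc h hh⟩, div_eq_mul_one_div]
        rfl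
      rw [h3]
      ring
    · rw [if_neg (fun hg : goodT q a H (TL j) n => hc hg.2), zero_mul, mul_zero]
      push Not at hc
      obtain ⟨h, hh, hc⟩ := hc
      have : dens (n + h) = 0 := by
        unfold LibBar93.dens
        rw [H2_sieve, hlog h hh, if_neg]
        exact fun h' => hc h'.2
      rw [prod_eq_zero hh this, mul_zero]
  · rw [if_neg ha, if_neg (fun hg : goodT q a H (TL j) n => ha hg.1), zero_mul, mul_zero]

theorem H2g_abs (H : Finset ℕ) (q a n : ℕ) (hT : |tailF (sieveLim n) #H| ≤ 1) :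
    |H2g H q a n| ≤ 1 := by
  unfold H2g
  split_ifs
  · rw [abs_mul, abs_prod]
    have h1 : ∏ h ∈ H, |dens (n + h)| ≤ 1 := by
      refine prod_le_one (fun h _ => abs_nonneg _) fun h _ => ?_
      rw [abs_of_nonneg (LibBar93.weight_dens.nonneg _)]
      exact LibBar93.weight_dens.le_one _
    exact mul_le_one₀ hT (prod_nonneg fun h _ => abs_nonneg _) h1
  · rw [abs_zero]
    exact zero_le_one

theorem H2_TL_pow (j : ℕ) (hj : 1 ≤ j) : 16 ^ TL j ≤ j := by
  have h1 : 4 * TL j ≤ Nat.log 2 j := by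
    unfold TL
    omega
  calc 16 ^ TL j = 2 ^ (4 * TL j) := by rw [pow_mul]; norm_num
    _ ≤ 2 ^ Nat.log 2 j := Nat.pow_le_pow_right (by norm_num) h1
    _ ≤ j := Nat.pow_log_le_self 2 (by omega)

theorem H2_kappa (H : Finset ℕ) (T : ℕ) (h0 : 0 ≤ tailF T #H) (h1 : tailF T #H ≤ 1) :
    0 ≤ tailF T #H / vee T ^ #H ∧
    tailF T #H / vee T ^ #H ≤ (Nat.factorial #H : ℝ) * 3 * 4 ^ T := by
  have hv := LibCI99.vee_pos T
  refine ⟨by positivity, ?_⟩
  have h2 := LibCI99.vee_lower T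
  have h3 : tailF T #H / vee T ^ #H ≤ ((T : ℝ) + 1) ^ #H := by
    rw [div_le_iff₀ (by positivity)]
    have h4 : (1 : ℝ) ≤ ((T : ℝ) + 1) ^ #H * vee T ^ #H := by
      rw [← mul_pow]
      apply one_le_pow₀
      rw [div_le_iff₀ (by positivity)] at h2
      linarith
    linarith
  have h5 := Real.pow_div_factorial_le_exp ((T : ℝ) + 1) (by positivity) #H
  rw [div_le_iff₀ (by positivity)] at h5
  have h6 : Real.exp ((T : ℝ) + 1) ≤ 3 * 4 ^ T := by
    rw [Real.exp_add, mul_comm]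
    have h7 : Real.exp 1 ≤ 3 := by
      have := Real.exp_one_lt_d9
      linarith
    have h8 : Real.exp (T : ℝ) ≤ 4 ^ T := by
      rw [← mul_one (T : ℝ), Real.exp_nat_mul]
      exact pow_le_pow_left₀ (Real.exp_pos _).le (by linarith) T
    exact mul_le_mul h7 h8 (Real.exp_pos _).le (by norm_num)
  calc tailF T #H / vee T ^ #H ≤ ((T : ℝ) + 1) ^ #H := h3
    _ ≤ Real.exp ((T : ℝ) + 1) * Nat.factorial #H := h5
    _ ≤ (3 * 4 ^ T) * Nat.factorial #H := mul_le_mul_of_nonneg_right h6 (by positivity)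
    _ = _ := by ring

open Classical in
/-- one level -/
theorem H2_level (H : Finset ℕ) (q a : ℕ) (hq : 0 < q) {M j e : ℕ} (hM : ∀ h ∈ H, h ≤ M)
    (hj : 3 ≤ j) (hqT : q ≤ TL j) (hMT : M ≤ TL j) (hmT : #H ^ 2 ≤ TL j)
    (h2 : e < 2 ^ (j + 1)) :
    |∑ n ∈ Ioc (2 ^ j - 1) e, (H2g H q a n - hlConst q a H * H2F H n)| ≤
      (M * (1 + (Nat.factorial #H : ℝ) * 3) + (Nat.factorial #H : ℝ) * 3 * q) * j := by
  set T := TL j with hT
  set m := #H with hm
  have hT0 : 0 < T := by omega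
  have hmT' : m ≤ T := le_trans (by nlinarith [Nat.zero_le m]) hmT
  have ht1 : tailF T m ≤ 1 := tailF_le_one T m hmT'
  have ht0 : 0 ≤ tailF T m := by
    have h3 := le_tailF T m hmT' hT0
    have h4 : (m : ℝ) ^ 2 / T ≤ 1 := by
      rw [div_le_one (by exact_mod_cast hT0)]
      exact_mod_cast hmT
    linarith
  obtain ⟨hκ0, hκ1⟩ := H2_kappa H T ht0 ht1
  set κ := tailF T m / vee T ^ m with hκ
  have hc : hlConst q a H = κ * dlt q a H T := by
    rw [hlConst_eq H q a hq T hqT (fun h hh => (hM h hh).trans hMT), hκ]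
    ring
  have hpow8 : 8 ≤ 2 ^ j := by
    calc 8 = 2 ^ 3 := by norm_num
      _ ≤ 2 ^ j := Nat.pow_le_pow_right (by norm_num) hj
  have hmem : ∀ n ∈ Ioc (2 ^ j - 1) e, 2 ^ j ≤ n ∧ n < 2 ^ (j + 1) := by
    intro n hn
    rw [mem_Ioc] at hn
    omega
  -- splitting
  have hsplit : ∀ n, H2g H q a n - hlConst q a H * H2F H n =
      (H2g H q a n - κ * ((if goodT q a H T n then (1 : ℝ) else 0) * H2F H n)) +
      κ * (((if goodT q a H T n then (1 : ℝ) else 0) - dlt q a H T) * H2F H n) := by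
    intro n
    rw [hc]
    ring
  rw [sum_congr rfl fun n _ => hsplit n, sum_add_distrib, ← mul_sum]
  -- the boundary terms
  have hb : |∑ n ∈ Ioc (2 ^ j - 1) e, (H2g H q a n -
      κ * ((if goodT q a H T n then (1 : ℝ) else 0) * H2F H n))| ≤ M * (1 + κ) := by
    refine (abs_sum_le_sum_abs _ _).trans ?_
    have h3 : ∀ n ∈ Ioc (2 ^ j - 1) e, |H2g H q a n -
        κ * ((if goodT q a H T n then (1 : ℝ) else 0) * H2F H n)| ≤
        if 2 ^ (j + 1) ≤ n + M then 1 + κ else 0 := by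
      intro n hn
      obtain ⟨h4, h5⟩ := hmem n hn
      by_cases h6 : 2 ^ (j + 1) ≤ n + M
      · rw [if_pos h6]
        have hlog0 : Nat.log 2 n = j := by
          rw [Nat.log_eq_iff (by omega)]
          omega
        have h7 := H2g_abs H q a n (by
          rw [H2_sieve, hlog0, abs_of_nonneg ht0]
          exact ht1)
        have h8 : |κ * ((if goodT q a H T n then (1 : ℝ) else 0) * H2F H n)| ≤ κ := by
          have h9 := H2F_nonneg H (n := n) (by omega)
          have h10 := H2F_le_one H (n := n) (by omega)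
          rw [abs_mul, abs_of_nonneg hκ0]
          have h11 : |(if goodT q a H T n then (1 : ℝ) else 0) * H2F H n| ≤ 1 := by
            split_ifs
            · rw [one_mul, abs_of_nonneg h9]
              exact h10
            · rw [zero_mul, abs_zero]
              exact zero_le_one
          nlinarith
        exact (abs_sub _ _).trans (add_le_add h7 h8)
      · rw [if_neg h6, H2g_eq H q a hM hj h4 (by omega), sub_self, abs_zero]
    refine (sum_le_sum h3).trans ?_
    rw [← sum_filter, sum_const, nsmul_eq_mul]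
    refine mul_le_mul_of_nonneg_right ?_ (by linarith)
    have h4 : #({n ∈ Ioc (2 ^ j - 1) e | 2 ^ (j + 1) ≤ n + M}) ≤ M := by
      refine (card_le_card (t := Ico (2 ^ (j + 1) - M) (2 ^ (j + 1))) fun n hn => ?_).trans ?_
      · rw [mem_filter] at hn
        have := hmem n hn.1
        rw [mem_Ico]
        omega
      · rw [Nat.card_Ico]
        omega
    exact_mod_cast h4
  -- the main part
  have hmain : |∑ n ∈ Ioc (2 ^ j - 1) e,
      ((if goodT q a H T n then (1 : ℝ) else 0) - dlt q a H T) * H2F H n| ≤ q * 4 ^ T := by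
    have h3 := H2_abel (fun n => (if goodT q a H T n then (1 : ℝ) else 0) - dlt q a H T) (H2F H)
      (2 ^ j - 1) ((q * prim T : ℕ) : ℝ) (fun n hn => H2F_nonneg H (by omega))
      (fun n hn => H2F_anti H (by omega)) (fun e => H2_disc q a hq H T _ e) e
    refine h3.trans ?_
    have h4 := H2F_le_one H (n := 2 ^ j - 1 + 1) (by omega)
    have h5 : ((q * prim T : ℕ) : ℝ) ≤ q * 4 ^ T := by
      have := Nat.mul_le_mul_left q (LibCI99.prim_le T)
      exact_mod_cast this
    calc ((q * prim T : ℕ) : ℝ) * H2F H (2 ^ j - 1 + 1) ≤ ((q * prim T : ℕ) : ℝ) * 1 :=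
          mul_le_mul_of_nonneg_left h4 (by positivity)
      _ ≤ _ := by rw [mul_one]; exact h5
  refine (abs_add_le _ _).trans ?_
  rw [abs_mul, abs_of_nonneg hκ0]
  have h16 : (4 : ℝ) ^ T * 4 ^ T ≤ j := by
    rw [← mul_pow]
    norm_num
    exact_mod_cast H2_TL_pow j (by omega)
  have h1T : (1 : ℝ) ≤ 4 ^ T := one_le_pow₀ (by norm_num)
  have h4T : (4 : ℝ) ^ T ≤ j := by nlinarith
  have hj1 : (1 : ℝ) ≤ j := by linarith
  have hf : (0 : ℝ) ≤ (Nat.factorial m : ℝ) * 3 := by positivity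
  have e1 : κ ≤ (Nat.factorial m : ℝ) * 3 * j :=
    hκ1.trans (mul_le_mul_of_nonneg_left h4T hf)
  have e2 : κ * (q * 4 ^ T) ≤ (Nat.factorial m : ℝ) * 3 * q * j := by
    calc κ * (q * 4 ^ T) ≤ ((Nat.factorial m : ℝ) * 3 * 4 ^ T) * (q * 4 ^ T) :=
          mul_le_mul_of_nonneg_right hκ1 (by positivity)
      _ = (Nat.factorial m : ℝ) * 3 * q * (4 ^ T * 4 ^ T) := by ring
      _ ≤ _ := mul_le_mul_of_nonneg_left h16 (by positivity)
  have e3 : κ * |∑ n ∈ Ioc (2 ^ j - 1) e,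
      ((if goodT q a H T n then (1 : ℝ) else 0) - dlt q a H T) * H2F H n| ≤ κ * (q * 4 ^ T) :=
    mul_le_mul_of_nonneg_left hmain hκ0
  have hM0 : (0 : ℝ) ≤ M := Nat.cast_nonneg M
  have e4 : (M : ℝ) * (1 + κ) ≤ M * (1 + (Nat.factorial m : ℝ) * 3) * j := by
    rw [mul_assoc]
    apply mul_le_mul_of_nonneg_left _ hM0
    nlinarith
  calc _ ≤ (M : ℝ) * (1 + κ) + κ * (q * 4 ^ T) := add_le_add hb e3
    _ ≤ M * (1 + (Nat.factorial m : ℝ) * 3) * j + (Nat.factorial m : ℝ) * 3 * q * j :=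
      add_le_add e4 e2
    _ = _ := by ring

theorem H2_levels {u : ℕ → ℝ} {K : ℝ} (hK : 0 ≤ K) {j0 : ℕ} (hj0 : 1 ≤ j0)
    (h : ∀ j, j0 ≤ j → ∀ e, e < 2 ^ (j + 1) → |∑ n ∈ Ioc (2 ^ j - 1) e, u n| ≤ K * j) (j : ℕ)
    (hj : j0 ≤ j) : |∑ n ∈ Ioc (2 ^ j0 - 1) (2 ^ j - 1), u n| ≤ K * j ^ 2 := by
  induction j, hj using Nat.le_induction with
  | base =>
    rw [Ioc_self, sum_empty, abs_zero]
    positivity
  | succ j hj ih =>
    have h1 : 2 ^ j0 ≤ 2 ^ j := Nat.pow_le_pow_right (by norm_num) hj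
    have h2 : 2 ^ j ≤ 2 ^ (j + 1) := Nat.pow_le_pow_right (by norm_num) (by omega)
    have h3 : 0 < 2 ^ j0 := by positivity
    have hu : Ioc (2 ^ j0 - 1) (2 ^ (j + 1) - 1) =
        Ioc (2 ^ j0 - 1) (2 ^ j - 1) ∪ Ioc (2 ^ j - 1) (2 ^ (j + 1) - 1) := by
      rw [Ioc_union_Ioc_eq_Ioc (by omega) (by omega)]
    have hd : Disjoint (Ioc (2 ^ j0 - 1) (2 ^ j - 1)) (Ioc (2 ^ j - 1) (2 ^ (j + 1) - 1)) := by
      rw [disjoint_left]
      intro n h1 h2
      rw [mem_Ioc] at h1 h2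
      omega
    rw [hu, sum_union hd]
    have h4 := h j hj (2 ^ (j + 1) - 1) (by omega)
    refine (abs_add_le _ _).trans ?_
    push_cast
    have h5 : (0 : ℝ) ≤ j := Nat.cast_nonneg j
    nlinarith

theorem H2_logsq {x : ℕ} (hx : 1 ≤ x) : ((Nat.log 2 x : ℕ) : ℝ) ^ 2 ≤ 64 * √x := by
  have h1 := (LibBar93.log_bounds hx).1
  have h2 : (1 : ℝ) / 2 ≤ Real.log 2 := by
    have := Real.log_two_gt_d9
    linarith
  have hx1 : (1 : ℝ) ≤ x := by exact_mod_cast hx
  have h3 : (0 : ℝ) ≤ (Nat.log 2 x : ℕ) := Nat.cast_nonneg _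
  have h4 : ((Nat.log 2 x : ℕ) : ℝ) ≤ 2 * Real.log x := by nlinarith
  have h5 : Real.log x ≤ 4 * √√x := by
    have h6 : Real.log √√x = Real.log x / 4 := by
      rw [Real.log_sqrt (Real.sqrt_nonneg _), Real.log_sqrt (by linarith)]
      ring
    have h7 := Real.log_le_self (Real.sqrt_nonneg √(x : ℝ))
    linarith
  have h8 : √√(x : ℝ) ^ 2 = √x := Real.sq_sqrt (Real.sqrt_nonneg _)
  have h9 : (0 : ℝ) ≤ √√x := Real.sqrt_nonneg _
  calc ((Nat.log 2 x : ℕ) : ℝ) ^ 2 ≤ (8 * √√x) ^ 2 := pow_le_pow_left₀ h3 (by linarith) 2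
    _ = 64 * √x := by rw [mul_pow, h8]; norm_num

theorem H2f_intble (m : ℕ) {a b : ℝ} (ha : 2 ≤ a) (hb : 2 ≤ b) :
    IntervalIntegrable (H2f m) volume a b := by
  apply ContinuousOn.intervalIntegrable
  intro t ht
  have h2 : 2 ≤ t := by
    rcases Set.mem_uIcc.1 ht with h | h
    · linarith [h.1]
    · linarith [h.1]
  have h1 : 0 < Real.log t := Real.log_pos (by linarith)
  apply ContinuousAt.continuousWithinAt
  unfold H2f
  apply ContinuousAt.div continuousAt_const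
  · exact (Real.continuousAt_log (by linarith)).pow m
  · positivity

/-- H2: the main term. -/
theorem main_term (H : Finset ℕ) (q a : ℕ) (hq : 0 < q) : ∃ C : ℝ, ∀ x : ℕ, 2 ≤ x →
    |∑ n ∈ Icc 1 x with n ≡ a [MOD q], tailF (sieveLim n) #H * ∏ h ∈ H, dens (n + h) -
      hlConst q a H * ∫ t in (2 : ℝ)..x, 1 / Real.log t ^ #H| ≤ C * √x := by
  classical
  set V : ℕ → ℝ := fun x => ∑ n ∈ Icc 1 x with n ≡ a [MOD q],
    tailF (sieveLim n) #H * ∏ h ∈ H, dens (n + h) -
      hlConst q a H * ∫ t in (2 : ℝ)..x, 1 / Real.log t ^ #H with hV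
  set M := H.sup id with hMdef
  have hM : ∀ h ∈ H, h ≤ M := fun h hh => Finset.le_sup (f := id) hh
  set R := q + M + #H ^ 2 + 1 with hR
  obtain ⟨j0, hj03, hTL⟩ : ∃ j0 : ℕ, 3 ≤ j0 ∧ ∀ j, j0 ≤ j → R ≤ TL j := by
    refine ⟨2 ^ (4 * R), ?_, fun j hj => ?_⟩
    · calc 3 ≤ 2 ^ 4 := by norm_num
        _ ≤ 2 ^ (4 * R) := Nat.pow_le_pow_right (by norm_num) (by omega)
    · unfold TL
      have h1 : 4 * R ≤ Nat.log 2 j := by
        rw [← Nat.log_pow (b := 2) (by norm_num) (4 * R)]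
        exact Nat.log_mono_right hj
      omega
  set K : ℝ := M * (1 + (Nat.factorial #H : ℝ) * 3) + (Nat.factorial #H : ℝ) * 3 * q with hK
  have hK0 : 0 ≤ K := by positivity
  have hlev : ∀ j, j0 ≤ j → ∀ e, e < 2 ^ (j + 1) →
      |∑ n ∈ Ioc (2 ^ j - 1) e, (H2g H q a n - hlConst q a H * H2F H n)| ≤ K * j := by
    intro j hj e he
    have := hTL j hj
    exact H2_level H q a hq hM (by omega) (by omega) (by omega) (by omega) he
  set N0 := 2 ^ j0 - 1 with hN0
  have hN0' : 2 ^ 3 ≤ 2 ^ j0 := Nat.pow_le_pow_right (by norm_num) hj03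
  set c := hlConst q a H with hc
  refine ⟨∑ y ∈ range (2 ^ j0), |V y| + (|∑ n ∈ Ioc 0 N0, H2g H q a n| + 128 * K + |c| * (M + 1) +
    |c * ∫ t in (2 : ℝ)..(N0 : ℝ), H2f #H t|), fun x hx => ?_⟩
  change |V x| ≤ _
  have hsx : 1 ≤ √(x : ℝ) := by
    rw [Real.one_le_sqrt]
    exact_mod_cast (by omega : 1 ≤ x)
  have hA : 0 ≤ ∑ y ∈ range (2 ^ j0), |V y| := sum_nonneg fun y _ => abs_nonneg _
  set B : ℝ := |∑ n ∈ Ioc 0 N0, H2g H q a n| + 128 * K + |c| * (M + 1) +
    |c * ∫ t in (2 : ℝ)..(N0 : ℝ), H2f #H t| with hB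
  have hB0 : 0 ≤ B := by positivity
  rcases Nat.lt_or_ge x (2 ^ j0) with hxs | hxl
  · have h1 : |V x| ≤ ∑ y ∈ range (2 ^ j0), |V y| :=
      single_le_sum (f := fun y => |V y|) (fun y _ => abs_nonneg _) (mem_range.2 hxs)
    nlinarith
  · have hNx : N0 ≤ x := by omega
    have h1 : ∑ n ∈ Icc 1 x with n ≡ a [MOD q], tailF (sieveLim n) #H * ∏ h ∈ H, dens (n + h) =
        ∑ n ∈ Ioc 0 N0, H2g H q a n + ∑ n ∈ Ioc N0 x, H2g H q a n := by
      have hu : Icc 1 x = Ioc 0 N0 ∪ Ioc N0 x := by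
        rw [Ioc_union_Ioc_eq_Ioc (by omega) hNx]
        rfl
      have hd : Disjoint (Ioc 0 N0) (Ioc N0 x) := by
        rw [disjoint_left]
        intro n h1 h2
        rw [mem_Ioc] at h1 h2
        omega
      rw [sum_filter, hu, sum_union hd]
      rfl
    have h2 : ∫ t in (2 : ℝ)..x, 1 / Real.log t ^ #H =
        (∫ t in (2 : ℝ)..(N0 : ℝ), H2f #H t) + ∫ t in (N0 : ℝ)..x, H2f #H t := by
      rw [intervalIntegral.integral_add_adjacent_intervals]
      · rfl
      · exact H2f_intble _ le_rfl (by exact_mod_cast (by omega : 2 ≤ N0))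
      · exact H2f_intble _ (by exact_mod_cast (by omega : 2 ≤ N0)) (by exact_mod_cast hx)
    have h3 : V x = ∑ n ∈ Ioc 0 N0, H2g H q a n +
        ∑ n ∈ Ioc N0 x, (H2g H q a n - c * H2F H n) +
        c * (∑ n ∈ Ioc N0 x, H2F H n - ∫ t in (N0 : ℝ)..x, H2f #H t) -
        c * ∫ t in (2 : ℝ)..(N0 : ℝ), H2f #H t := by
      simp only [hV]
      rw [h1, h2, sum_sub_distrib, ← mul_sum]
      ring
    -- the levels
    have h4 : |∑ n ∈ Ioc N0 x, (H2g H q a n - c * H2F H n)| ≤ 128 * K * √x := by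
      set J := Nat.log 2 x with hJ
      have hJ0 : j0 ≤ J := by
        rw [← Nat.log_pow (b := 2) (by norm_num) j0]
        exact Nat.log_mono_right hxl
      have h5 : 2 ^ J ≤ x := Nat.pow_log_le_self 2 (by omega)
      have h6 : x < 2 ^ (J + 1) := Nat.lt_pow_succ_log_self (by norm_num) x
      have h7 : 2 ^ j0 ≤ 2 ^ J := Nat.pow_le_pow_right (by norm_num) hJ0
      have hu : Ioc N0 x = Ioc (2 ^ j0 - 1) (2 ^ J - 1) ∪ Ioc (2 ^ J - 1) x := by
        rw [Ioc_union_Ioc_eq_Ioc (by omega) (by omega)]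
      have hd : Disjoint (Ioc (2 ^ j0 - 1) (2 ^ J - 1)) (Ioc (2 ^ J - 1) x) := by
        rw [disjoint_left]
        intro n h1 h2
        rw [mem_Ioc] at h1 h2
        omega
      rw [hu, sum_union hd]
      have h8 := H2_levels hK0 (by omega) hlev J hJ0
      have h9 := hlev J hJ0 x h6
      have h10 := H2_logsq (x := x) (by omega)
      rw [← hJ] at h10
      have h11 : (1 : ℝ) ≤ J := by exact_mod_cast (by omega : 1 ≤ J)
      refine (abs_add_le _ _).trans ?_
      have h12 : K * (J : ℝ) ^ 2 + K * J ≤ 128 * K * √x := by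
        have h13 : (J : ℝ) ^ 2 + J ≤ 128 * √x := by nlinarith
        calc K * (J : ℝ) ^ 2 + K * J = K * ((J : ℝ) ^ 2 + J) := by ring
          _ ≤ K * (128 * √x) := mul_le_mul_of_nonneg_left h13 hK0
          _ = _ := by ring
      linarith
    have h5 := H2_int H hM (by omega : 3 ≤ N0) hNx
    have h6 : |c * (∑ n ∈ Ioc N0 x, H2F H n - ∫ t in (N0 : ℝ)..x, H2f #H t)| ≤ |c| * (M + 1) := by
      rw [abs_mul]
      exact mul_le_mul_of_nonneg_left h5 (abs_nonneg _)
    rw [h3]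
    refine (abs_sub _ _).trans ?_
    have h7 := abs_add_three (∑ n ∈ Ioc 0 N0, H2g H q a n)
      (∑ n ∈ Ioc N0 x, (H2g H q a n - c * H2F H n))
      (c * (∑ n ∈ Ioc N0 x, H2F H n - ∫ t in (N0 : ℝ)..x, H2f #H t))
    have h8 : |∑ n ∈ Ioc 0 N0, H2g H q a n| + |c| * (M + 1) +
        |c * ∫ t in (2 : ℝ)..(N0 : ℝ), H2f #H t| ≤
        (|∑ n ∈ Ioc 0 N0, H2g H q a n| + |c| * (M + 1) +
        |c * ∫ t in (2 : ℝ)..(N0 : ℝ), H2f #H t|) * √x :=
      le_mul_of_one_le_right (by positivity) hsx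
    have h9 : 0 ≤ (∑ y ∈ range (2 ^ j0), |V y|) * √x := by positivity
    rw [hB]
    nlinarith

end Pool.Agent.LibTHL
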