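import Pool.Agent.LibTHL.Moeb

set_option autoImplicit false

namespace Pool.Agent.LibTHL

open Finset MeasureTheory ProbabilityTheory Filter Topology
open Pool.Agent.LibBar93 (sieveLim dens euler)
open Pool.Agent.LibCI99 (cnt hlConst dlt vee prim)
open scoped ENNReal

/-- L5: the interaction. -/
theorem gg_incl (S : Finset ℕ) (θ : ℕ → ℝ) (k : ℕ) (s : ℕ → ℝ) (w : Finset ℕ → ℝ)
    (hw : ∀ ω ∈ S.powerset, 0 < w ω) (m : ℕ) (F : Finset ℕ) (hF : F ⊆ S) (hk : #F ≤ k) :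
    ∑ ζ ∈ S.powerset with F ⊆ ζ, w ζ * gg S θ k s w m ζ =
      (s (m + #F) - s m * s #F) * ∏ n ∈ F, θ n := by
  have h := mb_incl S θ k (fun F => s (m + #F) - s m * s #F) F hF
  rw [if_pos hk] at h
  rw [← h]
  refine Finset.sum_congr rfl fun ζ hζ => ?_
  rw [Finset.mem_filter] at hζ
  unfold gg
  exact mul_div_cancel₀ _ (hw ζ hζ.1).ne'

/-- L6. -/
theorem gg_abs (S : Finset ℕ) (θ : ℕ → ℝ) (h0 : ∀ n ∈ S, 0 < θ n) (h1 : ∀ n ∈ S, θ n < 1)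
    (k : ℕ) (s : ℕ → ℝ) (w : Finset ℕ → ℝ)
    (hw : ∀ ω ∈ S.powerset, 1 / 2 * ((∏ n ∈ ω, θ n) * ∏ n ∈ S, (1 - θ n)) ≤ w ω) (m : ℕ)
    (ε : ℝ) (hε : 0 ≤ ε) (hε1 : ε ≤ 1) (hs : ∀ i, i ≤ m + k → 1 - ε ≤ s i ∧ s i ≤ 1) (Λ : ℝ)
    (hΛ : ∏ n ∈ S, (1 + θ n) ≤ Λ * ∏ n ∈ S, (1 - θ n)) (ζ : Finset ℕ) (hζ : ζ ⊆ S) :
    |gg S θ k s w m ζ| ≤ 4 * ε * Λ := by
  have hP : 0 < ∏ n ∈ S, (1 - θ n) := Finset.prod_pos fun n hn => by linarith [h1 n hn]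
  have hQ : 0 < ∏ n ∈ S, (1 + θ n) := Finset.prod_pos fun n hn => by linarith [h0 n hn]
  have hR : 0 < ∏ n ∈ ζ, θ n := Finset.prod_pos fun n hn => h0 n (hζ hn)
  have hΛ0 : 0 ≤ Λ := by
    by_contra hneg
    have : Λ * ∏ n ∈ S, (1 - θ n) < 0 := mul_neg_of_neg_of_pos (not_le.1 hneg) hP
    linarith
  have hδ : ∀ F ⊆ S, #F ≤ k → |(fun F : Finset ℕ => s (m + #F) - s m * s #F) F| ≤ 2 * ε := by
    intro F _ hk
    obtain ⟨a1, a2⟩ := hs (m + #F) (by omega)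
    obtain ⟨b1, b2⟩ := hs m (by omega)
    obtain ⟨c1, c2⟩ := hs #F (by omega)
    have e0 : 0 ≤ 1 - ε := by linarith
    have e1 : (1 - ε) * (1 - ε) ≤ s m * s #F := mul_le_mul b1 c1 e0 (e0.trans b1)
    have e2 : s m * s #F ≤ 1 := mul_le_one₀ b2 (e0.trans c1) c2
    simp only
    rw [abs_le]
    constructor
    · linarith
    · nlinarith
  have hmb := mb_abs S θ (fun n hn => (h0 n hn).le) k (fun F => s (m + #F) - s m * s #F) (2 * ε)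
    hδ (by linarith) ζ hζ
  have hwζ := hw ζ (Finset.mem_powerset.2 hζ)
  have hw0 : 0 < w ζ := lt_of_lt_of_le (by positivity) hwζ
  unfold gg
  rw [abs_div, abs_of_pos hw0, div_le_iff₀ hw0]
  have e1 : 2 * ε * (∏ n ∈ ζ, θ n) * ∏ n ∈ S, (1 + θ n)
      ≤ 2 * ε * (∏ n ∈ ζ, θ n) * (Λ * ∏ n ∈ S, (1 - θ n)) :=
    mul_le_mul_of_nonneg_left hΛ (by positivity)
  have e2 : 4 * ε * Λ * (1 / 2 * ((∏ n ∈ ζ, θ n) * ∏ n ∈ S, (1 - θ n))) ≤ 4 * ε * Λ * w ζ :=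
    mul_le_mul_of_nonneg_left hwζ (by positivity)
  refine hmb.trans (e1.trans (le_trans (le_of_eq ?_) e2))
  ring

end Pool.Agent.LibTHL
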