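import Pool.Agent.LibTHL.Moeb
import Pool.Agent.LibBar93.Block

set_option autoImplicit false

namespace Pool.Agent.LibTHL

open Finset MeasureTheory ProbabilityTheory Filter Topology
open Pool.Agent.LibBar93 (sieveLim dens euler pw)
open Pool.Agent.LibCI99 (cnt hlConst dlt vee prim)
open scoped ENNReal

/-- the normalised correction at the empty set -/
theorem L4_cor_empty (S : Finset ℕ) (k : ℕ) : LibBar93.cor S (fun _ => 0) k ∅ = -1 := by
  unfold LibBar93.cor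
  have : ∀ i ∈ range (k + 1), (if (∅ : Finset ℕ).card = k + 1 + i then
      LibBar93.cw k i / (S.card.choose (k + 1 + i) : ℝ) else 0) = 0 := by
    intro i _
    rw [if_neg]
    simp only [Finset.card_empty]
    omega
  rw [Finset.sum_eq_zero this]
  simp

/-- the normalised correction at a nonempty set -/
theorem L4_cor_ge (S : Finset ℕ) (k : ℕ) (τ : ℝ) (hτ : 0 < τ)
    (hcard : 2 * (2 * k + 1) ≤ #S) (hbig : 16 * (2 * (k : ℝ) + 1) ≤ τ * #S) (ω : Finset ℕ)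
    (hω : ω ⊆ S) (hne : ω ≠ ∅) : -(1 / 3 * τ ^ #ω) ≤ LibBar93.cor S (fun _ => 0) k ω := by
  by_cases hex : ∃ i ∈ range (k + 1), ω.card = k + 1 + i
  · obtain ⟨i, hi, hci⟩ := hex
    have hik : i ≤ k := by
      rw [Finset.mem_range] at hi
      omega
    have e : LibBar93.cor S (fun _ => 0) k ω
        = LibBar93.cw k i / (S.card.choose (k + 1 + i) : ℝ) := by
      unfold LibBar93.cor
      rw [if_neg hne, sub_zero]
      rw [Finset.sum_eq_single i]
      · rw [if_pos hci]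
        simp
      · intro b _ hb
        rw [if_neg]
        omega
      · intro h
        exact absurd hi h
    have hn : 0 < ω.card := by omega
    have hb := LibBar93.choose_ge S.card ω.card τ hτ.le hn (by omega) (by
      have : (ω.card : ℝ) ≤ 2 * (k : ℝ) + 1 := by
        have : ω.card ≤ 2 * k + 1 := by omega
        exact_mod_cast this
      linarith)
    have hcw := LibBar93.cw_abs k i
    have h8 : 3 * (2 : ℝ) ^ (3 * k + 1) ≤ 8 ^ ω.card := by
      have h9 : (8 : ℝ) ^ ω.card = 2 ^ (3 * ω.card) := by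
        rw [pow_mul]
        norm_num
      have h10 : (2 : ℝ) ^ (3 * k + 1 + 2) ≤ 2 ^ (3 * ω.card) :=
        pow_le_pow_right₀ (by norm_num) (by omega)
      have h11 : (2 : ℝ) ^ (3 * k + 1 + 2) = 4 * 2 ^ (3 * k + 1) := by
        rw [pow_add]
        ring
      have h12 : (0 : ℝ) < 2 ^ (3 * k + 1) := by positivity
      rw [h9]
      linarith
    have hchp : (0 : ℝ) < (S.card.choose ω.card : ℝ) := by
      exact_mod_cast Nat.choose_pos (Finset.card_le_card hω)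
    rw [e, ← hci, le_div_iff₀ hchp]
    have := neg_le_of_abs_le hcw
    nlinarith
  · have e : LibBar93.cor S (fun _ => 0) k ω = 0 := by
      unfold LibBar93.cor
      rw [if_neg hne, sub_zero, Finset.sum_eq_zero, mul_zero]
      intro i hi
      rw [if_neg]
      intro h
      exact hex ⟨i, hi, h⟩
    rw [e]
    have : 0 < τ ^ #ω := by positivity
    linarith

/-- L4. -/
theorem law_ne (S : Finset ℕ) (θ : ℕ → ℝ) (k : ℕ) (τ : ℝ) (hτ : 0 < τ) (hτ1 : τ ≤ 1 / 2)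
    (hlo : ∀ n ∈ S, τ ≤ θ n) (h1 : ∀ n ∈ S, θ n ≤ 1) (hbig : 16 * (2 * (k : ℝ) + 1) ≤ τ * #S)
    (δ : Finset ℕ → ℝ) (hδ0 : δ ∅ = 0) (ε : ℝ) (hδ : ∀ F ⊆ S, #F ≤ k → |δ F| ≤ ε)
    (hε : 0 ≤ ε) (hs : ε * ∏ n ∈ S, (1 + θ n) ≤ 1 / 2 * ∏ n ∈ S, (1 - θ n)) :
    ∃ w : Finset ℕ → ℝ, (∀ ω ∈ S.powerset, 0 ≤ w ω) ∧ w ∅ = 0 ∧
      ∑ ω ∈ S.powerset, w ω = 1 ∧
      ∀ F ⊆ S, #F ≤ k → ∑ ω ∈ S.powerset with F ⊆ ω, w ω = (1 + δ F) * ∏ n ∈ F, θ n := by
  have hcard : 2 * (2 * k + 1) ≤ S.card := by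
    have h1 : τ * (S.card : ℝ) ≤ 1 / 2 * S.card := by gcongr
    have h2 : 16 * (2 * (k : ℝ) + 1) ≤ 1 / 2 * S.card := hbig.trans h1
    have h3 : 2 * (2 * (k : ℝ) + 1) ≤ (S.card : ℝ) := by
      have : (0 : ℝ) ≤ k := by positivity
      linarith
    exact_mod_cast h3
  have hθ0 : ∀ n ∈ S, 0 ≤ θ n := fun n hn => hτ.le.trans (hlo n hn)
  set P := ∏ n ∈ S, (1 - θ n) with hPd
  have hP : 0 ≤ P := Finset.prod_nonneg fun n hn => by linarith [h1 n hn]
  -- the first law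
  set w1 : Finset ℕ → ℝ := fun ω => pw S θ ω + mb S θ k δ ω with hw1
  have hmb : ∀ ω ⊆ S, |mb S θ k δ ω| ≤ 1 / 2 * P * ∏ n ∈ ω, θ n := by
    intro ω hω
    have h := mb_abs S θ hθ0 k δ ε hδ hε ω hω
    have hR : 0 ≤ ∏ n ∈ ω, θ n := Finset.prod_nonneg fun n hn => hθ0 n (hω hn)
    have h2 : ε * (∏ n ∈ ω, θ n) * ∏ n ∈ S, (1 + θ n)
        = (ε * ∏ n ∈ S, (1 + θ n)) * ∏ n ∈ ω, θ n := by ring
    rw [h2] at h
    exact h.trans (mul_le_mul_of_nonneg_right hs hR)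
  have hpw : ∀ ω ⊆ S, P * ∏ n ∈ ω, θ n ≤ pw S θ ω := by
    intro ω hω
    unfold pw
    have e2 : P ≤ ∏ n ∈ S \ ω, (1 - θ n) := by
      rw [hPd, ← Finset.prod_sdiff hω]
      have a1 : 0 ≤ ∏ n ∈ S \ ω, (1 - θ n) := Finset.prod_nonneg fun n hn => by
        linarith [h1 n (Finset.mem_sdiff.mp hn).1]
      have a2 : ∏ n ∈ ω, (1 - θ n) ≤ 1 := Finset.prod_le_one
        (fun n hn => by linarith [h1 n (hω hn)]) (fun n hn => by linarith [hθ0 n (hω hn)])
      nlinarith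
    have hR : 0 ≤ ∏ n ∈ ω, θ n := Finset.prod_nonneg fun n hn => hθ0 n (hω hn)
    rw [mul_comm]
    exact mul_le_mul_of_nonneg_left e2 hR
  have hlow : ∀ ω ⊆ S, 1 / 2 * P * ∏ n ∈ ω, θ n ≤ w1 ω := by
    intro ω hω
    have h2 := hpw ω hω
    have h3 := neg_le_of_abs_le (hmb ω hω)
    simp only [hw1]
    nlinarith
  have hemp : w1 ∅ ≤ 3 / 2 * P := by
    have h3 := le_of_abs_le (hmb ∅ (Finset.empty_subset _))
    have h4 : pw S θ ∅ = P := by simp [pw, hPd]
    rw [Finset.prod_empty, mul_one] at h3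
    simp only [hw1]
    rw [h4]
    linarith
  have hemp0 : 0 ≤ w1 ∅ := by
    have := hlow ∅ (Finset.empty_subset _)
    rw [Finset.prod_empty, mul_one] at this
    linarith
  have hinc : ∀ F ⊆ S, #F ≤ k → ∑ ω ∈ S.powerset with F ⊆ ω,
      (w1 ω + w1 ∅ * LibBar93.cor S (fun _ => 0) k ω) = (1 + δ F) * ∏ n ∈ F, θ n := by
    intro F hF hk
    have a1 := LibBar93.pw_incl S θ F hF
    have a2 := mb_incl S θ k δ F hF
    have a3 := LibBar93.cor_incl S (fun _ => 0) k (by omega) F hF hk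
    rw [if_pos hk] at a2
    rw [Finset.sum_add_distrib, ← Finset.mul_sum, a3, mul_zero, add_zero]
    simp only [hw1]
    rw [Finset.sum_add_distrib, a1, a2]
    ring
  refine ⟨fun ω => w1 ω + w1 ∅ * LibBar93.cor S (fun _ => 0) k ω, ?_, ?_, ?_, hinc⟩
  · intro ω hω
    rw [Finset.mem_powerset] at hω
    by_cases hne : ω = ∅
    · subst hne
      simp only [L4_cor_empty]
      linarith
    · have c1 := L4_cor_ge S k τ hτ hcard hbig ω hω hne
      have c2 : τ ^ #ω ≤ ∏ n ∈ ω, θ n := by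
        rw [← Finset.prod_const]
        exact Finset.prod_le_prod (fun n _ => hτ.le) fun n hn => hlo n (hω hn)
      have c3 := hlow ω hω
      have c4 : 0 ≤ τ ^ #ω := by positivity
      have c5 : w1 ∅ * -(1 / 3 * τ ^ #ω) ≤ w1 ∅ * LibBar93.cor S (fun _ => 0) k ω :=
        mul_le_mul_of_nonneg_left c1 hemp0
      have c6 : w1 ∅ * τ ^ #ω ≤ 3 / 2 * P * τ ^ #ω := mul_le_mul_of_nonneg_right hemp c4
      have c7 : 1 / 2 * P * τ ^ #ω ≤ 1 / 2 * P * ∏ n ∈ ω, θ n :=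
        mul_le_mul_of_nonneg_left c2 (by positivity)
      simp only
      linarith
  · simp only [L4_cor_empty]
    ring
  · have := hinc ∅ (Finset.empty_subset _) (by simp)
    simpa [hδ0] using this

end Pool.Agent.LibTHL
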