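import Pool.Agent.LibTHL.ParA
import Pool.Agent.LibTHL.Blk
import Pool.Agent.LibBar93.Params

/-! Row P4: many sites. -/

set_option autoImplicit false

namespace Pool.Agent.LibTHL

open Finset
open Pool.Agent.LibBar93 (sieveLim dens euler)

theorem p4_le_bK (κ : ℕ → ℕ) (j : ℕ) : 32 * (2 * κ j + 1) * (j + 1) ≤ bK κ j :=
  Nat.le_pow_clog (by norm_num) _

theorem p4_two_primorial (κ : ℕ → ℕ) (j : ℕ) (hj : 64 ≤ j) : 2 * primorial (TL j) ≤ bK κ j := by
  have h1 : primorial (TL j) ≤ 4 ^ (TL j) := primorial_le_four_pow _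
  have h2 : 4 ^ (TL j) ≤ 2 ^ Nat.log 2 j := by
    calc 4 ^ (TL j) = 2 ^ (2 * (TL j)) := by rw [pow_mul]; norm_num
      _ ≤ 2 ^ Nat.log 2 j := Nat.pow_le_pow_right (by norm_num) (by unfold TL; omega)
  have h3 : 2 ^ Nat.log 2 j ≤ j := Nat.pow_log_le_self 2 (by omega)
  have h4 := p4_le_bK κ j
  have h5 : 2 * j ≤ 32 * (2 * κ j + 1) * (j + 1) := by
    have h6 : 1 ≤ 2 * κ j + 1 := by omega
    nlinarith
  omega

/-- the density on a block of the level `j` -/
theorem p4_dens (n j : ℕ) (hj : 64 ≤ j) (hn : Nat.log 2 n = j) :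
    dens n = if n.Coprime (primorial (TL j)) then (euler (TL j))⁻¹ / Real.log n else 0 := by
  have h8 : 8 ≤ n := by
    by_contra h
    have h1 : Nat.log 2 n ≤ n := Nat.log_le_self 2 n
    omega
  have hs : sieveLim n = TL j := by
    unfold sieveLim TL
    rw [hn]
  unfold Pool.Agent.LibBar93.dens
  rw [hs]
  by_cases h : n.Coprime (primorial (TL j))
  · rw [if_pos ⟨h8, h⟩, if_pos h]
  · rw [if_neg (fun h1 => h h1.2), if_neg h]

theorem p4_inv (j : ℕ) (hj : 64 ≤ j) : (euler (TL j))⁻¹ ≤ (j : ℝ) / 4 := by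
  have hj64 : (64 : ℝ) ≤ (j : ℝ) := by exact_mod_cast hj
  refine (Pool.Agent.LibBar93.inv_euler_le _).trans (max_le (by linarith) ?_)
  have h1 : TL j ≤ j / 4 := Nat.div_le_div_right (Nat.log_le_self 2 j)
  calc ((TL j : ℕ) : ℝ) ≤ ((j / 4 : ℕ) : ℝ) := by exact_mod_cast h1
    _ ≤ (j : ℝ) / 4 := Nat.cast_div_le

/-- P4: many sites. -/
theorem sites_ge {κ : ℕ → ℕ} {J : ℕ} (hκ : GoodK κ J) (i : ℕ) (hi : IsBlk (bK κ) J i) :
    ∃ τ : ℝ, 0 < τ ∧ τ ≤ 1 / 2 ∧ (∀ n ∈ sites dens (bK κ) J i, τ ≤ dens n ∧ dens n ≤ 1 / 2) ∧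
      16 * (2 * (κ (Nat.log 2 i) : ℝ) + 1) ≤ τ * #(sites dens (bK κ) J i) := by
  have hb := goodB_bK hκ
  have hJ := hκ.hJ
  have hi1 : J ≤ Nat.log 2 i := hi.1
  have hlev : ∀ n ∈ Ico i (i + bK κ (Nat.log 2 i)), Nat.log 2 n = Nat.log 2 i := by
    intro n hn
    obtain ⟨h1, h2⟩ := Finset.mem_Ico.1 hn
    exact (blk_of_mem hb hi h1 h2).2
  have hsites : sites dens (bK κ) J i = {n ∈ Ico i (i + bK κ (Nat.log 2 i)) | dens n ≠ 0} := by
    unfold sites
    exact if_pos hi
  set j := Nat.log 2 i with hj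
  have hj64 : 64 ≤ j := hJ.trans hi1
  have hj0 : (64 : ℝ) ≤ (j : ℝ) := by exact_mod_cast hj64
  have hE : 0 < euler (TL j) := Pool.Agent.LibBar93.euler_pos _
  have hinv := p4_inv j hj64
  have hinv0 : 0 < (euler (TL j))⁻¹ := inv_pos.2 hE
  have hl2 := Real.log_two_gt_d9
  have hl2' := Real.log_two_lt_d9
  have hn1 : ∀ n, Nat.log 2 n = j → 1 ≤ n := by
    intro n hn
    by_contra h
    have h0 : n = 0 := by omega
    rw [h0] at hn
    simp at hn
    omega
  have hlog : ∀ n, Nat.log 2 n = j → (69 / 100 : ℝ) * j ≤ Real.log n ∧ Real.log n ≤ j + 1 := by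
    intro n hn
    obtain ⟨h1, h2⟩ := Pool.Agent.LibBar93.log_bounds (hn1 n hn)
    rw [hn] at h1 h2
    constructor
    · nlinarith
    · nlinarith
  refine ⟨(euler (TL j))⁻¹ / ((j : ℝ) + 1), by positivity, ?_, ?_, ?_⟩
  · rw [div_le_iff₀ (by linarith)]
    linarith
  · intro n hn
    rw [hsites, Finset.mem_filter] at hn
    have hnl := hlev n hn.1
    have hd := p4_dens n j hj64 hnl
    have hne := hn.2
    rw [hd] at hne ⊢
    obtain ⟨h1, h2⟩ := hlog n hnl
    have h3 : 0 < Real.log (n : ℝ) := by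
      have : (0 : ℝ) < 69 / 100 * j := by positivity
      linarith
    by_cases hc : n.Coprime (primorial (TL j))
    · rw [if_pos hc]
      constructor
      · exact div_le_div_of_nonneg_left hinv0.le h3 h2
      · rw [div_le_iff₀ h3]
        linarith
    · rw [if_neg hc] at hne
      exact absurd rfl hne
  · rw [hsites]
    have hcard : #{n ∈ Ico i (i + bK κ j) | dens n ≠ 0}
        = #{n ∈ Ico i (i + bK κ j) | n.Coprime (primorial (TL j))} := by
      congr 1
      apply Finset.filter_congr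
      intro n hn
      have hnl := hlev n hn
      have hd := p4_dens n j hj64 hnl
      obtain ⟨h1, h2⟩ := hlog n hnl
      have h3 : 0 < Real.log (n : ℝ) := by
        have : (0 : ℝ) < 69 / 100 * j := by positivity
        linarith
      rw [hd]
      constructor
      · intro h4
        by_contra h5
        exact h4 (if_neg h5)
      · intro h4
        rw [if_pos h4]
        positivity
    rw [hcard]
    have h1 := Pool.Agent.LibBar93.card_coprime_ge (primorial (TL j)) i (bK κ j)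
      (primorial_pos _) (p4_two_primorial κ j hj64) (euler (TL j))
      (Pool.Agent.LibBar93.totient_primorial _)
    have h2 : 32 * (2 * (κ j : ℝ) + 1) * ((j : ℝ) + 1) ≤ (bK κ j : ℝ) := by
      exact_mod_cast p4_le_bK κ j
    have h3 : (0 : ℝ) ≤ (euler (TL j))⁻¹ / ((j : ℝ) + 1) := by positivity
    refine le_trans ?_ (mul_le_mul_of_nonneg_left h1 h3)
    have h4 : (euler (TL j))⁻¹ / ((j : ℝ) + 1) * ((bK κ j : ℝ) * euler (TL j) / 2)
        = (bK κ j : ℝ) / (2 * ((j : ℝ) + 1)) := by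
      have := hE.ne'
      field_simp
    rw [h4, le_div_iff₀ (by positivity)]
    linarith

end Pool.Agent.LibTHL
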