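import Pool.Agent.LibTHL.ParA
import Pool.Agent.LibTHL.Blk
import Pool.Agent.LibBar93.Params

/-! Row P5: not too many sites. -/

set_option autoImplicit false

namespace Pool.Agent.LibTHL

open Finset MeasureTheory ProbabilityTheory Filter Topology
open Pool.Agent.LibBar93 (sieveLim dens euler)

theorem P5_log {κ : ℕ → ℕ} {J : ℕ} (hκ : GoodK κ J) {i n : ℕ} (hi : IsBlk (bK κ) J i)
    (h1 : i ≤ n) (h2 : n < i + bK κ (Nat.log 2 i)) :
    Nat.log 2 n = Nat.log 2 i ∧ 2 ^ Nat.log 2 i ≤ n := by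
  obtain ⟨h3, c, hc⟩ := hi
  have hJ := hκ.hJ
  have hi0 : i ≠ 0 := by
    rintro rfl
    rw [Nat.log_zero_right] at h3
    omega
  set j := Nat.log 2 i with hj
  have hb : 0 < bK κ j := (goodB_bK hκ).pos j
  have h4 : 2 ^ j ≤ i := Nat.pow_log_le_self 2 hi0
  have h5 : i < 2 ^ (j + 1) := Nat.lt_pow_succ_log_self one_lt_two i
  obtain ⟨d, hd⟩ := (goodB_bK hκ).dvd j h3
  have h6 : i + bK κ j ≤ 2 ^ (j + 1) := by
    rw [pow_succ, hd] at h5 ⊢
    rw [hc] at h5 ⊢
    have h7 : c < 4 * d := by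
      by_contra hcon
      push Not at hcon
      have := Nat.mul_le_mul_left (bK κ j) hcon
      nlinarith
    have h8 : c + 1 ≤ 4 * d := h7
    have := Nat.mul_le_mul_left (bK κ j) h8
    nlinarith
  refine ⟨?_, h4.trans h1⟩
  rw [Nat.log_eq_iff (Or.inl (by omega))]
  exact ⟨h4.trans h1, by omega⟩

theorem P5_card (W b i : ℕ) (hW0 : 0 < W) (E : ℝ) (hE0 : 0 < E)
    (hWE : (W : ℝ) * E = Nat.totient W) (hWb : W ≤ b) (S : Finset ℕ)
    (hS : ∀ n ∈ S, n.Coprime W ∧ i ≤ n ∧ n < i + b) : (#S : ℝ) ≤ 2 * b * E := by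
  have h1 : #S ≤ #{n ∈ Ico i (i + b) | W.Coprime n} := by
    apply Finset.card_le_card
    intro n hn
    obtain ⟨h2, h3, h4⟩ := hS n hn
    rw [Finset.mem_filter, Finset.mem_Ico]
    exact ⟨⟨h3, h4⟩, h2.symm⟩
  have h2 : #{n ∈ Ico i (i + b) | W.Coprime n} ≤ Nat.totient W * (b / W + 1) :=
    Nat.Ico_filter_coprime_le i b hW0.ne'
  have h3 : (#S : ℝ) ≤ ((Nat.totient W * (b / W + 1) : ℕ) : ℝ) := Nat.cast_le.2 (h1.trans h2)
  refine h3.trans ?_
  push_cast
  rw [← hWE]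
  have h4 : ((b / W : ℕ) : ℝ) * W ≤ b := by
    exact_mod_cast Nat.div_mul_le_self b W
  have h5 : (W : ℝ) ≤ b := by exact_mod_cast hWb
  calc (W : ℝ) * E * (((b / W : ℕ) : ℝ) + 1) = E * (((b / W : ℕ) : ℝ) * W + W) := by ring
    _ ≤ E * (b + b) := mul_le_mul_of_nonneg_left (by linarith) hE0.le
    _ = 2 * b * E := by ring

/-- P5: not too many sites. -/
theorem sites_le {κ : ℕ → ℕ} {J : ℕ} (hκ : GoodK κ J) (i : ℕ) (hi : IsBlk (bK κ) J i) :
    ∑ n ∈ sites dens (bK κ) J i, dens n ≤ 190 * (2 * (κ (Nat.log 2 i) : ℝ) + 1) := by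
  have hJ := hκ.hJ
  set j := Nat.log 2 i with hj
  have hJj : J ≤ j := hi.1
  have hj64 : 64 ≤ j := hJ.trans hJj
  have hjr : (64 : ℝ) ≤ j := by exact_mod_cast hj64
  obtain ⟨b, hb⟩ : ∃ b, b = bK κ j := ⟨_, rfl⟩
  obtain ⟨W, hW⟩ : ∃ W, W = primorial (TL j) := ⟨_, rfl⟩
  obtain ⟨E, hE⟩ : ∃ E, E = euler (TL j) := ⟨_, rfl⟩
  have hE0 : 0 < E := by rw [hE]; exact Pool.Agent.LibBar93.euler_pos _
  have hW0 : 0 < W := by rw [hW]; exact primorial_pos _
  have hWE : (W : ℝ) * E = Nat.totient W := by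
    rw [hW, hE]; exact Pool.Agent.LibBar93.totient_primorial _
  have hlog2 : (0.693 : ℝ) < Real.log 2 := by
    have := Real.log_two_gt_d9
    linarith
  -- the primorial is at most the block length
  have hWj : W ≤ j := by
    have h1 : W ≤ 4 ^ TL j := by rw [hW]; exact primorial_le_four_pow _
    have h2 : 4 ^ TL j ≤ 2 ^ Nat.log 2 j := by
      rw [show (4 : ℕ) = 2 ^ 2 by norm_num, ← pow_mul]
      apply Nat.pow_le_pow_right (by norm_num)
      unfold TL
      omega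
    have h3 : 2 ^ Nat.log 2 j ≤ j := Nat.pow_log_le_self 2 (by omega)
    omega
  have hjb : j ≤ b := by
    have h1 : 32 * (2 * κ j + 1) * (j + 1) ≤ b := by
      rw [hb]; exact Nat.le_pow_clog (by norm_num) _
    have h2 : 1 * (j + 1) ≤ 32 * (2 * κ j + 1) * (j + 1) := Nat.mul_le_mul_right _ (by omega)
    omega
  have hWb : W ≤ b := hWj.trans hjb
  -- the value of the density
  have hval : ∀ n ∈ sites dens (bK κ) J i, n.Coprime W ∧ i ≤ n ∧ n < i + b ∧
      dens n ≤ E⁻¹ / (j * Real.log 2) := by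
    intro n hn
    unfold sites at hn
    rw [if_pos ⟨hi.1, hi.2⟩, Finset.mem_filter, Finset.mem_Ico, ← hj, ← hb] at hn
    obtain ⟨⟨h1, h2⟩, h3⟩ := hn
    obtain ⟨h4, h5⟩ := P5_log hκ hi h1 (by rw [← hj, ← hb]; exact h2)
    have h6 : sieveLim n = TL j := by
      unfold sieveLim TL
      rw [h4]
    unfold Pool.Agent.LibBar93.dens at h3 ⊢
    rw [h6, ← hW, ← hE] at h3
    rw [h6, ← hW, ← hE]
    by_cases hc : 8 ≤ n ∧ n.Coprime W
    · rw [if_pos hc]
      refine ⟨hc.2, h1, h2, ?_⟩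
      have h7 : (j : ℝ) * Real.log 2 ≤ Real.log n := by
        rw [← Real.log_pow]
        apply Real.log_le_log (by positivity)
        exact_mod_cast h5
      exact div_le_div_of_nonneg_left (inv_nonneg.2 hE0.le) (by positivity) h7
    · rw [if_neg hc] at h3
      exact absurd rfl h3
  -- the number of sites
  have hcard : (#(sites dens (bK κ) J i) : ℝ) ≤ 2 * b * E :=
    P5_card W b i hW0 E hE0 hWE hWb _ fun n hn =>
      ⟨(hval n hn).1, (hval n hn).2.1, (hval n hn).2.2.1⟩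
  have hbr : (b : ℝ) ≤ 64 * (2 * κ j + 1) * (j + 1) := by
    rw [hb]
    exact_mod_cast bK_le κ j
  have hM0 : 0 ≤ E⁻¹ / (j * Real.log 2) := by positivity
  calc ∑ n ∈ sites dens (bK κ) J i, dens n
      ≤ ∑ _n ∈ sites dens (bK κ) J i, E⁻¹ / (j * Real.log 2) :=
        Finset.sum_le_sum fun n hn => (hval n hn).2.2.2
    _ = #(sites dens (bK κ) J i) * (E⁻¹ / (j * Real.log 2)) := by
        rw [Finset.sum_const, nsmul_eq_mul]
    _ ≤ 2 * b * E * (E⁻¹ / (j * Real.log 2)) := mul_le_mul_of_nonneg_right hcard hM0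
    _ = 2 * b / (j * Real.log 2) := by field_simp
    _ ≤ 190 * (2 * (κ j : ℝ) + 1) := by
        rw [div_le_iff₀ (by positivity)]
        have h1 : (0 : ℝ) ≤ 2 * (κ j : ℝ) + 1 := by positivity
        have h2a : (j : ℝ) * 0.693 ≤ j * Real.log 2 :=
          mul_le_mul_of_nonneg_left hlog2.le (by positivity)
        have h2 : 128 * ((j : ℝ) + 1) ≤ 190 * (j * Real.log 2) := by
          norm_num at h2a
          linarith
        calc 2 * (b : ℝ) ≤ 2 * (64 * (2 * κ j + 1) * (j + 1)) := by linarith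
          _ = (2 * (κ j : ℝ) + 1) * (128 * ((j : ℝ) + 1)) := by ring
          _ ≤ (2 * (κ j : ℝ) + 1) * (190 * (j * Real.log 2)) := mul_le_mul_of_nonneg_left h2 h1
          _ = 190 * (2 * (κ j : ℝ) + 1) * (j * Real.log 2) := by ring

end Pool.Agent.LibTHL
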