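import Pool.Agent.LibTHL.Defs

/-! Rows P6, P7. -/

set_option autoImplicit false

namespace Pool.Agent.LibTHL

open Finset MeasureTheory ProbabilityTheory Filter
open Pool.Agent.LibBar93 (sieveLim dens)
open Pool.Agent.LibCI99 (cnt hlConst)
open scoped ENNReal

theorem P67_one (t : ℝ) (h0 : 0 ≤ t) (h1 : t ≤ 1 / 2) : 1 + t ≤ Real.exp (3 * t) * (1 - t) := by
  have h2 := Real.quadratic_le_exp_of_nonneg (by linarith : (0 : ℝ) ≤ 3 * t)
  have h3 : (1 + 3 * t + (3 * t) ^ 2 / 2) * (1 - t) ≤ Real.exp (3 * t) * (1 - t) :=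
    mul_le_mul_of_nonneg_right h2 (by linarith)
  have h4 : 1 + t ≤ (1 + 3 * t + (3 * t) ^ 2 / 2) * (1 - t) := by
    have h5 : 0 ≤ t * (1 / 2 - t) * (1 + t) := by
      have : 0 ≤ 1 / 2 - t := by linarith
      positivity
    nlinarith
  linarith

/-- P6. -/
theorem Lam_le (S : Finset ℕ) (θ : ℕ → ℝ) (h0 : ∀ n ∈ S, 0 ≤ θ n) (h1 : ∀ n ∈ S, θ n ≤ 1 / 2) :
    ∏ n ∈ S, (1 + θ n) ≤ Real.exp (3 * ∑ n ∈ S, θ n) * ∏ n ∈ S, (1 - θ n) := by
  rw [mul_sum, Real.exp_sum, ← prod_mul_distrib]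
  exact prod_le_prod (fun n hn => by linarith [h0 n hn]) fun n hn => P67_one _ (h0 n hn) (h1 n hn)

/-- P7: everything is small. -/
theorem small_param {κ : ℕ → ℕ} {J : ℕ} (hκ : GoodK κ J) (j : ℕ) (hj : J ≤ j) :
    18 * (4 * (κ j : ℝ) ^ 2 / TL j) * Real.exp (3 * (190 * (2 * (κ j : ℝ) + 1))) ^ 2 ≤ 1 := by
  have hk1 : (1 : ℝ) ≤ κ j := by exact_mod_cast hκ.one j hj
  have hT : (2 : ℝ) ^ (6000 * κ j) ≤ TL j := by exact_mod_cast hκ.small j hj
  have h2 : (0 : ℝ) < (2 : ℝ) ^ (6000 * κ j) := by positivity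
  have hT0 : (0 : ℝ) < TL j := lt_of_lt_of_le h2 hT
  set k : ℝ := ((κ j : ℕ) : ℝ) with hk
  have e1 : Real.exp (3 * (190 * (2 * k + 1))) ^ 2 ≤ Real.exp (3420 * k) := by
    rw [← Real.exp_nat_mul]
    apply Real.exp_le_exp.mpr
    push_cast
    linarith
  have e2 : 72 * k ^ 2 ≤ Real.exp (738 * k) := by
    have := Real.quadratic_le_exp_of_nonneg (by linarith : (0 : ℝ) ≤ 738 * k)
    nlinarith
  have e3 : Real.exp (4158 * k) ≤ (2 : ℝ) ^ (6000 * κ j) := by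
    have h3 : (2 : ℝ) ^ (6000 * κ j) = Real.exp ((6000 * k) * Real.log 2) := by
      rw [← Real.exp_log (by norm_num : (0 : ℝ) < 2), ← Real.exp_nat_mul,
        Real.exp_log (by norm_num : (0 : ℝ) < 2)]
      push_cast
      rfl
    rw [h3]
    apply Real.exp_le_exp.mpr
    have h4 := Real.log_two_gt_d9
    nlinarith
  have e4 : 72 * k ^ 2 * Real.exp (3420 * k) ≤ TL j := by
    calc 72 * k ^ 2 * Real.exp (3420 * k) ≤ Real.exp (738 * k) * Real.exp (3420 * k) :=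
          mul_le_mul_of_nonneg_right e2 (Real.exp_pos _).le
      _ = Real.exp (4158 * k) := by rw [← Real.exp_add]; ring_nf
      _ ≤ _ := e3.trans hT
  have e5 : 18 * (4 * k ^ 2 / TL j) * Real.exp (3 * (190 * (2 * k + 1))) ^ 2 ≤
      18 * (4 * k ^ 2 / TL j) * Real.exp (3420 * k) :=
    mul_le_mul_of_nonneg_left e1 (by positivity)
  refine e5.trans ?_
  have e6 : 18 * (4 * k ^ 2 / TL j) * Real.exp (3420 * k) =
      (72 * k ^ 2 * Real.exp (3420 * k)) / TL j := by ring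
  rw [e6, div_le_one hT0]
  exact e4

end Pool.Agent.LibTHL
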