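import Pool.Agent.LibTHL.Defs

set_option autoImplicit false

namespace Pool.Agent.LibTHL

open Finset Filter Topology

/-- the factor of the prime `p` -/
noncomputable def T13_f (T m : ℕ) (p : Nat.Primes) : ℝ :=
  if T < (p : ℕ) then (1 - (m : ℝ) / (p : ℕ)) / (1 - 1 / ((p : ℕ) : ℝ)) ^ m else 1

theorem T13_pos (p : Nat.Primes) : (1 : ℝ) < ((p : ℕ) : ℝ) := by
  exact_mod_cast p.2.one_lt

theorem T13_le (T m : ℕ) (h : m ≤ T) (p : Nat.Primes) : T13_f T m p ≤ 1 := by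
  unfold T13_f
  have hp := T13_pos p
  split_ifs with hT
  · have h1 : 0 < 1 - 1 / ((p : ℕ) : ℝ) := by
      rw [sub_pos, div_lt_one (by linarith)]
      exact hp
    rw [div_le_one (pow_pos h1 m)]
    have h2 := one_add_mul_sub_le_pow (a := 1 - 1 / ((p : ℕ) : ℝ)) (by linarith) m
    have e : 1 + (m : ℝ) * (1 - 1 / ((p : ℕ) : ℝ) - 1) = 1 - (m : ℝ) / ((p : ℕ) : ℝ) := by ring
    rw [e] at h2
    exact h2
  · exact le_refl _

theorem T13_ge (T m : ℕ) (h : m ≤ T) (p : Nat.Primes) (hT : T < (p : ℕ)) :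
    1 - (m : ℝ) ^ 2 / ((p : ℕ) : ℝ) ^ 2 ≤ T13_f T m p := by
  unfold T13_f
  rw [if_pos hT]
  have hp := T13_pos p
  have hp0 : (0 : ℝ) < ((p : ℕ) : ℝ) := by linarith
  have h1 : 0 < 1 - 1 / ((p : ℕ) : ℝ) := by
    rw [sub_pos, div_lt_one (by linarith)]
    exact hp
  have hmp : (m : ℝ) < ((p : ℕ) : ℝ) := by exact_mod_cast lt_of_le_of_lt h hT
  rw [le_div_iff₀ (pow_pos h1 m)]
  have h2a : (-1 : ℝ) ≤ 1 + 1 / ((p : ℕ) : ℝ) := by
    have : (0 : ℝ) ≤ 1 / ((p : ℕ) : ℝ) := by positivity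
    linarith
  have h2 := one_add_mul_sub_le_pow (a := 1 + 1 / ((p : ℕ) : ℝ)) h2a m
  have e : 1 + (m : ℝ) * (1 + 1 / ((p : ℕ) : ℝ) - 1) = 1 + (m : ℝ) / ((p : ℕ) : ℝ) := by ring
  rw [e] at h2
  have hq : 0 ≤ 1 - (m : ℝ) / ((p : ℕ) : ℝ) := by
    rw [sub_nonneg, div_le_one hp0]
    exact hmp.le
  have h3 : (1 + 1 / ((p : ℕ) : ℝ)) ^ m * (1 - 1 / ((p : ℕ) : ℝ)) ^ m ≤ 1 := by
    rw [← mul_pow]
    refine pow_le_one₀ ?_ ?_
    · exact mul_nonneg (by positivity) h1.le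
    · have : (1 + 1 / ((p : ℕ) : ℝ)) * (1 - 1 / ((p : ℕ) : ℝ)) = 1 - (1 / ((p : ℕ) : ℝ)) ^ 2 := by
        ring
      rw [this]
      have := sq_nonneg (1 / ((p : ℕ) : ℝ))
      linarith
  have h4 : (1 + (m : ℝ) / ((p : ℕ) : ℝ)) * (1 - 1 / ((p : ℕ) : ℝ)) ^ m ≤ 1 :=
    (mul_le_mul_of_nonneg_right h2 (pow_nonneg h1.le m)).trans h3
  have e2 : 1 - (m : ℝ) ^ 2 / ((p : ℕ) : ℝ) ^ 2
      = (1 - (m : ℝ) / ((p : ℕ) : ℝ)) * (1 + (m : ℝ) / ((p : ℕ) : ℝ)) := by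
    rw [← div_pow]
    ring
  rw [e2, mul_assoc]
  calc (1 - (m : ℝ) / ((p : ℕ) : ℝ))
        * ((1 + (m : ℝ) / ((p : ℕ) : ℝ)) * (1 - 1 / ((p : ℕ) : ℝ)) ^ m)
      ≤ (1 - (m : ℝ) / ((p : ℕ) : ℝ)) * 1 := mul_le_mul_of_nonneg_left h4 hq
    _ = 1 - (m : ℝ) / ((p : ℕ) : ℝ) := mul_one _

theorem T13_nonneg (T m : ℕ) (h : m ≤ T) (p : Nat.Primes) : 0 ≤ T13_f T m p := by
  by_cases hT : T < (p : ℕ)
  · refine le_trans ?_ (T13_ge T m h p hT)
    have hp := T13_pos p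
    have hmp : (m : ℝ) < ((p : ℕ) : ℝ) := by exact_mod_cast lt_of_le_of_lt h hT
    rw [sub_nonneg, div_le_one (by positivity)]
    exact pow_le_pow_left₀ (Nat.cast_nonneg m) hmp.le 2
  · unfold T13_f
    rw [if_neg hT]
    exact zero_le_one

/-- the inequality of Weierstrass -/
theorem T13_weier {ι : Type} (s : Finset ι) (f : ι → ℝ) (h0 : ∀ i ∈ s, 0 ≤ f i)
    (h1 : ∀ i ∈ s, f i ≤ 1) : 1 - ∑ i ∈ s, (1 - f i) ≤ ∏ i ∈ s, f i := by
  classical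
  induction s using Finset.induction_on with
  | empty => simp
  | insert a s ha ih =>
    rw [Finset.sum_insert ha, Finset.prod_insert ha]
    have hi := ih (fun i hi => h0 i (Finset.mem_insert_of_mem hi))
      (fun i hi => h1 i (Finset.mem_insert_of_mem hi))
    have ha0 := h0 a (Finset.mem_insert_self a s)
    have ha1 := h1 a (Finset.mem_insert_self a s)
    have hp1 : ∏ i ∈ s, f i ≤ 1 := Finset.prod_le_one (fun i hi => h0 i (Finset.mem_insert_of_mem hi))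
      (fun i hi => h1 i (Finset.mem_insert_of_mem hi))
    nlinarith [mul_nonneg (sub_nonneg.2 ha1) (sub_nonneg.2 hp1)]

theorem T13_sum (T m : ℕ) (h : m ≤ T) (hT : 0 < T) (s : Finset Nat.Primes) :
    ∑ p ∈ s, (1 - T13_f T m p) ≤ (m : ℝ) ^ 2 / T := by
  classical
  have h1 : ∀ p ∈ s, 1 - T13_f T m p ≤
      if T < (p : ℕ) then (m : ℝ) ^ 2 * ((((p : ℕ) : ℝ) ^ 2)⁻¹) else 0 := by
    intro p _
    split_ifs with hp
    · have := T13_ge T m h p hp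
      rw [div_eq_mul_inv] at this
      linarith
    · unfold T13_f
      rw [if_neg hp, sub_self]
  have hT0 : (0 : ℝ) < T := by exact_mod_cast hT
  set N : ℕ := T + ∑ p ∈ s, (p : ℕ) with hN
  have hTN : T ≤ N := Nat.le_add_right _ _
  calc ∑ p ∈ s, (1 - T13_f T m p)
      ≤ ∑ p ∈ s, (if T < (p : ℕ) then (m : ℝ) ^ 2 * ((((p : ℕ) : ℝ) ^ 2)⁻¹) else 0) :=
        Finset.sum_le_sum h1
    _ = ∑ p ∈ s.filter (fun p : Nat.Primes => T < (p : ℕ)), (m : ℝ) ^ 2 * ((((p : ℕ) : ℝ) ^ 2)⁻¹) := by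
        rw [Finset.sum_filter]
    _ = ∑ n ∈ (s.filter (fun p : Nat.Primes => T < (p : ℕ))).image (fun p : Nat.Primes => (p : ℕ)),
          (m : ℝ) ^ 2 * (((n : ℝ) ^ 2)⁻¹) := by
        rw [Finset.sum_image]
        intro x _ y _ hxy
        exact Subtype.ext hxy
    _ ≤ ∑ n ∈ Ioc T N, (m : ℝ) ^ 2 * (((n : ℝ) ^ 2)⁻¹) := by
        refine Finset.sum_le_sum_of_subset_of_nonneg ?_ fun _ _ _ => by positivity
        intro n hn
        rw [Finset.mem_image] at hn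
        obtain ⟨p, hp, rfl⟩ := hn
        rw [Finset.mem_filter] at hp
        rw [Finset.mem_Ioc]
        refine ⟨hp.2, ?_⟩
        have : (p : ℕ) ≤ ∑ p ∈ s, (p : ℕ) :=
          Finset.single_le_sum (f := fun p : Nat.Primes => (p : ℕ)) (fun _ _ => Nat.zero_le _) hp.1
        omega
    _ = (m : ℝ) ^ 2 * ∑ n ∈ Ioc T N, ((n : ℝ) ^ 2)⁻¹ := by rw [Finset.mul_sum]
    _ ≤ (m : ℝ) ^ 2 * ((T : ℝ)⁻¹ - (N : ℝ)⁻¹) :=
        mul_le_mul_of_nonneg_left (sum_Ioc_inv_sq_le_sub hT.ne' hTN) (sq_nonneg _)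
    _ ≤ (m : ℝ) ^ 2 * (T : ℝ)⁻¹ := by
        refine mul_le_mul_of_nonneg_left ?_ (sq_nonneg _)
        have : (0 : ℝ) ≤ (N : ℝ)⁻¹ := by positivity
        linarith
    _ = (m : ℝ) ^ 2 / T := by rw [div_eq_mul_inv]

theorem T13_tprod (T m : ℕ) : tailF T m = ∏' p : Nat.Primes, T13_f T m p := rfl

/-- T1. -/
theorem tailF_zero (T : ℕ) : tailF T 0 = 1 := by
  rw [T13_tprod]
  have : ∀ p : Nat.Primes, T13_f T 0 p = 1 := by
    intro p
    unfold T13_f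
    simp
  simp only [this]
  exact tprod_one

/-- T2. -/
theorem tailF_le_one (T m : ℕ) (h : m ≤ T) : tailF T m ≤ 1 := by
  rw [T13_tprod]
  by_cases hm : Multipliable (T13_f T m)
  · refine le_of_tendsto hm.hasProd (Eventually.of_forall fun s => ?_)
    exact Finset.prod_le_one (fun p _ => T13_nonneg T m h p) (fun p _ => T13_le T m h p)
  · rw [tprod_eq_one_of_not_multipliable hm]

/-- T3. -/
theorem le_tailF (T m : ℕ) (h : m ≤ T) (hT : 0 < T) : 1 - (m : ℝ) ^ 2 / T ≤ tailF T m := by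
  rw [T13_tprod]
  by_cases hm : Multipliable (T13_f T m)
  · refine ge_of_tendsto hm.hasProd (Eventually.of_forall fun s => ?_)
    refine le_trans ?_ (T13_weier s (T13_f T m) (fun p _ => T13_nonneg T m h p)
      (fun p _ => T13_le T m h p))
    have := T13_sum T m h hT s
    linarith
  · rw [tprod_eq_one_of_not_multipliable hm]
    have : (0 : ℝ) ≤ (m : ℝ) ^ 2 / T := by positivity
    linarith

end Pool.Agent.LibTHL
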