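import Pool.Agent.LibTHL.LawPos
import Pool.Agent.LibTHL.LawNe
import Pool.Agent.LibTHL.Inter
import Pool.Agent.LibTHL.Tail
import Pool.Agent.LibTHL.ParB
import Pool.Agent.LibTHL.ParC
import Pool.Agent.LibTHL.ParD

set_option autoImplicit false

namespace Pool.Agent.LibTHL

open Finset MeasureTheory ProbabilityTheory Filter Topology
open Pool.Agent.LibBar93 (sieveLim dens euler)
open scoped ENNReal

/-- The bound for the ratio of the two products. -/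
noncomputable def P8_L (κ : ℕ → ℕ) (j : ℕ) : ℝ := Real.exp (3 * (190 * (2 * (κ j : ℝ) + 1)))

/-- The bound for the tail factor. -/
noncomputable def P8_e (κ : ℕ → ℕ) (j : ℕ) : ℝ := 4 * (κ j : ℝ) ^ 2 / TL j

theorem P8_L_ge (κ : ℕ → ℕ) (j : ℕ) : 1 ≤ P8_L κ j := by
  unfold P8_L
  have h : (0 : ℝ) ≤ κ j := Nat.cast_nonneg _
  have := Real.add_one_le_exp (3 * (190 * (2 * (κ j : ℝ) + 1)))
  linarith

theorem P8_e_nonneg (κ : ℕ → ℕ) (j : ℕ) : 0 ≤ P8_e κ j := by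
  unfold P8_e
  positivity

theorem P8_small {κ : ℕ → ℕ} {J : ℕ} (hκ : GoodK κ J) (j : ℕ) (hj : J ≤ j) :
    18 * P8_e κ j * P8_L κ j ^ 2 ≤ 1 := small_param hκ j hj

theorem P8_eL {κ : ℕ → ℕ} {J : ℕ} (hκ : GoodK κ J) (j : ℕ) (hj : J ≤ j) :
    P8_e κ j * P8_L κ j ≤ 1 / 2 ∧ P8_e κ j ≤ 1 := by
  have h1 := P8_small hκ j hj
  have h2 := P8_L_ge κ j
  have h3 := P8_e_nonneg κ j
  have h4 : P8_e κ j * 1 ≤ P8_e κ j * P8_L κ j := mul_le_mul_of_nonneg_left h2 h3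
  have h5 : P8_e κ j * P8_L κ j * 1 ≤ P8_e κ j * P8_L κ j * P8_L κ j :=
    mul_le_mul_of_nonneg_left h2 (mul_nonneg h3 (by linarith))
  constructor <;> nlinarith

theorem P8_TL {κ : ℕ → ℕ} {J : ℕ} (hκ : GoodK κ J) (j : ℕ) (hj : J ≤ j) :
    2 * κ j ≤ TL j ∧ 0 < TL j := by
  have h1 := hκ.small j hj
  have h2 : 2 * κ j < 2 ^ (2 * κ j) := Nat.lt_two_pow_self
  have h3 : 2 ^ (2 * κ j) ≤ 2 ^ (6000 * κ j) := Nat.pow_le_pow_right (by norm_num) (by omega)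
  constructor <;> omega

theorem P8_s {κ : ℕ → ℕ} {J : ℕ} (hκ : GoodK κ J) (j : ℕ) (hj : J ≤ j) (m : ℕ)
    (hm : m ≤ 2 * κ j) : 1 - P8_e κ j ≤ tailF (TL j) m ∧ tailF (TL j) m ≤ 1 := by
  obtain ⟨h1, h2⟩ := P8_TL hκ j hj
  refine ⟨?_, tailF_le_one _ _ (hm.trans h1)⟩
  refine le_trans ?_ (le_tailF _ _ (hm.trans h1) h2)
  have h3 : (m : ℝ) ≤ 2 * κ j := by exact_mod_cast hm
  have h4 : (m : ℝ) ^ 2 ≤ 4 * (κ j : ℝ) ^ 2 := by
    have h5 : (0 : ℝ) ≤ m := Nat.cast_nonneg _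
    nlinarith
  have h5 : (m : ℝ) ^ 2 / TL j ≤ P8_e κ j :=
    div_le_div_of_nonneg_right h4 (Nat.cast_nonneg _)
  linarith

theorem P8_block {κ : ℕ → ℕ} {J : ℕ} (hκ : GoodK κ J) (i : ℕ) (hi : IsBlk (bK κ) J i) :
    (∀ n ∈ sites dens (bK κ) J i, 0 < dens n ∧ dens n ≤ 1 / 2) ∧
      ∏ n ∈ sites dens (bK κ) J i, (1 + dens n) ≤
        P8_L κ (Nat.log 2 i) * ∏ n ∈ sites dens (bK κ) J i, (1 - dens n) := by
  obtain ⟨τ, h1, h2, h3, h4⟩ := sites_ge hκ i hi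
  have h5 : ∀ n ∈ sites dens (bK κ) J i, 0 < dens n ∧ dens n ≤ 1 / 2 := fun n hn =>
    ⟨lt_of_lt_of_le h1 (h3 n hn).1, (h3 n hn).2⟩
  refine ⟨h5, ?_⟩
  refine (Lam_le _ _ (fun n hn => (h5 n hn).1.le) fun n hn => (h5 n hn).2).trans ?_
  refine mul_le_mul_of_nonneg_right ?_ (Finset.prod_nonneg fun n hn => ?_)
  · unfold P8_L
    exact Real.exp_le_exp.2 (mul_le_mul_of_nonneg_left (sites_le hκ i hi) (by norm_num))
  · have := (h5 n hn).2
    linarith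

/-- The law of an even block. -/
theorem P8_even_abs (S : Finset ℕ) (θ : ℕ → ℝ) (k : ℕ) (s : ℕ → ℝ) (hs0 : s 0 = 1) (e L : ℝ)
    (he0 : 0 ≤ e) (heL : e * L ≤ 1 / 2)
    (hs : ∀ m, m ≤ k → 1 - e ≤ s m ∧ s m ≤ 1)
    (hS : ∀ n ∈ S, 0 < θ n ∧ θ n ≤ 1 / 2)
    (hSL : ∏ n ∈ S, (1 + θ n) ≤ L * ∏ n ∈ S, (1 - θ n)) :
    ∃ w : Finset ℕ → ℝ, (∀ ω, 0 ≤ w ω) ∧ (∀ ω, ¬ ω ⊆ S → w ω = 0) ∧
      ∑ ω ∈ S.powerset, w ω = 1 ∧
      (∀ ω ∈ S.powerset, 1 / 2 * ((∏ n ∈ ω, θ n) * ∏ n ∈ S, (1 - θ n)) ≤ w ω) ∧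
      ∀ F ⊆ S, #F ≤ k → ∑ ω ∈ S.powerset with F ⊆ ω, w ω = s #F * ∏ n ∈ F, θ n := by
  classical
  have hP : 0 ≤ ∏ n ∈ S, (1 - θ n) := Finset.prod_nonneg fun n hn => by
    have := (hS n hn).2
    linarith
  obtain ⟨w, hw1, hw2, hw3⟩ := law_pos S θ (fun n hn => (hS n hn).1.le)
    (fun n hn => by have := (hS n hn).2; linarith) k
    (fun F => s #F - 1) (by simp [hs0]) e
    (fun F hF hk => by
      obtain ⟨h3, h4⟩ := hs #F hk
      rw [abs_le]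
      constructor <;> linarith)
    he0
    (by
      refine (mul_le_mul_of_nonneg_left hSL he0).trans ?_
      rw [← mul_assoc]
      exact mul_le_mul_of_nonneg_right heL hP)
  refine ⟨fun ω => if ω ⊆ S then w ω else 0, fun ω => ?_, fun ω h => if_neg h, ?_, ?_, ?_⟩
  · by_cases h : ω ⊆ S
    · have h1 : (if ω ⊆ S then w ω else 0) = w ω := if_pos h
      have h2 := hw1 ω (Finset.mem_powerset.2 h)
      have h3 : 0 ≤ ∏ n ∈ ω, θ n := Finset.prod_nonneg fun n hn => (hS n (h hn)).1.le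
      have h4 : 0 ≤ 1 / 2 * ((∏ n ∈ ω, θ n) * ∏ n ∈ S, (1 - θ n)) := by positivity
      change 0 ≤ (if ω ⊆ S then w ω else 0)
      rw [h1]
      exact h4.trans h2
    · have h1 : (if ω ⊆ S then w ω else 0) = 0 := if_neg h
      exact h1.ge
  · rw [← hw2]
    exact Finset.sum_congr rfl fun ω hω => if_pos (Finset.mem_powerset.1 hω)
  · intro ω hω
    have h1 : (if ω ⊆ S then w ω else 0) = w ω := if_pos (Finset.mem_powerset.1 hω)
    exact (hw1 ω hω).trans h1.ge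
  · intro F hF hk
    have h4 := hw3 F hF hk
    rw [add_sub_cancel] at h4
    rw [← h4]
    exact Finset.sum_congr rfl fun ω hω =>
      if_pos (Finset.mem_powerset.1 (Finset.mem_filter.1 hω).1)

/-- The law of an odd block. -/
theorem P8_odd_abs (S : Finset ℕ) (θ : ℕ → ℝ) (k : ℕ) (s : ℕ → ℝ) (hs0 : s 0 = 1) (e L τ : ℝ)
    (he0 : 0 ≤ e) (hL : 1 ≤ L) (hsm : 18 * e * L ^ 2 ≤ 1)
    (hs : ∀ m, m ≤ k → 1 - e ≤ s m ∧ s m ≤ 1)
    (hS : ∀ n ∈ S, 0 < θ n ∧ θ n ≤ 1 / 2)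
    (hSL : ∏ n ∈ S, (1 + θ n) ≤ L * ∏ n ∈ S, (1 - θ n))
    (hτ : 0 < τ) (hτ1 : τ ≤ 1 / 2) (hlo : ∀ n ∈ S, τ ≤ θ n)
    (hbig : 16 * (2 * (k : ℝ) + 1) ≤ τ * #S) (g h : ℕ → ℝ) (hg0 : g 0 = 0) (hh0 : h 0 = 0)
    (hg : ∀ m, m ≤ k → |g m| ≤ 4 * e * L) (hh : ∀ m, m ≤ k → |h m| ≤ 4 * e * L) :
    ∃ w : Finset ℕ → ℝ, (∀ ω, 0 ≤ w ω) ∧ (∀ ω, ¬ ω ⊆ S → w ω = 0) ∧ w ∅ = 0 ∧
      ∑ ω ∈ S.powerset, w ω = 1 ∧
      ∀ F ⊆ S, #F ≤ k →
        ∑ ω ∈ S.powerset with F ⊆ ω, w ω = (s #F + g #F + h #F) * ∏ n ∈ F, θ n := by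
  classical
  have hP : 0 ≤ ∏ n ∈ S, (1 - θ n) := Finset.prod_nonneg fun n hn => by
    have := (hS n hn).2
    linarith
  have hL0 : 0 ≤ L := by linarith
  have h9 : 0 ≤ 9 * e * L := by positivity
  obtain ⟨w, hw1, hw2, hw3, hw4⟩ := law_ne S θ k τ hτ hτ1 hlo
    (fun n hn => by have := (hS n hn).2; linarith) hbig
    (fun F => s #F - 1 + g #F + h #F)
    (by simp [hs0, hg0, hh0])
    (9 * e * L)
    (fun F hF hk => by
      obtain ⟨h3, h4⟩ := hs #F hk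
      have h6 : e * 1 ≤ e * L := mul_le_mul_of_nonneg_left hL he0
      have h6' := abs_le.1 (hg #F hk)
      have h7' := abs_le.1 (hh #F hk)
      rw [abs_le]
      constructor <;> linarith)
    h9
    (by
      refine (mul_le_mul_of_nonneg_left hSL h9).trans ?_
      rw [← mul_assoc]
      refine mul_le_mul_of_nonneg_right ?_ hP
      have h5 : 9 * e * L * L = 1 / 2 * (18 * e * L ^ 2) := by ring
      rw [h5]
      linarith)
  refine ⟨fun ω => if ω ⊆ S then w ω else 0, fun ω => ?_, fun ω h => if_neg h, ?_, ?_, ?_⟩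
  · by_cases h : ω ⊆ S
    · have h1 : (if ω ⊆ S then w ω else 0) = w ω := if_pos h
      exact (hw1 ω (Finset.mem_powerset.2 h)).trans h1.ge
    · have h1 : (if ω ⊆ S then w ω else 0) = 0 := if_neg h
      exact h1.ge
  · exact (if_pos (Finset.empty_subset S)).trans hw2
  · rw [← hw3]
    exact Finset.sum_congr rfl fun ω hω => if_pos (Finset.mem_powerset.1 hω)
  · intro F hF hk
    have h4 := hw4 F hF hk
    have h5 : 1 + (s #F - 1 + g #F + h #F) = s #F + g #F + h #F := by ring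
    rw [h5] at h4
    rw [← h4]
    exact Finset.sum_congr rfl fun ω hω =>
      if_pos (Finset.mem_powerset.1 (Finset.mem_filter.1 hω).1)

/-- The interaction of order zero vanishes. -/
theorem P8_gg0 (S : Finset ℕ) (θ : ℕ → ℝ) (k : ℕ) (s : ℕ → ℝ) (hs0 : s 0 = 1) (w : Finset ℕ → ℝ)
    (ζ : Finset ℕ) : gg S θ k s w 0 ζ = 0 := by
  unfold gg mb
  rw [div_eq_zero_iff]
  left
  refine Finset.sum_eq_zero fun F _ => ?_
  simp only [zero_add, hs0, one_mul, sub_self, mul_zero, zero_mul]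

/-- The mean of the interaction. -/
theorem P8_mean (S : Finset ℕ) (θ : ℕ → ℝ) (k : ℕ) (s : ℕ → ℝ) (hs0 : s 0 = 1) (w : Finset ℕ → ℝ)
    (hw : ∀ ω ∈ S.powerset, 0 < w ω) (m : ℕ) : ∑ ζ ∈ S.powerset, w ζ * gg S θ k s w m ζ = 0 := by
  classical
  have h := gg_incl S θ k s w hw m ∅ (Finset.empty_subset _) (Nat.zero_le _)
  simp only [Finset.card_empty, add_zero, hs0, mul_one, sub_self, zero_mul] at h
  rw [← h]
  refine Finset.sum_congr ?_ fun _ _ => rfl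
  exact (Finset.filter_true_of_mem fun ω _ => Finset.empty_subset ω).symm

/-- The left identity. -/
theorem P8_left (Sl Sr : Finset ℕ) (θ : ℕ → ℝ) (k : ℕ) (s : ℕ → ℝ) (hs0 : s 0 = 1)
    (ul ur : Finset ℕ → ℝ) (hul : ∀ ω ∈ Sl.powerset, 0 < ul ω) (hur : ∀ ω ∈ Sr.powerset, 0 < ur ω)
    (hur1 : ∑ ω ∈ Sr.powerset, ur ω = 1)
    (hulF : ∀ F ⊆ Sl, #F ≤ k → ∑ ω ∈ Sl.powerset with F ⊆ ω, ul ω = s #F * ∏ n ∈ F, θ n)
    (c : Prop) [Decidable c] (F : Finset ℕ) (I : Finset ℕ → Finset ℕ → ℝ)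
    (hI : ∀ z, z ⊆ Sl → ∀ z', z' ⊆ Sr → I z z' = (s #F + gg Sl θ k s ul #F z +
      if c then gg Sr θ k s ur #F z' else 0) * ∏ n ∈ F, θ n)
    (F' : Finset ℕ) (hF' : F' ⊆ Sl) (hk' : #F' ≤ k) :
    ∑ z ∈ Sl.powerset with F' ⊆ z, ∑ z' ∈ Sr.powerset, ul z * ur z' * I z z' =
      s (#F + #F') * (∏ n ∈ F, θ n) * ∏ n ∈ F', θ n := by
  classical
  obtain ⟨p, hp⟩ : ∃ p, ∏ n ∈ F, θ n = p := ⟨_, rfl⟩
  rw [hp] at hI ⊢
  have e3 : ∑ z' ∈ Sr.powerset, (if c then ur z' * gg Sr θ k s ur #F z' else 0) = 0 := by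
    split_ifs
    · exact P8_mean Sr θ k s hs0 ur hur #F
    · exact Finset.sum_const_zero
  have e1 : ∀ z ∈ Sl.powerset.filter (fun z => F' ⊆ z),
      ∑ z' ∈ Sr.powerset, ul z * ur z' * I z z' =
      p * s #F * ul z + p * (ul z * gg Sl θ k s ul #F z) := by
    intro z hz
    have e2 : ∀ z' ∈ Sr.powerset, ul z * ur z' * I z z' =
        ul z * p * (s #F + gg Sl θ k s ul #F z) * ur z' +
        ul z * p * (if c then ur z' * gg Sr θ k s ur #F z' else 0) := by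
      intro z' hz'
      rw [hI z (Finset.mem_powerset.1 (Finset.mem_filter.1 hz).1) z' (Finset.mem_powerset.1 hz')]
      split_ifs <;> ring
    rw [Finset.sum_congr rfl e2, Finset.sum_add_distrib, ← Finset.mul_sum, ← Finset.mul_sum, hur1,
      e3]
    ring
  rw [Finset.sum_congr rfl e1, Finset.sum_add_distrib, ← Finset.mul_sum, ← Finset.mul_sum,
    hulF F' hF' hk', gg_incl Sl θ k s ul hul #F F' hF' hk']
  ring

/-- The right identity. -/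
theorem P8_right (Sl Sr : Finset ℕ) (θ : ℕ → ℝ) (k : ℕ) (s : ℕ → ℝ) (hs0 : s 0 = 1)
    (ul ur : Finset ℕ → ℝ) (hul : ∀ ω ∈ Sl.powerset, 0 < ul ω) (hur : ∀ ω ∈ Sr.powerset, 0 < ur ω)
    (hul1 : ∑ ω ∈ Sl.powerset, ul ω = 1)
    (hurF : ∀ F ⊆ Sr, #F ≤ k → ∑ ω ∈ Sr.powerset with F ⊆ ω, ur ω = s #F * ∏ n ∈ F, θ n)
    (F : Finset ℕ) (I : Finset ℕ → Finset ℕ → ℝ)
    (hI : ∀ z, z ⊆ Sl → ∀ z', z' ⊆ Sr → I z z' = (s #F + gg Sl θ k s ul #F z +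
      gg Sr θ k s ur #F z') * ∏ n ∈ F, θ n)
    (F' : Finset ℕ) (hF' : F' ⊆ Sr) (hk' : #F' ≤ k) :
    ∑ z ∈ Sl.powerset, ∑ z' ∈ Sr.powerset with F' ⊆ z', ul z * ur z' * I z z' =
      s (#F + #F') * (∏ n ∈ F, θ n) * ∏ n ∈ F', θ n := by
  classical
  obtain ⟨p, hp⟩ : ∃ p, ∏ n ∈ F, θ n = p := ⟨_, rfl⟩
  rw [hp] at hI ⊢
  rw [Finset.sum_comm]
  have e1 : ∀ z' ∈ Sr.powerset.filter (fun z' => F' ⊆ z'),
      ∑ z ∈ Sl.powerset, ul z * ur z' * I z z' =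
      p * s #F * ur z' + p * (ur z' * gg Sr θ k s ur #F z') := by
    intro z' hz'
    have e2 : ∀ z ∈ Sl.powerset, ul z * ur z' * I z z' =
        ur z' * p * (s #F + gg Sr θ k s ur #F z') * ul z +
        ur z' * p * (ul z * gg Sl θ k s ul #F z) := by
      intro z hz
      rw [hI z (Finset.mem_powerset.1 hz) z' (Finset.mem_powerset.1 (Finset.mem_filter.1 hz').1)]
      ring
    rw [Finset.sum_congr rfl e2, Finset.sum_add_distrib, ← Finset.mul_sum, ← Finset.mul_sum, hul1,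
      P8_mean Sl θ k s hs0 ul hul #F]
    ring
  rw [Finset.sum_congr rfl e1, Finset.sum_add_distrib, ← Finset.mul_sum, ← Finset.mul_sum,
    hurF F' hF' hk', gg_incl Sr θ k s ur hur #F F' hF' hk']
  ring

/-- The laws of the even blocks. -/
theorem P8_even {κ : ℕ → ℕ} {J : ℕ} (hκ : GoodK κ J) (i : ℕ) : ∃ u : Finset ℕ → ℝ,
    (∀ ω, 0 ≤ u ω) ∧ (∀ ω, ¬ ω ⊆ sites dens (bK κ) J i → u ω = 0) ∧
    ∑ ω ∈ (sites dens (bK κ) J i).powerset, u ω = 1 ∧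
    (IsBlk (bK κ) J i → (∀ ω ∈ (sites dens (bK κ) J i).powerset,
        1 / 2 * ((∏ n ∈ ω, dens n) * ∏ n ∈ sites dens (bK κ) J i, (1 - dens n)) ≤ u ω) ∧
      ∀ F ⊆ sites dens (bK κ) J i, #F ≤ κ (Nat.log 2 i) →
        ∑ ω ∈ (sites dens (bK κ) J i).powerset with F ⊆ ω, u ω =
          tailF (TL (Nat.log 2 i)) #F * ∏ n ∈ F, dens n) := by
  classical
  by_cases hi : IsBlk (bK κ) J i
  · obtain ⟨h1, h2⟩ := P8_block hκ i hi
    have hj : J ≤ Nat.log 2 i := hi.1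
    obtain ⟨w, hw1, hw2, hw3, hw4, hw5⟩ := P8_even_abs (sites dens (bK κ) J i) dens
      (κ (Nat.log 2 i)) (fun m => tailF (TL (Nat.log 2 i)) m) (tailF_zero _)
      (P8_e κ (Nat.log 2 i)) (P8_L κ (Nat.log 2 i)) (P8_e_nonneg κ _) (P8_eL hκ _ hj).1
      (fun m hm => P8_s hκ (Nat.log 2 i) hj m (by omega)) h1 h2
    exact ⟨w, hw1, hw2, hw3, fun _ => ⟨hw4, hw5⟩⟩
  · have hS : sites dens (bK κ) J i = ∅ := if_neg hi
    rw [hS]
    refine ⟨fun ω => if ω = ∅ then 1 else 0, ?_, ?_, ?_, fun h => absurd h hi⟩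
    · intro ω
      change (0 : ℝ) ≤ if ω = ∅ then 1 else 0
      split_ifs <;> norm_num
    · intro ω h
      refine if_neg ?_
      rintro rfl
      exact h (Finset.Subset.refl _)
    · simp

/-- The law of an odd block with given neighbours. -/
theorem P8_odd {κ : ℕ → ℕ} {J : ℕ} (hκ : GoodK κ J) (u : ℕ → Finset ℕ → ℝ)
    (hu : ∀ i, IsBlk (bK κ) J i → ∀ ω ∈ (sites dens (bK κ) J i).powerset,
        1 / 2 * ((∏ n ∈ ω, dens n) * ∏ n ∈ sites dens (bK κ) J i, (1 - dens n)) ≤ u i ω)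
    (i : ℕ) (hi : IsBlk (bK κ) J i) (ho : OddB (bK κ) i) (z z' : Finset ℕ)
    (hz : z ⊆ sites dens (bK κ) J (i - len (bK κ) i))
    (hz' : z' ⊆ sites dens (bK κ) J (i + len (bK κ) i)) : ∃ v : Finset ℕ → ℝ,
    (∀ ω, 0 ≤ v ω) ∧ (∀ ω, ¬ ω ⊆ sites dens (bK κ) J i → v ω = 0) ∧ v ∅ = 0 ∧
    ∑ ω ∈ (sites dens (bK κ) J i).powerset, v ω = 1 ∧
    ∀ F ⊆ sites dens (bK κ) J i, #F ≤ κ (Nat.log 2 i) →
        ∑ ω ∈ (sites dens (bK κ) J i).powerset with F ⊆ ω, v ω =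
          (tailF (TL (Nat.log 2 i)) #F +
            gg (sites dens (bK κ) J (i - len (bK κ) i)) dens (κ (Nat.log 2 i))
              (fun m => tailF (TL (Nat.log 2 i)) m) (u (i - len (bK κ) i)) #F z +
            if Nat.log 2 (i + len (bK κ) i) = Nat.log 2 i then
              gg (sites dens (bK κ) J (i + len (bK κ) i)) dens (κ (Nat.log 2 i))
                (fun m => tailF (TL (Nat.log 2 i)) m) (u (i + len (bK κ) i)) #F z' else 0) *
            ∏ n ∈ F, dens n := by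
  have hb := goodB_bK hκ
  obtain ⟨hl1, hl2, hl3, hl4⟩ := left_nb hb hi ho
  obtain ⟨hr1, hr2, hr3⟩ := right_nb hb hi ho
  have hj : J ≤ Nat.log 2 i := hi.1
  obtain ⟨h1, h2⟩ := P8_block hκ i hi
  obtain ⟨hL1, hL2⟩ := P8_block hκ _ hl2
  obtain ⟨hR1, hR2⟩ := P8_block hκ _ hr1
  rw [hl4] at hL2
  obtain ⟨τ, hτ1, hτ2, hτ3, hτ4⟩ := sites_ge hκ i hi
  have he0 := P8_e_nonneg κ (Nat.log 2 i)
  have hL := P8_L_ge κ (Nat.log 2 i)
  have hs : ∀ m, m ≤ 2 * κ (Nat.log 2 i) → 1 - P8_e κ (Nat.log 2 i) ≤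
      tailF (TL (Nat.log 2 i)) m ∧ tailF (TL (Nat.log 2 i)) m ≤ 1 :=
    fun m hm => P8_s hκ _ hj m hm
  refine P8_odd_abs (sites dens (bK κ) J i) dens (κ (Nat.log 2 i))
    (fun m => tailF (TL (Nat.log 2 i)) m) (tailF_zero _) (P8_e κ (Nat.log 2 i))
    (P8_L κ (Nat.log 2 i)) τ he0 hL (P8_small hκ _ hj) (fun m hm => hs m (by omega)) h1 h2 hτ1 hτ2
    (fun n hn => (hτ3 n hn).1) hτ4
    (fun m => gg (sites dens (bK κ) J (i - len (bK κ) i)) dens (κ (Nat.log 2 i))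
              (fun m => tailF (TL (Nat.log 2 i)) m) (u (i - len (bK κ) i)) m z)
    (fun m => if Nat.log 2 (i + len (bK κ) i) = Nat.log 2 i then
              gg (sites dens (bK κ) J (i + len (bK κ) i)) dens (κ (Nat.log 2 i))
                (fun m => tailF (TL (Nat.log 2 i)) m) (u (i + len (bK κ) i)) m z' else 0)
    (P8_gg0 _ _ _ _ (tailF_zero _) _ _) ?_ ?_ ?_
  · have h0 := P8_gg0 (sites dens (bK κ) J (i + len (bK κ) i)) dens (κ (Nat.log 2 i))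
      (fun m => tailF (TL (Nat.log 2 i)) m) (tailF_zero _) (u (i + len (bK κ) i)) z'
    change (if Nat.log 2 (i + len (bK κ) i) = Nat.log 2 i then _ else (0 : ℝ)) = 0
    split_ifs
    · exact h0
    · rfl
  · intro m hm
    exact gg_abs _ dens (fun n hn => (hL1 n hn).1)
      (fun n hn => by have := (hL1 n hn).2; linarith) (κ (Nat.log 2 i)) _ _ (hu _ hl2) m _ he0
      (P8_eL hκ _ hj).2 (fun t ht => hs t (by omega)) _ hL2 z hz
  · intro m hm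
    split_ifs with h
    · rw [h] at hR2
      exact gg_abs _ dens (fun n hn => (hR1 n hn).1)
        (fun n hn => by have := (hR1 n hn).2; linarith) (κ (Nat.log 2 i)) _ _ (hu _ hr1) m _ he0
        (P8_eL hκ _ hj).2 (fun t ht => hs t (by omega)) _ hR2 z' hz'
    · rw [abs_zero]
      have : 0 ≤ P8_L κ (Nat.log 2 i) := by linarith
      positivity

/-- All the laws together. -/
theorem P8_glue {κ : ℕ → ℕ} {J : ℕ} (hb : GoodB (bK κ) J) (θ : ℕ → ℝ)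
    (hθ : ∀ i, IsBlk (bK κ) J i → ∀ n ∈ sites θ (bK κ) J i, 0 < θ n ∧ θ n ≤ 1 / 2)
    (s : ℕ → ℕ → ℝ) (hs0 : ∀ j, s j 0 = 1)
    (u : ℕ → Finset ℕ → ℝ)
    (hu1 : ∀ i ω, 0 ≤ u i ω) (hu2 : ∀ i ω, ¬ ω ⊆ sites θ (bK κ) J i → u i ω = 0)
    (hu3 : ∀ i, ∑ ω ∈ (sites θ (bK κ) J i).powerset, u i ω = 1)
    (hu4 : ∀ i, IsBlk (bK κ) J i → ∀ ω ∈ (sites θ (bK κ) J i).powerset,
        1 / 2 * ((∏ n ∈ ω, θ n) * ∏ n ∈ sites θ (bK κ) J i, (1 - θ n)) ≤ u i ω)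
    (hu5 : ∀ i, IsBlk (bK κ) J i → ∀ F ⊆ sites θ (bK κ) J i, #F ≤ κ (Nat.log 2 i) →
        ∑ ω ∈ (sites θ (bK κ) J i).powerset with F ⊆ ω, u i ω =
          s (Nat.log 2 i) #F * ∏ n ∈ F, θ n)
    (v : ∀ i, IsBlk (bK κ) J i → OddB (bK κ) i → ∀ z z' : Finset ℕ,
      z ⊆ sites θ (bK κ) J (i - len (bK κ) i) → z' ⊆ sites θ (bK κ) J (i + len (bK κ) i) →
      Finset ℕ → ℝ)
    (hv1 : ∀ i hi ho z z' hz hz' ω, 0 ≤ v i hi ho z z' hz hz' ω)
    (hv2 : ∀ i hi ho z z' hz hz' ω, ¬ ω ⊆ sites θ (bK κ) J i → v i hi ho z z' hz hz' ω = 0)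
    (hv3 : ∀ i hi ho z z' hz hz', v i hi ho z z' hz hz' ∅ = 0)
    (hv4 : ∀ i hi ho z z' hz hz',
      ∑ ω ∈ (sites θ (bK κ) J i).powerset, v i hi ho z z' hz hz' ω = 1)
    (hv5 : ∀ i hi ho z z' hz hz', ∀ F ⊆ sites θ (bK κ) J i, #F ≤ κ (Nat.log 2 i) →
        ∑ ω ∈ (sites θ (bK κ) J i).powerset with F ⊆ ω, v i hi ho z z' hz hz' ω =
          (s (Nat.log 2 i) #F +
            gg (sites θ (bK κ) J (i - len (bK κ) i)) θ (κ (Nat.log 2 i))
              (s (Nat.log 2 i)) (u (i - len (bK κ) i)) #F z +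
            if Nat.log 2 (i + len (bK κ) i) = Nat.log 2 i then
              gg (sites θ (bK κ) J (i + len (bK κ) i)) θ (κ (Nat.log 2 i))
                (s (Nat.log 2 i)) (u (i + len (bK κ) i)) #F z' else 0) *
            ∏ n ∈ F, θ n) :
    ∃ w, Sys θ (bK κ) κ s J w := by
  classical
  obtain ⟨w, hw⟩ : ∃ w : ℕ → Finset ℕ → Finset ℕ → Finset ℕ → ℝ, w = fun i z z' =>
    if h : IsBlk (bK κ) J i ∧ OddB (bK κ) i then
      v i h.1 h.2 (z ∩ sites θ (bK κ) J (i - len (bK κ) i))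
        (z' ∩ sites θ (bK κ) J (i + len (bK κ) i))
        Finset.inter_subset_right Finset.inter_subset_right else u i := ⟨_, rfl⟩
  have hodd : ∀ i (hi : IsBlk (bK κ) J i) (ho : OddB (bK κ) i) (z z' : Finset ℕ),
      w i z z' = v i hi ho (z ∩ sites θ (bK κ) J (i - len (bK κ) i))
        (z' ∩ sites θ (bK κ) J (i + len (bK κ) i))
        Finset.inter_subset_right Finset.inter_subset_right := by
    intro i hi ho z z'
    rw [hw]
    exact dif_pos ⟨hi, ho⟩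
  have heven : ∀ i, ¬ (IsBlk (bK κ) J i ∧ OddB (bK κ) i) → ∀ z z' : Finset ℕ,
      w i z z' = u i := by
    intro i hi z z'
    rw [hw]
    exact dif_neg hi
  clear hw
  -- the inner sum
  have hinner : ∀ i, IsBlk (bK κ) J i → OddB (bK κ) i →
      ∀ F ⊆ sites θ (bK κ) J i, #F ≤ κ (Nat.log 2 i) →
      ∀ z, z ⊆ sites θ (bK κ) J (i - len (bK κ) i) →
      ∀ z', z' ⊆ sites θ (bK κ) J (i + len (bK κ) i) →
      ∑ ω ∈ (sites θ (bK κ) J i).powerset with F ⊆ ω, w i z z' ω =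
          (s (Nat.log 2 i) #F +
            gg (sites θ (bK κ) J (i - len (bK κ) i)) θ (κ (Nat.log 2 i))
              (s (Nat.log 2 i)) (u (i - len (bK κ) i)) #F z +
            if Nat.log 2 (i + len (bK κ) i) = Nat.log 2 i then
              gg (sites θ (bK κ) J (i + len (bK κ) i)) θ (κ (Nat.log 2 i))
                (s (Nat.log 2 i)) (u (i + len (bK κ) i)) #F z' else 0) *
            ∏ n ∈ F, θ n := by
    intro i hi ho F hF hk z hz z' hz'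
    have h := hv5 i hi ho (z ∩ sites θ (bK κ) J (i - len (bK κ) i))
        (z' ∩ sites θ (bK κ) J (i + len (bK κ) i))
        Finset.inter_subset_right Finset.inter_subset_right F hF hk
    rw [← hodd i hi ho z z', Finset.inter_eq_left.2 hz, Finset.inter_eq_left.2 hz'] at h
    exact h
  have hpos : ∀ i, IsBlk (bK κ) J i → ∀ ω ∈ (sites θ (bK κ) J i).powerset, 0 < u i ω := by
    intro i hi ω hω
    refine lt_of_lt_of_le ?_ (hu4 i hi ω hω)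
    have h3 : 0 < ∏ n ∈ ω, θ n := Finset.prod_pos fun n hn =>
      (hθ i hi n (Finset.mem_powerset.1 hω hn)).1
    have h4 : 0 < ∏ n ∈ sites θ (bK κ) J i, (1 - θ n) := Finset.prod_pos fun n hn => by
      have := (hθ i hi n hn).2
      linarith
    positivity
  refine ⟨w, ⟨?_, ?_, ?_, ?_, ?_, ?_, ?_⟩⟩
  · intro i z z' ω
    by_cases h : IsBlk (bK κ) J i ∧ OddB (bK κ) i
    · rw [hodd i h.1 h.2]
      exact hv1 _ _ _ _ _ _ _ _
    · rw [heven i h]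
      exact hu1 i ω
  · intro i z z' ω hω
    by_cases h : IsBlk (bK κ) J i ∧ OddB (bK κ) i
    · rw [hodd i h.1 h.2]
      exact hv2 _ _ _ _ _ _ _ _ hω
    · rw [heven i h]
      exact hu2 i ω hω
  · intro i z z'
    by_cases h : IsBlk (bK κ) J i ∧ OddB (bK κ) i
    · rw [hodd i h.1 h.2]
      exact hv4 _ _ _ _ _ _ _
    · rw [heven i h]
      exact hu3 i
  · intro i hi ho F hF hk
    rw [heven i (fun h => ho h.2)]
    exact hu5 i hi F hF hk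
  · intro i hi ho z z'
    rw [hodd i hi ho]
    exact hv3 _ _ _ _ _ _ _
  · -- the left identity
    intro i hi ho F hF hk F' hF' hk'
    obtain ⟨hl1, hl2, hl3, hl4⟩ := left_nb hb hi ho
    obtain ⟨hr1, hr2, hr3⟩ := right_nb hb hi ho
    rw [heven _ (fun h => hl3 h.2) ∅ ∅, heven _ (fun h => hr2 h.2) ∅ ∅]
    have h5 := hu5 _ hl2
    rw [hl4] at h5
    exact P8_left (sites θ (bK κ) J (i - len (bK κ) i)) (sites θ (bK κ) J (i + len (bK κ) i)) θ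
      (κ (Nat.log 2 i)) (s (Nat.log 2 i)) (hs0 _) (u (i - len (bK κ) i)) (u (i + len (bK κ) i))
      (hpos _ hl2) (hpos _ hr1) (hu3 _) h5 (Nat.log 2 (i + len (bK κ) i) = Nat.log 2 i) F
      (fun z z' => ∑ ω ∈ (sites θ (bK κ) J i).powerset with F ⊆ ω, w i z z' ω)
      (hinner i hi ho F hF hk) F' hF' hk'
  · -- the right identity
    intro i hi ho hlev F hF hk F' hF' hk'
    obtain ⟨hl1, hl2, hl3, hl4⟩ := left_nb hb hi ho
    obtain ⟨hr1, hr2, hr3⟩ := right_nb hb hi ho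
    rw [heven _ (fun h => hl3 h.2) ∅ ∅, heven _ (fun h => hr2 h.2) ∅ ∅]
    have h5 := hu5 _ hr1
    rw [hlev] at h5
    refine P8_right (sites θ (bK κ) J (i - len (bK κ) i)) (sites θ (bK κ) J (i + len (bK κ) i)) θ
      (κ (Nat.log 2 i)) (s (Nat.log 2 i)) (hs0 _) (u (i - len (bK κ) i)) (u (i + len (bK κ) i))
      (hpos _ hl2) (hpos _ hr1) (hu3 _) h5 F
      (fun z z' => ∑ ω ∈ (sites θ (bK κ) J i).powerset with F ⊆ ω, w i z z' ω)
      (fun z hz z' hz' => ?_) F' hF' hk'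
    have h := hinner i hi ho F hF hk z hz z' hz'
    rw [if_pos hlev] at h
    exact h

/-- P8: the system of laws. -/
theorem exists_sys {κ : ℕ → ℕ} {J : ℕ} (hκ : GoodK κ J) :
    ∃ w, Sys dens (bK κ) κ (fun j m => tailF (TL j) m) J w := by
  choose u hu1 hu2 hu3 hu4 using fun i => P8_even hκ i
  choose v hv1 hv2 hv3 hv4 hv5 using P8_odd hκ u fun i hi => (hu4 i hi).1
  exact P8_glue (goodB_bK hκ) dens (fun i hi => (P8_block hκ i hi).1)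
    (fun j m => tailF (TL j) m) (fun j => tailF_zero _) u hu1 hu2 hu3 (fun i hi => (hu4 i hi).1)
    (fun i hi => (hu4 i hi).2) v hv1 hv2 hv3 hv4 hv5

end Pool.Agent.LibTHL
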