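import Pool.Agent.LibTHL.Model3
import Pool.Agent.LibTHL.Counts
import Pool.Agent.LibTHL.Sys
import Pool.Agent.LibTHL.Exp
import Pool.Agent.LibTHL.Main
import Pool.Agent.LibTHL.Kappa

/-! The construction. -/

set_option autoImplicit false

namespace Pool.Agent.LibTHL

open Finset MeasureTheory ProbabilityTheory Filter
open Pool.Agent.LibBar93 (sieveLim dens cls sh cls_sub card_cls log_facts)
open Pool.Agent.LibCI99 (cnt hlConst)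
open scoped ENNReal

theorem combine (x : ℕ) (hx : 2 ≤ x) (C1 C2 C3 X1 X2 X3 X4 : ℝ)
    (e1 : |X1 - X2| ≤ C1 * √x * Real.log x ^ 3) (e2 : |X2 - X3| ≤ C2 * Real.log x)
    (e3 : |X3 - X4| ≤ C3 * √x) :
    |X1 - X4| ≤ (C1 + 4 * |C2| + 8 * |C3|) * √x * Real.log x ^ 3 := by
  obtain ⟨hL, hl2, hl0⟩ := log_facts x hx
  have hx' : (2 : ℝ) ≤ x := by exact_mod_cast hx
  have hsq : 1 ≤ √(x : ℝ) := Real.one_le_sqrt.2 (by linarith)
  have h5 : (1 : ℝ) ≤ 8 * Real.log x ^ 3 := by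
    calc (1 : ℝ) ≤ (2 * Real.log x) ^ 3 := one_le_pow₀ hl2
      _ = 8 * Real.log x ^ 3 := by ring
  have h6 : (1 : ℝ) ≤ 4 * Real.log x ^ 2 := by
    calc (1 : ℝ) ≤ (2 * Real.log x) ^ 2 := one_le_pow₀ hl2
      _ = 4 * Real.log x ^ 2 := by ring
  have hc2 : 0 ≤ |C2| := abs_nonneg _
  have hc3 : 0 ≤ |C3| := abs_nonneg _
  have hs0 : 0 ≤ √(x : ℝ) := Real.sqrt_nonneg _
  have t2 : C2 * Real.log x ≤ 4 * |C2| * √x * Real.log x ^ 3 := by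
    have a1 : C2 * Real.log x ≤ |C2| * Real.log x :=
      mul_le_mul_of_nonneg_right (le_abs_self _) hl0.le
    have a2 : |C2| * Real.log x ≤ |C2| * Real.log x * (√x * (4 * Real.log x ^ 2)) :=
      le_mul_of_one_le_right (mul_nonneg hc2 hl0.le) (one_le_mul_of_one_le_of_one_le hsq h6)
    calc C2 * Real.log x ≤ |C2| * Real.log x * (√x * (4 * Real.log x ^ 2)) := a1.trans a2
      _ = 4 * |C2| * √x * Real.log x ^ 3 := by ring
  have t3 : C3 * √x ≤ 8 * |C3| * √x * Real.log x ^ 3 := by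
    have a1 : C3 * √x ≤ |C3| * √x := mul_le_mul_of_nonneg_right (le_abs_self _) hs0
    have a2 : |C3| * √x ≤ |C3| * √x * (8 * Real.log x ^ 3) :=
      le_mul_of_one_le_right (mul_nonneg hc3 hs0) h5
    calc C3 * √x ≤ |C3| * √x * (8 * Real.log x ^ 3) := a1.trans a2
      _ = 8 * |C3| * √x * Real.log x ^ 3 := by ring
  have e : |X1 - X4| ≤ |X1 - X2| + |X2 - X3| + |X3 - X4| := by
    have a1 := abs_sub_le X1 X2 X4
    have a2 := abs_sub_le X2 X3 X4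
    linarith
  calc |X1 - X4| ≤ |X1 - X2| + |X2 - X3| + |X3 - X4| := e
    _ ≤ C1 * √x * Real.log x ^ 3 + C2 * Real.log x + C3 * √x := add_le_add (add_le_add e1 e2) e3
    _ ≤ C1 * √x * Real.log x ^ 3 + 4 * |C2| * √x * Real.log x ^ 3 +
        8 * |C3| * √x * Real.log x ^ 3 := add_le_add (add_le_add le_rfl t2) t3
    _ = (C1 + 4 * |C2| + 8 * |C3|) * √x * Real.log x ^ 3 := by ring

theorem gap_arith (j c1 c2 p b : ℕ) (hj : 64 ≤ j) (h1 : 1 ≤ c1) (h2 : c1 ≤ c2) (h3 : c2 ≤ p)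
    (hb : b ≤ 64 * (2 * c2 + 1) * (j + 1 + 1)) : b ≤ 64 * 3 * 2 * (p * j) := by
  have h4 : 2 * c2 + 1 ≤ 3 * p := by omega
  have h5 : j + 1 + 1 ≤ 2 * j := by omega
  calc b ≤ 64 * (2 * c2 + 1) * (j + 1 + 1) := hb
    _ ≤ 64 * (3 * p) * (2 * j) := Nat.mul_le_mul (Nat.mul_le_mul_left _ h4) h5
    _ = 64 * 3 * 2 * (p * j) := by ring

theorem gap_final (m a j p : ℕ) (hj : j = Nat.log 2 m) (hm8 : 8 ≤ m)
    (c3 : a ≤ m + 64 * 5 * 3 * 2 * (p * j)) :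
    (a : ℝ) ≤ m + (64 * 5 * 3 * 6) * p * Real.log m := by
  have hlog : (j : ℝ) * Real.log 2 ≤ Real.log m := by
    rw [hj, ← Real.log_pow]
    refine Real.log_le_log (by positivity) ?_
    exact_mod_cast Nat.pow_log_le_self 2 (by omega)
  have hl2 := Real.log_two_gt_d9
  have hj0 : (0 : ℝ) ≤ j := by positivity
  have hjl : (j : ℝ) ≤ 3 * Real.log m := by nlinarith
  have c4 : (a : ℝ) ≤ m + 64 * 5 * 3 * 2 * (p * j) := by exact_mod_cast c3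
  have hψ0 : (0 : ℝ) ≤ p := by positivity
  have : (p : ℝ) * j ≤ p * (3 * Real.log m) := mul_le_mul_of_nonneg_left hjl hψ0
  linarith

/-- F3: the construction. -/
theorem construct (ψ : ℕ → ℕ) (hψ : Tendsto ψ atTop atTop) :
    ∃ A : Set ℕ, HLSqrt A ∧ ∃ C : ℝ, 0 < C ∧ ∀ᶠ m : ℕ in atTop, ∃ a ∈ A, m < a ∧
      (a : ℝ) ≤ m + C * ψ (Nat.log 2 m) * Real.log m := by
  obtain ⟨κ, J, hκ, hκt, hκψ⟩ := exists_kappa ψ hψ
  obtain ⟨w, hw⟩ := exists_sys hκ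
  obtain ⟨Ω, mΩ, μ, hμ, A, P, hM⟩ := exists_model (fun n => LibBar93.weight_dens.nonneg n)
    (goodB_bK hκ) w hw
  have h1 : ∀ᵐ ω ∂μ, ∀ H : Finset ℕ, ∃ C : ℝ, ∀ x : ℕ, 2 ≤ x → ∀ q a : ℕ, 0 < q →
      |cnt (A ω) H q a x - ∑ n ∈ Icc 1 x with n ≡ a [MOD q], P (H.image (n + ·))| ≤
        C * √x * Real.log x ^ 3 := ae_all_iff.2 fun H => hM.counts hκ H
  obtain ⟨ω, h1, h2⟩ := (h1.and hM.hit).exists
  refine ⟨A ω, ?_, ?_⟩
  · intro H q a hq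
    obtain ⟨C1, hC1⟩ := h1 H
    obtain ⟨C2, hC2⟩ := hM.expect hκ hκt H
    obtain ⟨C3, hC3⟩ := main_term H q a hq
    exact ⟨C1 + 4 * |C2| + 8 * |C3|, fun x hx =>
      combine x hx C1 C2 C3 _ _ _ _ (hC1 x hx q a hq) (hC2 x hx q a) (hC3 x hx)⟩
  · refine ⟨64 * 5 * 3 * 6, by norm_num, ?_⟩
    filter_upwards [eventually_ge_atTop (2 ^ J), eventually_ge_atTop 8] with m hm hm8
    have hmJ : J ≤ Nat.log 2 m := Nat.le_log_of_pow_le one_lt_two hm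
    obtain ⟨a, ha, hma, hle⟩ := gap_of_hit (goodB_bK hκ) h2 m hmJ
    refine ⟨a, ha, hma, gap_final m a (Nat.log 2 m) (ψ (Nat.log 2 m)) rfl hm8 ?_⟩
    have k1 := hκψ (Nat.log 2 m) hmJ
    have k2 : κ (Nat.log 2 m) ≤ κ (Nat.log 2 m + 1) := hκ.mono (Nat.le_succ _)
    have k3 : 1 ≤ κ (Nat.log 2 m) := hκ.one _ hmJ
    have hj64 : 64 ≤ Nat.log 2 m := hκ.hJ.trans hmJ
    have c1 := gap_arith (Nat.log 2 m) _ _ _ (bK κ (Nat.log 2 m)) hj64 k3 le_rfl (k2.trans k1)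
      ((bK_le κ (Nat.log 2 m)).trans (Nat.mul_le_mul_left _ (Nat.le_succ _)))
    have c2 := gap_arith (Nat.log 2 m) _ _ _ (bK κ (Nat.log 2 m + 1)) hj64 k3 k2 k1
      (bK_le κ (Nat.log 2 m + 1))
    omega

end Pool.Agent.LibTHL
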