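import Pool.Agent.LibTHL.Defs

/-! Row F2: deleting a thin set. -/

set_option autoImplicit false

namespace Pool.Agent.LibTHL

open Finset MeasureTheory Filter
open Pool.Agent.LibCI99 (cnt hlConst)

theorem F2_real (x M : ℕ) (hx : 2 ≤ x) :
    √((x + M : ℕ) : ℝ) * Real.log ((x + M : ℕ) : ℝ) ^ 2 ≤
      (√(1 + M : ℝ) * (1 + Real.log (1 + M) / Real.log 2) ^ 2 / Real.log 2) *
        (√(x : ℝ) * Real.log x ^ 3) := by
  have hx' : (2 : ℝ) ≤ x := by exact_mod_cast hx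
  have hM : (0 : ℝ) ≤ M := Nat.cast_nonneg M
  have h2 : 0 < Real.log 2 := Real.log_pos one_lt_two
  have hlx : Real.log 2 ≤ Real.log x := Real.log_le_log two_pos hx'
  have hl0 : 0 < Real.log x := h2.trans_le hlx
  have hlM : 0 ≤ Real.log (1 + M) := Real.log_nonneg (by linarith)
  have h3 : ((x + M : ℕ) : ℝ) ≤ (1 + M) * x := by
    push_cast
    nlinarith
  have hpos : (0 : ℝ) < ((x + M : ℕ) : ℝ) := by
    push_cast
    linarith
  have h4 : √((x + M : ℕ) : ℝ) ≤ √(1 + M : ℝ) * √(x : ℝ) := by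
    rw [← Real.sqrt_mul (by linarith)]
    exact Real.sqrt_le_sqrt h3
  have h5 : Real.log ((x + M : ℕ) : ℝ) ≤ (1 + Real.log (1 + M) / Real.log 2) * Real.log x := by
    calc Real.log ((x + M : ℕ) : ℝ) ≤ Real.log ((1 + M) * x) := Real.log_le_log hpos h3
      _ = Real.log (1 + M) + Real.log x := Real.log_mul (by linarith) (by linarith)
      _ = Real.log (1 + M) / Real.log 2 * Real.log 2 + Real.log x := by
          rw [div_mul_cancel₀ _ h2.ne']
      _ ≤ Real.log (1 + M) / Real.log 2 * Real.log x + Real.log x := by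
          have := mul_le_mul_of_nonneg_left hlx (div_nonneg hlM h2.le)
          linarith
      _ = _ := by ring
  have h6 : 0 ≤ Real.log ((x + M : ℕ) : ℝ) := by
    apply Real.log_nonneg
    push_cast
    linarith
  have h7 : Real.log x ^ 2 ≤ Real.log x ^ 3 / Real.log 2 := by
    rw [le_div_iff₀ h2]
    calc Real.log x ^ 2 * Real.log 2 ≤ Real.log x ^ 2 * Real.log x :=
          mul_le_mul_of_nonneg_left hlx (sq_nonneg _)
      _ = _ := by ring
  have h8 : 0 ≤ 1 + Real.log (1 + M) / Real.log 2 := by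
    have := div_nonneg hlM h2.le
    linarith
  calc √((x + M : ℕ) : ℝ) * Real.log ((x + M : ℕ) : ℝ) ^ 2
      ≤ (√(1 + M : ℝ) * √(x : ℝ)) * ((1 + Real.log (1 + M) / Real.log 2) * Real.log x) ^ 2 :=
        mul_le_mul h4 (pow_le_pow_left₀ h6 h5 2) (sq_nonneg _) (by positivity)
    _ = (√(1 + M : ℝ) * √(x : ℝ)) * (1 + Real.log (1 + M) / Real.log 2) ^ 2 *
        Real.log x ^ 2 := by ring
    _ ≤ (√(1 + M : ℝ) * √(x : ℝ)) * (1 + Real.log (1 + M) / Real.log 2) ^ 2 *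
        (Real.log x ^ 3 / Real.log 2) := mul_le_mul_of_nonneg_left h7 (by positivity)
    _ = _ := by ring

open Classical in
theorem F2_cnt {A B : Set ℕ} (hBA : B ⊆ A) (H : Finset ℕ) (M : ℕ) (hM : ∀ h ∈ H, h ≤ M)
    (q a x : ℕ) :
    |cnt B H q a x - cnt A H q a x| ≤
      #H * (#{n ∈ Icc 1 (x + M) | n ∈ A ∧ n ∉ B} : ℝ) := by
  set SA : Finset ℕ := {n ∈ Icc 1 x | n ≡ a [MOD q] ∧ ∀ h ∈ H, n + h ∈ A} with hSA
  set SB : Finset ℕ := {n ∈ Icc 1 x | n ≡ a [MOD q] ∧ ∀ h ∈ H, n + h ∈ B} with hSB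
  have eA : cnt A H q a x = (#SA : ℝ) := by
    unfold cnt
    congr
  have eB : cnt B H q a x = (#SB : ℝ) := by
    unfold cnt
    congr
  have hsub : SB ⊆ SA := by
    intro n hn
    rw [hSB, mem_filter] at hn
    rw [hSA, mem_filter]
    exact ⟨hn.1, hn.2.1, fun h hh => hBA (hn.2.2 h hh)⟩
  have hle : (#SB : ℝ) ≤ #SA := by exact_mod_cast card_le_card hsub
  have hdiff : #(SA \ SB) ≤ #H * #{n ∈ Icc 1 (x + M) | n ∈ A ∧ n ∉ B} := by
    have h1 : SA \ SB ⊆ H.biUnion (fun h => {n ∈ Icc 1 x | n + h ∈ A ∧ n + h ∉ B}) := by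
      intro n hn
      obtain ⟨hn1, hn2⟩ := Finset.mem_sdiff.1 hn
      obtain ⟨h2, h3, h4⟩ := mem_filter.1 (hSA ▸ hn1)
      have h6 : ¬ ∀ h ∈ H, n + h ∈ B := fun h7 =>
        hn2 (hSB ▸ mem_filter.2 ⟨h2, h3, h7⟩)
      push Not at h6
      obtain ⟨h, hh, hnB⟩ := h6
      rw [mem_biUnion]
      exact ⟨h, hh, mem_filter.2 ⟨h2, h4 h hh, hnB⟩⟩
    refine (card_le_card h1).trans (card_biUnion_le_card_mul _ _ _ (fun h hh => ?_))
    refine card_le_card_of_injOn (fun n => n + h) ?_ ?_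
    · intro n hn
      have hn' := mem_filter.1 (Finset.mem_coe.1 hn)
      have h1 := mem_Icc.1 hn'.1
      refine Finset.mem_coe.2 (mem_filter.2 ⟨mem_Icc.2 ?_, hn'.2⟩)
      have h2 := hM h hh
      show 1 ≤ n + h ∧ n + h ≤ x + M
      omega
    · intro n _ n' _ he
      have he' : n + h = n' + h := he
      omega
  have hcard : (#(SA \ SB) : ℝ) = #SA - #SB := by
    rw [card_sdiff_of_subset hsub, Nat.cast_sub (card_le_card hsub)]
  rw [eA, eB, abs_sub_comm, abs_of_nonneg (by linarith), ← hcard]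
  exact_mod_cast hdiff

open Classical in
/-- F2. -/
theorem HLSqrt.modify {A B : Set ℕ} (h : HLSqrt A) (hBA : B ⊆ A) (C : ℝ)
    (hC : ∀ x : ℕ, 2 ≤ x → (#{n ∈ Icc 1 x | n ∈ A ∧ n ∉ B} : ℝ) ≤ C * √x * Real.log x ^ 2) :
    HLSqrt B := by
  intro H q a hq
  obtain ⟨C₁, h1⟩ := h H q a hq
  set M : ℕ := H.sup id with hM
  have hHM : ∀ h ∈ H, h ≤ M := fun h hh => Finset.le_sup (f := id) hh
  set K : ℝ := √(1 + M : ℝ) * (1 + Real.log (1 + M) / Real.log 2) ^ 2 / Real.log 2 with hK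
  refine ⟨C₁ + #H * (|C| * K), fun x hx => ?_⟩
  have h2 := h1 x hx
  have h3 := F2_cnt hBA H M hHM q a x
  have h4 := hC (x + M) (by omega)
  have h5 := F2_real x M hx
  rw [← hK] at h5
  have h6 : C * √((x + M : ℕ) : ℝ) * Real.log ((x + M : ℕ) : ℝ) ^ 2 ≤
      |C| * (K * (√(x : ℝ) * Real.log x ^ 3)) := by
    calc C * √((x + M : ℕ) : ℝ) * Real.log ((x + M : ℕ) : ℝ) ^ 2
        = C * (√((x + M : ℕ) : ℝ) * Real.log ((x + M : ℕ) : ℝ) ^ 2) := by ring
      _ ≤ |C| * (√((x + M : ℕ) : ℝ) * Real.log ((x + M : ℕ) : ℝ) ^ 2) :=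
          mul_le_mul_of_nonneg_right (le_abs_self C) (by positivity)
      _ ≤ _ := mul_le_mul_of_nonneg_left h5 (abs_nonneg C)
  have h7 : |cnt B H q a x - cnt A H q a x| ≤
      #H * (|C| * (K * (√(x : ℝ) * Real.log x ^ 3))) :=
    h3.trans (mul_le_mul_of_nonneg_left (h4.trans h6) (Nat.cast_nonneg _))
  calc |cnt B H q a x - hlConst q a H * ∫ t in (2 : ℝ)..x, 1 / Real.log t ^ #H|
      ≤ |cnt B H q a x - cnt A H q a x| +
        |cnt A H q a x - hlConst q a H * ∫ t in (2 : ℝ)..x, 1 / Real.log t ^ #H| :=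
        abs_sub_le _ _ _
    _ ≤ #H * (|C| * (K * (√(x : ℝ) * Real.log x ^ 3))) + C₁ * √x * Real.log x ^ 3 :=
        add_le_add h7 h2
    _ = _ := by ring

end Pool.Agent.LibTHL
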