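import Pool.Agent.LibTHL.Construct
import Pool.Agent.LibTHL.Modif
import Pool.Agent.LibBar93.Modify

/-! The prescribed Cramer constant, and the infinitude. -/

set_option autoImplicit false

namespace Pool.Agent.LibTHL

open Finset MeasureTheory ProbabilityTheory Filter Topology
open Pool.Agent.LibBar93 (log_facts)
open Pool.Agent.LibCI99 (cnt hlConst loc occ)
open scoped ENNReal

theorem hlConst_one : hlConst 1 0 {0} = 1 := by
  unfold hlConst
  have h : ∀ p : Nat.Primes, loc 1 0 {0} (p : ℕ) = 1 := by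
    intro p
    unfold loc
    have hp := p.2
    have h1 : ¬ (p : ℕ) ∣ 1 := fun h => hp.one_lt.ne' (Nat.dvd_one.1 h)
    rw [if_neg h1]
    have h2 : occ {0} (p : ℕ) = 1 := by
      unfold occ
      simp
    have h3 : (1 - 1 / ((p : ℕ) : ℝ)) ≠ 0 := by
      have : (2 : ℝ) ≤ (p : ℕ) := by exact_mod_cast hp.two_le
      have h4 : 1 / ((p : ℕ) : ℝ) ≤ 1 / 2 := one_div_le_one_div_of_le (by norm_num) this
      intro h5
      linarith
    rw [h2, card_singleton, pow_one, Nat.cast_one, div_self h3]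
  simp [h]

theorem integral_ge (x : ℕ) (hx : 2 ≤ x) :
    ((x : ℝ) - 2) / Real.log x ≤ ∫ t in (2 : ℝ)..x, 1 / Real.log t ^ 1 := by
  have hx' : (2 : ℝ) ≤ x := by exact_mod_cast hx
  have hlx : 0 < Real.log x := Real.log_pos (by linarith)
  have hcont : ContinuousOn (fun t : ℝ => 1 / Real.log t ^ 1) (Set.uIcc 2 (x : ℝ)) := by
    rw [Set.uIcc_of_le hx']
    refine ContinuousOn.div continuousOn_const ?_ ?_
    · refine ContinuousOn.pow ?_ 1
      exact Real.continuousOn_log.mono (fun t ht => by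
        simp only [Set.mem_compl_iff, Set.mem_singleton_iff]
        have := ht.1
        linarith)
    · intro t ht
      have : 0 < Real.log t := Real.log_pos (by linarith [ht.1])
      positivity
  have h1 : ∫ _t in (2 : ℝ)..x, 1 / Real.log x = ((x : ℝ) - 2) / Real.log x := by
    rw [intervalIntegral.integral_const]
    rw [smul_eq_mul]
    ring
  rw [← h1]
  refine intervalIntegral.integral_mono_on hx' (by simp) hcont.intervalIntegrable ?_
  intro t ht
  have h2 : 0 < Real.log t := Real.log_pos (by linarith [ht.1])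
  rw [pow_one]
  exact one_div_le_one_div_of_le h2 (Real.log_le_log (by linarith [ht.1]) ht.2)

/-- the `k`-tuples conjecture implies that the set is infinite -/
theorem HLSqrt.infinite {A : Set ℕ} (h : HLSqrt A) : A.Infinite := by
  classical
  intro hfin
  obtain ⟨C, hC⟩ := h {0} 1 0 one_pos
  -- the count is bounded
  have hb : ∀ x : ℕ, cnt A {0} 1 0 x ≤ hfin.toFinset.card := by
    intro x
    unfold cnt
    have : #{n ∈ Icc 1 x | n ≡ 0 [MOD 1] ∧ ∀ h ∈ ({0} : Finset ℕ), n + h ∈ A} ≤
        hfin.toFinset.card := by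
      refine Finset.card_le_card fun n hn => ?_
      rw [mem_filter] at hn
      rw [Set.Finite.mem_toFinset]
      have := hn.2.2 0 (mem_singleton_self 0)
      simpa using this
    exact_mod_cast this
  have h1 : ∀ᶠ x : ℕ in atTop, ((x : ℝ) - 2) / Real.log x ≤
      hfin.toFinset.card + C * √x * Real.log x ^ 3 := by
    filter_upwards [eventually_ge_atTop 2] with x hx
    have h2 := hC x hx
    rw [hlConst_one, one_mul, card_singleton] at h2
    have h3 := integral_ge x hx
    have h4 := (abs_le.1 h2).1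
    have h5 := hb x
    linarith
  -- contradiction
  have hsq : Tendsto (fun x : ℕ => √(x : ℝ)) atTop atTop :=
    Real.tendsto_sqrt_atTop.comp tendsto_natCast_atTop_atTop
  have h6 := (Real.isLittleO_pow_log_id_atTop (n := 4)).comp_tendsto hsq
  have hc : 0 < 1 / (64 * (|C| + 1)) := by positivity
  have h7 := (Asymptotics.isLittleO_iff.1 h6) hc
  have h8 := (Real.isLittleO_pow_log_id_atTop (n := 1)).comp_tendsto
    (tendsto_natCast_atTop_atTop (R := ℝ))
  have hc' : 0 < 1 / (4 * ((hfin.toFinset.card : ℝ) + 1)) := by positivity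
  have h9 := (Asymptotics.isLittleO_iff.1 h8) hc'
  obtain ⟨x, hx1, hx2, hx3, hx4⟩ := (h1.and (h7.and (h9.and (eventually_ge_atTop 5)))).exists
  simp only [Function.comp_apply, id_eq, Real.norm_eq_abs] at hx2 hx3
  have hx : (5 : ℝ) ≤ x := by exact_mod_cast hx4
  have hx0 : (0 : ℝ) ≤ x := by linarith
  have hlx : 0 < Real.log x := Real.log_pos (by linarith)
  have hls : Real.log x = 2 * Real.log √x := by
    rw [Real.log_sqrt hx0]
    ring
  have hsq0 : 0 ≤ √(x : ℝ) := Real.sqrt_nonneg _
  have hsqx : √(x : ℝ) * √x = x := Real.mul_self_sqrt hx0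
  rw [abs_of_nonneg hsq0, abs_of_nonneg (by positivity)] at hx2
  rw [abs_of_nonneg (by positivity), abs_of_nonneg hx0, pow_one] at hx3
  rw [div_le_iff₀ hlx] at hx1
  have k1 : Real.log x ^ 4 ≤ 16 * (1 / (64 * (|C| + 1)) * √x) := by
    rw [hls, mul_pow]
    nlinarith
  have k2 : C * √x * Real.log x ^ 3 * Real.log x ≤ x / 4 := by
    calc C * √x * Real.log x ^ 3 * Real.log x = C * (√x * Real.log x ^ 4) := by ring
      _ ≤ |C| * (√x * Real.log x ^ 4) := mul_le_mul_of_nonneg_right (le_abs_self _) (by positivity)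
      _ ≤ |C| * (√x * (16 * (1 / (64 * (|C| + 1)) * √x))) := by gcongr
      _ = (|C| / (|C| + 1)) * ((√x * √x) / 4) := by
          field_simp
          ring
      _ ≤ 1 * ((√x * √x) / 4) := by
          refine mul_le_mul_of_nonneg_right ?_ (by positivity)
          rw [div_le_one (by positivity)]
          linarith
      _ = x / 4 := by rw [hsqx, one_mul]
  have k3 : (hfin.toFinset.card : ℝ) * Real.log x ≤ x / 4 := by
    calc (hfin.toFinset.card : ℝ) * Real.log x
        ≤ (hfin.toFinset.card : ℝ) * (1 / (4 * ((hfin.toFinset.card : ℝ) + 1)) * x) := by gcongr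
      _ = ((hfin.toFinset.card : ℝ) / ((hfin.toFinset.card : ℝ) + 1)) * (x / 4) := by
          field_simp
      _ ≤ 1 * (x / 4) := by
          refine mul_le_mul_of_nonneg_right ?_ (by positivity)
          rw [div_le_one (by positivity)]
          linarith
      _ = x / 4 := one_mul _
  nlinarith

theorem tendsto_natlog : Tendsto (fun j : ℕ => Nat.log 2 j) atTop atTop :=
  tendsto_atTop_atTop.2 fun b => ⟨2 ^ b, fun _ ha => Nat.le_log_of_pow_le one_lt_two ha⟩

theorem loglog_bound : ∀ᶠ m : ℕ in atTop, (Nat.log 2 (Nat.log 2 m) : ℝ) * Real.log m ≤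
    100 * Real.log m ^ 2 / Real.log (Real.log m) := by
  have h1 : Tendsto (fun m : ℕ => Real.log (Real.log m)) atTop atTop :=
    Real.tendsto_log_atTop.comp (Real.tendsto_log_atTop.comp tendsto_natCast_atTop_atTop)
  filter_upwards [h1.eventually_ge_atTop 1, eventually_ge_atTop 8] with m hm hm8
  have hm' : (8 : ℝ) ≤ m := by exact_mod_cast hm8
  set l := Real.log m with hl
  set u := Real.log l with hu
  have hl0 : 0 < l := Real.log_pos (by linarith)
  have hlu : l = Real.exp u := (Real.exp_log hl0).symm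
  have hl2 := Real.log_two_gt_d9
  have hl2' := Real.log_two_lt_d9
  have hj : (Nat.log 2 m : ℝ) * Real.log 2 ≤ l := by
    rw [hl, ← Real.log_pow]
    refine Real.log_le_log (by positivity) ?_
    exact_mod_cast Nat.pow_log_le_self 2 (by omega)
  have hj1 : 1 ≤ Nat.log 2 m := Nat.le_log_of_pow_le one_lt_two (by omega)
  have hjR : (Nat.log 2 m : ℝ) ≤ 2 * l := by
    have : (0 : ℝ) ≤ Nat.log 2 m := by positivity
    nlinarith
  have hk : (Nat.log 2 (Nat.log 2 m) : ℝ) * Real.log 2 ≤ Real.log 2 + u := by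
    have h2 : Real.log ((2 : ℝ) ^ Nat.log 2 (Nat.log 2 m)) ≤ Real.log (2 * l) := by
      refine Real.log_le_log (by positivity) (le_trans ?_ hjR)
      exact_mod_cast Nat.pow_log_le_self 2 (by omega)
    rw [Real.log_pow, Real.log_mul (by norm_num) hl0.ne'] at h2
    exact h2
  have hk2 : (Nat.log 2 (Nat.log 2 m) : ℝ) ≤ 3 * u := by
    have : (0 : ℝ) ≤ Nat.log 2 (Nat.log 2 m) := by positivity
    nlinarith
  have hu2 : u ^ 2 ≤ 2 * l := by
    have := Real.quadratic_le_exp_of_nonneg (show 0 ≤ u by linarith)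
    rw [hlu]
    nlinarith
  rw [le_div_iff₀ (by linarith)]
  calc (Nat.log 2 (Nat.log 2 m) : ℝ) * l * u ≤ (3 * u) * l * u := by gcongr
    _ = 3 * u ^ 2 * l := by ring
    _ ≤ 3 * (2 * l) * l := by gcongr
    _ ≤ 100 * l ^ 2 := by nlinarith [sq_nonneg l]

theorem log_sq_le (x : ℕ) (hx : 2 ≤ x) : Real.log x ^ 2 ≤ 16 * √x := by
  have hx' : (2 : ℝ) ≤ x := by exact_mod_cast hx
  have hx0 : (0 : ℝ) ≤ x := by linarith
  have h1 : Real.log x = 4 * Real.log √√x := by
    rw [Real.log_sqrt (Real.sqrt_nonneg _), Real.log_sqrt hx0]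
    ring
  have h2 : 0 < √√(x : ℝ) := by positivity
  have h3 : Real.log √√(x : ℝ) ≤ √√x := by
    have := Real.log_le_sub_one_of_pos h2
    linarith
  have h4 : 0 ≤ Real.log √√(x : ℝ) := by
    apply Real.log_nonneg
    rw [Real.one_le_sqrt, Real.one_le_sqrt]
    linarith
  rw [h1, mul_pow]
  have h5 : √√(x : ℝ) ^ 2 = √x := Real.sq_sqrt (Real.sqrt_nonneg _)
  have h6 : Real.log √√(x : ℝ) ^ 2 ≤ √√(x : ℝ) ^ 2 := by gcongr
  rw [h5] at h6
  linarith

/-- **Every Cramer constant.** -/
theorem every_cramer (l : ℝ≥0∞) :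
    ∃ A : Set ℕ, A.Infinite ∧ HLSqrt A ∧ LibCramer.cramer A = l := by
  classical
  obtain ⟨A, hA, C, hC, hg⟩ := construct _ tendsto_natlog
  have hg' : ∀ᶠ m : ℕ in atTop, ∃ a ∈ A, m < a ∧
      (a : ℝ) ≤ m + (C * 100) * Real.log m ^ 2 / Real.log (Real.log m) := by
    filter_upwards [hg, loglog_bound] with m hm hm2
    obtain ⟨a, ha, hma, hle⟩ := hm
    refine ⟨a, ha, hma, hle.trans ?_⟩
    have : C * (Nat.log 2 (Nat.log 2 m) : ℝ) * Real.log m ≤
        C * (100 * Real.log m ^ 2 / Real.log (Real.log m)) := by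
      rw [mul_assoc]
      exact mul_le_mul_of_nonneg_left hm2 hC.le
    calc (m : ℝ) + C * (Nat.log 2 (Nat.log 2 m) : ℝ) * Real.log m
        ≤ m + C * (100 * Real.log m ^ 2 / Real.log (Real.log m)) := by linarith
      _ = m + (C * 100) * Real.log m ^ 2 / Real.log (Real.log m) := by ring
  obtain ⟨B, hBA, hB, C', hC'⟩ := LibBar93.exists_modify (C * 100) (by positivity) hg' l
  have hHB : HLSqrt B := hA.modify hBA (C' * 16) (by
    intro x hx
    have h1 := hC' x hx
    have hC0 : 0 ≤ C' := by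
      have h2 := hC' 2 le_rfl
      have h3 : (0 : ℝ) < Real.log (2 : ℕ) ^ 4 := by
        have : 0 < Real.log ((2 : ℕ) : ℝ) := Real.log_pos (by norm_num)
        positivity
      have h4 : (0 : ℝ) ≤ C' * Real.log (2 : ℕ) ^ 4 := le_trans (by positivity) h2
      exact nonneg_of_mul_nonneg_left h4 h3
    have h5 := log_sq_le x hx
    calc _ ≤ C' * Real.log x ^ 4 := h1
      _ = C' * (Real.log x ^ 2 * Real.log x ^ 2) := by ring
      _ ≤ C' * ((16 * √x) * Real.log x ^ 2) := by gcongr
      _ = C' * 16 * √x * Real.log x ^ 2 := by ring)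
  exact ⟨B, hHB.infinite, hHB, hB⟩

end Pool.Agent.LibTHL
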