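import Pool.Agent.LibBar93.Defs
import Pool.Agent.LibCI99.HLDefs

/-! The prime k-tuples conjecture with square root error: definitions. -/

set_option autoImplicit false

namespace Pool.Agent.LibTHL

open Finset MeasureTheory ProbabilityTheory Filter
open Pool.Agent.LibBar93 (sieveLim dens)
open Pool.Agent.LibCI99 (cnt hlConst)
open scoped ENNReal

/-- **The prime `k`-tuples conjecture of Hardy and Littlewood for the set `A`**, for all `k`, in all
residue classes, with square root error: for every finite set `H` of shifts and every class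
`a mod q` the number of the `n ≤ x`, `n ≡ a (mod q)`, with `n + H ⊆ A` is
`𝔖(H; q, a) ∫₂ˣ dt / (log t)^|H| + O(√x (log x)³)`. -/
def HLSqrt (A : Set ℕ) : Prop :=
  ∀ (H : Finset ℕ) (q a : ℕ), 0 < q → ∃ C : ℝ, ∀ x : ℕ, 2 ≤ x →
    |cnt A H q a x - hlConst q a H * ∫ t in (2 : ℝ)..x, 1 / Real.log t ^ #H| ≤
      C * √x * Real.log x ^ 3

/-- the limsup of the gaps divided by `f`. -/
noncomputable def gapLim (f : ℕ → ℝ) (B : Set ℕ) : ℝ≥0∞ :=
  limsup (fun n : ℕ => ENNReal.ofReal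
    (((Nat.nth (· ∈ B) (n + 1) : ℝ) - (Nat.nth (· ∈ B) n : ℝ)) / f (Nat.nth (· ∈ B) n))) atTop

/-- the contribution of the primes `p > T` to the singular series of a set of `m` shifts
smaller than `T` -/
noncomputable def tailF (T m : ℕ) : ℝ :=
  ∏' p : Nat.Primes, if T < (p : ℕ) then (1 - (m : ℝ) / (p : ℕ)) / (1 - 1 / ((p : ℕ) : ℝ)) ^ m else 1

/-- the sieving limit at the level `j` -/
def TL (j : ℕ) : ℕ := Nat.log 2 j / 4

/-! ### laws on the subsets of a finite set -/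

/-- the Moebius measure of a function of sets -/
noncomputable def mb (S : Finset ℕ) (θ : ℕ → ℝ) (k : ℕ) (δ : Finset ℕ → ℝ) (G : Finset ℕ) : ℝ :=
  ∑ F ∈ S.powerset with #F ≤ k ∧ G ⊆ F, (-1) ^ (#F - #G) * δ F * ∏ n ∈ F, θ n

/-- the interaction of two adjacent blocks -/
noncomputable def gg (S : Finset ℕ) (θ : ℕ → ℝ) (k : ℕ) (s : ℕ → ℝ) (w : Finset ℕ → ℝ) (m : ℕ)
    (ζ : Finset ℕ) : ℝ :=
  mb S θ k (fun F => s (m + #F) - s m * s #F) ζ / w ζ

/-! ### blocks -/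

/-- Start of the block of `n` (`0` for the small `n`); the blocks of the level `j` have the
length `b j`. -/
def blk (b : ℕ → ℕ) (J n : ℕ) : ℕ :=
  if Nat.log 2 n < J then 0 else b (Nat.log 2 n) * (n / b (Nat.log 2 n))

/-- `i` is the start of a block. -/
def IsBlk (b : ℕ → ℕ) (J i : ℕ) : Prop := J ≤ Nat.log 2 i ∧ b (Nat.log 2 i) ∣ i

/-- the odd blocks -/
def OddB (b : ℕ → ℕ) (i : ℕ) : Prop := Odd (i / b (Nat.log 2 i))

/-- the sites of the block `i` -/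
noncomputable def sites (p : ℕ → ℝ) (b : ℕ → ℕ) (J i : ℕ) : Finset ℕ :=
  if J ≤ Nat.log 2 i ∧ b (Nat.log 2 i) ∣ i then
    {n ∈ Ico i (i + b (Nat.log 2 i)) | p n ≠ 0} else ∅

/-- the length of the blocks at the level of `i` -/
def len (b : ℕ → ℕ) (i : ℕ) : ℕ := b (Nat.log 2 i)

/-- the block starts on which the event `n ∈ A` depends -/
noncomputable def nb (b : ℕ → ℕ) (J n : ℕ) : Finset ℕ := by
  classical
  exact if Nat.log 2 n < J then ∅ else
    if OddB b (blk b J n) then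
      {blk b J n - len b (blk b J n), blk b J n, blk b J n + len b (blk b J n)}
    else {blk b J n}

/-- conditions on the lengths of the blocks -/
structure GoodB (b : ℕ → ℕ) (J : ℕ) : Prop where
  hJ : 64 ≤ J
  pos : ∀ j, 0 < b j
  dvd : ∀ j, J ≤ j → 2 * b j ∣ 2 ^ j

/-- A system of laws. `w i z z'` is the law of the block `i` when the neighbours are `z`, `z'`. -/
structure Sys (p : ℕ → ℝ) (b κ : ℕ → ℕ) (s : ℕ → ℕ → ℝ) (J : ℕ)
    (w : ℕ → Finset ℕ → Finset ℕ → Finset ℕ → ℝ) : Prop where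
  nonneg : ∀ i z z' ω, 0 ≤ w i z z' ω
  supp : ∀ i z z' ω, ¬ ω ⊆ sites p b J i → w i z z' ω = 0
  total : ∀ i z z', ∑ ω ∈ (sites p b J i).powerset, w i z z' ω = 1
  even : ∀ i, IsBlk b J i → ¬ OddB b i → ∀ F ⊆ sites p b J i, #F ≤ κ (Nat.log 2 i) →
    ∑ ω ∈ (sites p b J i).powerset with F ⊆ ω, w i ∅ ∅ ω = s (Nat.log 2 i) #F * ∏ n ∈ F, p n
  ne : ∀ i, IsBlk b J i → OddB b i → ∀ z z', w i z z' ∅ = 0
  left : ∀ i, IsBlk b J i → OddB b i → ∀ F ⊆ sites p b J i, #F ≤ κ (Nat.log 2 i) →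
    ∀ F' ⊆ sites p b J (i - len b i), #F' ≤ κ (Nat.log 2 i) →
    ∑ z ∈ (sites p b J (i - len b i)).powerset with F' ⊆ z,
      ∑ z' ∈ (sites p b J (i + len b i)).powerset,
        w (i - len b i) ∅ ∅ z * w (i + len b i) ∅ ∅ z' *
          ∑ ω ∈ (sites p b J i).powerset with F ⊆ ω, w i z z' ω =
      s (Nat.log 2 i) (#F + #F') * (∏ n ∈ F, p n) * ∏ n ∈ F', p n
  right : ∀ i, IsBlk b J i → OddB b i → Nat.log 2 (i + len b i) = Nat.log 2 i →
    ∀ F ⊆ sites p b J i, #F ≤ κ (Nat.log 2 i) →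
    ∀ F' ⊆ sites p b J (i + len b i), #F' ≤ κ (Nat.log 2 i) →
    ∑ z ∈ (sites p b J (i - len b i)).powerset,
      ∑ z' ∈ (sites p b J (i + len b i)).powerset with F' ⊆ z',
        w (i - len b i) ∅ ∅ z * w (i + len b i) ∅ ∅ z' *
          ∑ ω ∈ (sites p b J i).powerset with F ⊆ ω, w i z z' ω =
      s (Nat.log 2 i) (#F + #F') * (∏ n ∈ F, p n) * ∏ n ∈ F', p n

/-- The properties of the random set. -/
structure Model (p : ℕ → ℝ) (b κ : ℕ → ℕ) (s : ℕ → ℕ → ℝ) (J : ℕ) {Ω : Type} [MeasurableSpace Ω]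
    (μ : Measure Ω) (A : Ω → Set ℕ) (P : Finset ℕ → ℝ) : Prop where
  meas : ∀ n, MeasurableSet {ω | n ∈ A ω}
  supp : ∀ ω n, n ∈ A ω → p n ≠ 0 ∧ J ≤ Nat.log 2 n
  hit : ∀ᵐ ω ∂μ, ∀ i, IsBlk b J i → OddB b i → ∃ n ∈ A ω, blk b J n = i
  prob : ∀ G : Finset ℕ, μ.real {ω | ∀ n ∈ G, n ∈ A ω} = P G
  mul : ∀ G G' : Finset ℕ, Disjoint (G.biUnion (nb b J)) (G'.biUnion (nb b J)) →
    P (G ∪ G') = P G * P G'
  corr : ∀ j, J ≤ j → ∀ F : Finset ℕ, (∀ n ∈ F, Nat.log 2 n = j) →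
    (∀ n ∈ F, ∀ n' ∈ F, n' < n + b j) → #F ≤ κ j → P F = s j #F * ∏ n ∈ F, p n

/-- the parameters: the order `κ j` of the exact correlations at the level `j` is tiny. -/
structure GoodK (κ : ℕ → ℕ) (J : ℕ) : Prop where
  hJ : 64 ≤ J
  mono : Monotone κ
  one : ∀ j, J ≤ j → 1 ≤ κ j
  small : ∀ j, J ≤ j → 2 ^ (6000 * κ j) ≤ TL j

/-- the length of the blocks at the level `j` -/
def bK (κ : ℕ → ℕ) (j : ℕ) : ℕ := 2 ^ Nat.clog 2 (32 * (2 * κ j + 1) * (j + 1))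

end Pool.Agent.LibTHL
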