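import Pool.Agent.LibTHL.Defs

set_option autoImplicit false

namespace Pool.Agent.LibTHL

open Finset MeasureTheory ProbabilityTheory Filter Topology
open Pool.Agent.LibBar93 (sieveLim dens euler)
open Pool.Agent.LibCI99 (cnt hlConst dlt vee prim)
open scoped ENNReal

/-- the next element -/
theorem f4_next {B : Set ℕ} [DecidablePred (· ∈ B)] (hB : B.Infinite) (n b : ℕ) (hb : b ∈ B)
    (h : Nat.nth (· ∈ B) n < b) : Nat.nth (· ∈ B) (n + 1) ≤ b := by
  have hB' : ({n | n ∈ B} : Set ℕ).Infinite := hB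
  have h1 : Nat.nth (· ∈ B) (Nat.count (· ∈ B) b) = b := Nat.nth_count hb
  have h2 : n < Nat.count (· ∈ B) b := by
    rw [← h1] at h
    exact (Nat.nth_strictMono hB').lt_iff_lt.1 h
  calc Nat.nth (· ∈ B) (n + 1) ≤ Nat.nth (· ∈ B) (Nat.count (· ∈ B) b) :=
        (Nat.nth_strictMono hB').monotone h2
    _ = b := h1

/-- limsup of the gaps from the behaviour of the elements -/
theorem f4_limsup {B : Set ℕ} (hB : B.Infinite) (f : ℕ → ℝ) (N : ℕ) (hf : ∀ n, N ≤ n → 0 < f n)
    (h1 : ∀ ε : ℝ, 0 < ε → ∀ᶠ b : ℕ in atTop, b ∈ B → ∃ b' ∈ B, b < b' ∧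
      (b' : ℝ) ≤ b + (1 + ε) * f b)
    (h2 : ∀ m : ℕ, ∃ b ∈ B, m ≤ b ∧ ∀ b' ∈ B, b < b' → (b : ℝ) + f b ≤ b') :
    gapLim f B = 1 := by
  classical
  have hB' : ({n | n ∈ B} : Set ℕ).Infinite := hB
  have hmono : StrictMono (Nat.nth (· ∈ B)) := Nat.nth_strictMono hB'
  have htend : Tendsto (Nat.nth (· ∈ B)) atTop atTop := hmono.tendsto_atTop
  unfold gapLim
  apply le_antisymm
  · refine ENNReal.le_of_forall_pos_le_add fun ε hε _ => ?_
    refine Filter.limsup_le_of_le (h := ?_)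
    have h3 := htend.eventually (h1 ε (by exact_mod_cast hε))
    have h4 := htend.eventually (eventually_ge_atTop N)
    filter_upwards [h3, h4] with n h5 h6
    obtain ⟨b', hb', hlt, hle⟩ := h5 (Nat.nth_mem_of_infinite hB' n)
    have h7 := f4_next hB n b' hb' hlt
    have h8 : ((Nat.nth (· ∈ B) (n + 1) : ℕ) : ℝ) ≤ b' := by exact_mod_cast h7
    have h9 := hf _ h6
    have h10 : ((Nat.nth (· ∈ B) (n + 1) : ℝ) - (Nat.nth (· ∈ B) n : ℝ)) / f (Nat.nth (· ∈ B) n)
        ≤ 1 + ε := by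
      rw [div_le_iff₀ h9]
      linarith
    calc ENNReal.ofReal _ ≤ ENNReal.ofReal (1 + (ε : ℝ)) := ENNReal.ofReal_le_ofReal h10
      _ = 1 + ε := by
        rw [ENNReal.ofReal_add (by norm_num) (by positivity), ENNReal.ofReal_one,
          ENNReal.ofReal_coe_nnreal]
  · refine Filter.le_limsup_of_frequently_le ?_
    rw [frequently_atTop]
    intro m
    obtain ⟨b, hb, hbm, hnext⟩ := h2 (max (Nat.nth (· ∈ B) m) N)
    refine ⟨Nat.count (· ∈ B) b, ?_, ?_⟩
    · have h3 : Nat.nth (· ∈ B) (Nat.count (· ∈ B) b) = b := Nat.nth_count hb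
      have h4 : Nat.nth (· ∈ B) m ≤ Nat.nth (· ∈ B) (Nat.count (· ∈ B) b) := by
        rw [h3]
        exact le_trans (le_max_left _ _) hbm
      exact hmono.le_iff_le.1 h4
    · have h3 : Nat.nth (· ∈ B) (Nat.count (· ∈ B) b) = b := Nat.nth_count hb
      rw [h3]
      have h4 : b < Nat.nth (· ∈ B) (Nat.count (· ∈ B) b + 1) := by
        conv_lhs => rw [← h3]
        exact hmono (Nat.lt_succ_self _)
      have h5 := hnext _ (Nat.nth_mem_of_infinite hB' _) h4
      have h6 : 0 < f b := hf b (le_trans (le_max_right _ _) hbm)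
      have h7 : (1 : ℝ) ≤ ((Nat.nth (· ∈ B) (Nat.count (· ∈ B) b + 1) : ℝ) - (b : ℝ)) / f b := by
        rw [le_div_iff₀ h6]
        linarith
      calc (1 : ℝ≥0∞) = ENNReal.ofReal 1 := ENNReal.ofReal_one.symm
        _ ≤ _ := ENNReal.ofReal_le_ofReal h7

open Classical in
/-- F4: deleting windows. -/
theorem exists_delete (f : ℕ → ℝ) (hf : Tendsto (fun n : ℕ => f n / Real.log n) atTop atTop)
    (hf2 : ∀ᶠ n : ℕ in atTop, f n ≤ √n) (ψ : ℕ → ℕ)
    (hψ : ∀ᶠ j : ℕ in atTop, ∀ n : ℕ, 2 ^ (j - 1) ≤ n → (ψ j : ℝ) ^ 2 ≤ f n / Real.log n)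
    (hψt : Tendsto ψ atTop atTop) (A : Set ℕ) (C : ℝ) (hC : 0 < C)
    (hA : ∀ᶠ m : ℕ in atTop, ∃ a ∈ A, m < a ∧ (a : ℝ) ≤ m + C * ψ (Nat.log 2 m) * Real.log m) :
    ∃ B ⊆ A, B.Infinite ∧ gapLim f B = 1 ∧ ∃ C' : ℝ, ∀ x : ℕ, 2 ≤ x →
      (#{n ∈ Icc 1 x | n ∈ A ∧ n ∉ B} : ℝ) ≤ C' * √x * Real.log x ^ 2 := by
  -- thresholds
  obtain ⟨J, hJ⟩ := eventually_atTop.1 (hψ.and (hψt.eventually_ge_atTop (⌈C⌉₊ + 1)))
  obtain ⟨N, hN⟩ := eventually_atTop.1 (((hf.eventually_ge_atTop 1).and hf2).and hA)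
  set N0 : ℕ := max (max N (2 ^ (J + 1))) 16 with hN0def
  have hNN : N ≤ N0 := le_trans (le_max_left _ _) (le_max_left _ _)
  have h16 : 16 ≤ N0 := le_max_right _ _
  have hlogJ : ∀ n, N0 ≤ n → J ≤ Nat.log 2 n := by
    intro n hn
    have h1 : 2 ^ (J + 1) ≤ n := le_trans (le_trans (le_max_right _ _) (le_max_left _ _)) hn
    have h2 := Nat.le_log_of_pow_le (by norm_num : 1 < 2) h1
    omega
  have hlogpos : ∀ n : ℕ, N0 ≤ n → 1 < Real.log n := by
    intro n hn
    have h1 : (16 : ℝ) ≤ n := by exact_mod_cast h16.trans hn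
    have h2 : Real.exp 1 < n := lt_of_lt_of_le Real.exp_one_lt_d9 (by linarith)
    rwa [Real.lt_log_iff_exp_lt (by linarith)]
  have hflog : ∀ n : ℕ, N0 ≤ n → Real.log n ≤ f n := by
    intro n hn
    have h1 := (hN n (hNN.trans hn)).1.1
    rwa [le_div_iff₀ (by linarith [hlogpos n hn]), one_mul] at h1
  have hfpos : ∀ n : ℕ, N0 ≤ n → 0 < f n := fun n hn => by
    linarith [hlogpos n hn, hflog n hn]
  have hfsq : ∀ n : ℕ, N0 ≤ n → f n ≤ √n := fun n hn => (hN n (hNN.trans hn)).1.2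
  have hfle : ∀ n : ℕ, N0 ≤ n → f n ≤ n := by
    intro n hn
    refine (hfsq n hn).trans ?_
    have h1 : (1 : ℝ) ≤ n := by
      have : 1 ≤ n := by omega
      exact_mod_cast this
    rw [Real.sqrt_le_left (by linarith)]
    nlinarith
  -- next elements of A
  have hnextA : ∀ m : ℕ, N0 ≤ m → ∃ a ∈ A, m < a ∧
      (a : ℝ) ≤ m + C * ψ (Nat.log 2 m) * Real.log m := fun m hm => (hN m (hNN.trans hm)).2
  have hψ2 : ∀ m n : ℕ, N0 ≤ m → 2 ^ (Nat.log 2 m - 1) ≤ n → N0 ≤ n →
      C * ψ (Nat.log 2 m) * Real.log n ≤ C / ψ (Nat.log 2 m) * f n := by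
    intro m n hm hn hn'
    have h1 := (hJ (Nat.log 2 m) (hlogJ m hm)).1 n hn
    have h2 := (hJ (Nat.log 2 m) (hlogJ m hm)).2
    have h3 : (0 : ℝ) < ψ (Nat.log 2 m) := by
      have : 0 < ψ (Nat.log 2 m) := by omega
      exact_mod_cast this
    rw [le_div_iff₀ (by linarith [hlogpos n hn'])] at h1
    rw [div_mul_eq_mul_div, le_div_iff₀ h3]
    calc C * ψ (Nat.log 2 m) * Real.log n * ψ (Nat.log 2 m)
        = C * ((ψ (Nat.log 2 m) : ℝ) ^ 2 * Real.log n) := by ring
      _ ≤ C * f n := mul_le_mul_of_nonneg_left h1 hC.le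
  have hψC : ∀ m : ℕ, N0 ≤ m → C / ψ (Nat.log 2 m) ≤ 1 := by
    intro m hm
    have h2 := (hJ (Nat.log 2 m) (hlogJ m hm)).2
    have h3 : (0 : ℝ) < ψ (Nat.log 2 m) := by
      have : 0 < ψ (Nat.log 2 m) := by omega
      exact_mod_cast this
    rw [div_le_one h3]
    have h4 : (⌈C⌉₊ : ℝ) + 1 ≤ ψ (Nat.log 2 m) := by exact_mod_cast h2
    linarith [Nat.le_ceil C]
  have hpl : ∀ m : ℕ, N0 ≤ m → 2 ^ (Nat.log 2 m - 1) ≤ m := by
    intro m hm
    calc 2 ^ (Nat.log 2 m - 1) ≤ 2 ^ Nat.log 2 m := Nat.pow_le_pow_right (by norm_num) (by omega)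
      _ ≤ m := Nat.pow_log_le_self 2 (by omega)
  have hnextA' : ∀ m : ℕ, N0 ≤ m → ∃ a ∈ A, m < a ∧ (a : ℝ) ≤ m + f m := by
    intro m hm
    obtain ⟨a, ha, h1, h2⟩ := hnextA m hm
    refine ⟨a, ha, h1, h2.trans ?_⟩
    have h3 := hψ2 m m hm (hpl m hm) hm
    have h4 : C / ψ (Nat.log 2 m) * f m ≤ 1 * f m :=
      mul_le_mul_of_nonneg_right (hψC m hm) (hfpos m hm).le
    linarith
  -- the points
  obtain ⟨i0, hi0⟩ : ∃ i0 : ℕ, N0 ≤ 2 ^ 2 ^ i0 :=
    ⟨N0, le_trans Nat.lt_two_pow_self.le (Nat.pow_le_pow_right (by norm_num) Nat.lt_two_pow_self.le)⟩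
  have hX : ∀ i, i0 ≤ i → N0 ≤ 2 ^ 2 ^ i := fun i hi =>
    hi0.trans (Nat.pow_le_pow_right (by norm_num) (Nat.pow_le_pow_right (by norm_num) hi))
  have hxex : ∀ i : ℕ, ∃ a : ℕ, i0 ≤ i → a ∈ A ∧ 2 ^ 2 ^ i < a ∧ a ≤ 2 * 2 ^ 2 ^ i := by
    intro i
    by_cases hi : i0 ≤ i
    · obtain ⟨a, ha, h1, h2⟩ := hnextA' _ (hX i hi)
      refine ⟨a, fun _ => ⟨ha, h1, ?_⟩⟩
      have h3 := hfle _ (hX i hi)
      have h4 : (a : ℝ) ≤ ((2 * 2 ^ 2 ^ i : ℕ) : ℝ) := by
        refine h2.trans ?_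
        push_cast at h3 ⊢
        linarith
      exact_mod_cast h4
    · exact ⟨0, fun h => absurd h hi⟩
  choose X hXp using hxex
  have hXN : ∀ i, i0 ≤ i → N0 ≤ X i := fun i hi => (hX i hi).trans (hXp i hi).2.1.le
  have hsq : ∀ i, i0 ≤ i → 16 * 2 ^ 2 ^ i ≤ 2 ^ 2 ^ (i + 1) := by
    intro i hi
    have h1 := h16.trans (hX i hi)
    calc 16 * 2 ^ 2 ^ i ≤ 2 ^ 2 ^ i * 2 ^ 2 ^ i := Nat.mul_le_mul_right _ h1
      _ = 2 ^ 2 ^ (i + 1) := by rw [← pow_add, pow_succ 2 i, mul_two]
  have hXmono : ∀ i k, i < k → 16 * 2 ^ 2 ^ i ≤ 2 ^ 2 ^ k ∨ i < i0 := by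
    intro i k hik
    by_cases hi : i0 ≤ i
    · left
      exact (hsq i hi).trans (Nat.pow_le_pow_right (by norm_num)
        (Nat.pow_le_pow_right (by norm_num) hik))
    · right; omega
  -- the set
  set B : Set ℕ := {a | a ∈ A ∧ ∀ i, i0 ≤ i → ¬ (X i < a ∧ (a : ℝ) ≤ X i + f (X i))} with hBdef
  -- windows are short
  have hwin : ∀ i, i0 ≤ i → ∀ a : ℕ, (a : ℝ) ≤ X i + f (X i) → a ≤ 4 * 2 ^ 2 ^ i := by
    intro i hi a ha
    have h1 := hfle _ (hXN i hi)
    have h2 : (a : ℝ) ≤ ((2 * X i : ℕ) : ℝ) := by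
      push_cast
      linarith
    have h3 : a ≤ 2 * X i := by exact_mod_cast h2
    have h4 := (hXp i hi).2.2
    omega
  -- a number which is between X i + f (X i) and 16 * 2 ^ 2 ^ i is not in a window
  have hfree : ∀ i, i0 ≤ i → ∀ a : ℕ, (a ≤ X i ∨ (X i : ℝ) + f (X i) < a) → 2 ^ 2 ^ i < a →
      a ≤ 16 * 2 ^ 2 ^ i → ∀ k, i0 ≤ k → ¬ (X k < a ∧ (a : ℝ) ≤ X k + f (X k)) := by
    rintro i hi a h1 h2 h3 k hk ⟨h4, h5⟩
    rcases lt_trichotomy i k with hik | hik | hik
    · have h6 := (hXmono i k hik).resolve_right (by omega)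
      have h7 := (hXp k hk).2.1
      omega
    · subst hik
      rcases h1 with h1 | h1
      · omega
      · exact absurd h5 (not_le.2 h1)
    · have h6 := (hXmono k i hik).resolve_right (by omega)
      have h7 := hwin k hk a h5
      omega
  have hXB : ∀ i, i0 ≤ i → X i ∈ B := by
    intro i hi
    refine ⟨(hXp i hi).1, hfree i hi (X i) (Or.inl le_rfl) (hXp i hi).2.1 ?_⟩
    have := (hXp i hi).2.2
    omega
  have hXge : ∀ i, i0 ≤ i → i ≤ X i := by
    intro i hi
    have h1 : i < 2 ^ i := Nat.lt_two_pow_self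
    have h2 : 2 ^ i < 2 ^ 2 ^ i := Nat.lt_two_pow_self
    have h3 := (hXp i hi).2.1
    omega
  have hBinf : B.Infinite := by
    refine Set.infinite_of_not_bddAbove ?_
    rintro ⟨m, hm⟩
    have h1 := hm (hXB (max i0 (m + 1)) (le_max_left _ _))
    have h2 := hXge (max i0 (m + 1)) (le_max_left _ _)
    have h3 := le_max_right i0 (m + 1)
    omega
  refine ⟨B, fun a ha => ha.1, hBinf, ?_, ?_⟩
  · -- the limsup
    refine f4_limsup hBinf f N0 hfpos ?_ ?_
    · intro ε hε
      -- psi large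
      obtain ⟨J2, hJ2⟩ := eventually_atTop.1 (hψt.eventually_ge_atTop (⌈2 * C / ε⌉₊ + 1))
      filter_upwards [eventually_ge_atTop (max N0 (2 ^ (J2 + 1)))] with b hb hbB
      have hbN : N0 ≤ b := le_trans (le_max_left _ _) hb
      have hbJ : 2 ^ (J2 + 1) ≤ b := le_trans (le_max_right _ _) hb
      have hfb := hfpos b hbN
      obtain ⟨a, ha, h1, h2⟩ := hnextA' b hbN
      by_cases haB : a ∈ B
      · refine ⟨a, haB, h1, h2.trans ?_⟩
        nlinarith
      · -- `a` is in a window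
        have h3 : ∃ i, i0 ≤ i ∧ X i < a ∧ (a : ℝ) ≤ X i + f (X i) := by
          by_contra hc
          push Not at hc
          exact haB ⟨ha, fun i hi h => absurd h.2 (not_le.2 (hc i hi h.1))⟩
        obtain ⟨i, hi, h4, h5⟩ := h3
        have h6 : b ≤ X i := by
          by_contra hc
          push Not at hc
          refine hbB.2 i hi ⟨hc, le_trans ?_ h5⟩
          exact_mod_cast h1.le
        rcases h6.lt_or_eq with h7 | h7
        · refine ⟨X i, hXB i hi, h7, ?_⟩
          have h8 : (X i : ℝ) ≤ a := by exact_mod_cast h4.le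
          nlinarith
        · -- `b = X i`
          subst h7
          set m : ℕ := ⌊(X i : ℝ) + f (X i)⌋₊ with hm
          have hpos : (0 : ℝ) ≤ (X i : ℝ) + f (X i) := by positivity
          have hm1 : (m : ℝ) ≤ (X i : ℝ) + f (X i) := Nat.floor_le hpos
          have hm2 : (X i : ℝ) + f (X i) < m + 1 := Nat.lt_floor_add_one _
          have hm3 : X i ≤ m := Nat.le_floor (by linarith)
          have hmN : N0 ≤ m := hbN.trans hm3
          obtain ⟨a', ha', h8, h9⟩ := hnextA m hmN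
          have hm4 : m ≤ 2 * X i := by
            have h10 := hfle _ hbN
            have h11 : (m : ℝ) ≤ ((2 * X i : ℕ) : ℝ) := by
              push_cast
              linarith
            exact_mod_cast h11
          have h10 : (X i : ℝ) + f (X i) < a' := by
            have : ((m + 1 : ℕ) : ℝ) ≤ a' := by exact_mod_cast h8
            push_cast at this
            linarith
          -- level
          have hlev : 2 ^ (Nat.log 2 m - 1) ≤ X i := by
            have h11 : 2 ^ Nat.log 2 m ≤ m := Nat.pow_log_le_self 2 (by omega)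
            have h12 : 1 ≤ Nat.log 2 m := by
              have := Nat.le_log_of_pow_le (by norm_num : 1 < 2) (show 2 ^ 1 ≤ m by omega)
              exact this
            have h13 : 2 ^ Nat.log 2 m = 2 * 2 ^ (Nat.log 2 m - 1) := by
              rw [← pow_succ', Nat.sub_add_cancel h12]
            omega
          have h11 := hψ2 m (X i) hmN hlev hbN
          -- log m ≤ 2 log (X i)
          have h12 : Real.log m ≤ 2 * Real.log (X i) := by
            have hXi : (2 : ℝ) ≤ X i := by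
              have : 2 ≤ X i := by omega
              exact_mod_cast this
            have h13 : (m : ℝ) ≤ (X i : ℝ) ^ 2 := by
              have : (m : ℝ) ≤ 2 * X i := by exact_mod_cast hm4
              nlinarith
            have hm0 : (0 : ℝ) < m := by
              have : 0 < m := by omega
              exact_mod_cast this
            have h14 := Real.log_le_log hm0 h13
            rwa [Real.log_pow, Nat.cast_ofNat] at h14
          have hψ0 : (0 : ℝ) ≤ C * ψ (Nat.log 2 m) := by positivity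
          have h13 : C * ψ (Nat.log 2 m) * Real.log m ≤ 2 * (C / ψ (Nat.log 2 m) * f (X i)) := by
            calc C * ψ (Nat.log 2 m) * Real.log m
                ≤ C * ψ (Nat.log 2 m) * (2 * Real.log (X i)) :=
                  mul_le_mul_of_nonneg_left h12 hψ0
              _ = 2 * (C * ψ (Nat.log 2 m) * Real.log (X i)) := by ring
              _ ≤ _ := by linarith
          -- psi large
          have h14 : 2 * (C / ψ (Nat.log 2 m)) ≤ ε := by
            have h15 : J2 ≤ Nat.log 2 m := by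
              have := Nat.le_log_of_pow_le (by norm_num : 1 < 2) (hbJ.trans hm3)
              omega
            have h16' := hJ2 _ h15
            have h17 : (⌈2 * C / ε⌉₊ : ℝ) + 1 ≤ ψ (Nat.log 2 m) := by exact_mod_cast h16'
            have h18 : 2 * C / ε ≤ ψ (Nat.log 2 m) := by linarith [Nat.le_ceil (2 * C / ε)]
            have h19 : (0 : ℝ) < ψ (Nat.log 2 m) := by
              have : (0 : ℝ) ≤ (⌈2 * C / ε⌉₊ : ℝ) := Nat.cast_nonneg _
              linarith
            rw [div_le_iff₀ hε] at h18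
            rw [← mul_div_assoc, div_le_iff₀ h19]
            linarith
          have h15 : (a' : ℝ) ≤ X i + (1 + ε) * f (X i) := by
            have h16' : 2 * (C / ψ (Nat.log 2 m) * f (X i)) ≤ ε * f (X i) := by
              calc 2 * (C / ψ (Nat.log 2 m) * f (X i)) = (2 * (C / ψ (Nat.log 2 m))) * f (X i) := by
                    ring
                _ ≤ ε * f (X i) := mul_le_mul_of_nonneg_right h14 hfb.le
            linarith
          have h16' : (a' : ℝ) ≤ m + f m := by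
            have h17 := hψ2 m m hmN (hpl m hmN) hmN
            have h18 : C / ψ (Nat.log 2 m) * f m ≤ 1 * f m :=
              mul_le_mul_of_nonneg_right (hψC m hmN) (hfpos m hmN).le
            linarith
          have h17 : a' ≤ 2 * m := by
            have h18 := hfle m hmN
            have : (a' : ℝ) ≤ ((2 * m : ℕ) : ℝ) := by
              push_cast
              linarith
            exact_mod_cast this
          refine ⟨a', ⟨ha', hfree i hi a' (Or.inr h10) ?_ ?_⟩, ?_, h15⟩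
          · have := (hXp i hi).2.1
            omega
          · have := (hXp i hi).2.2
            omega
          · omega
    · intro m
      refine ⟨X (max i0 m), hXB _ (le_max_left _ _),
        le_trans (le_max_right i0 m) (hXge _ (le_max_left _ _)), ?_⟩
      intro b' hb' hlt
      by_contra hc
      push Not at hc
      exact hb'.2 _ (le_max_left _ _) ⟨hlt, hc.le⟩
  · -- the number of the deleted elements
    have hl2 : 0 < Real.log 2 := Real.log_pos (by norm_num)
    have hBm : ∀ n, n ∈ A → n ∉ B → ∃ i, i0 ≤ i ∧ X i < n ∧ (n : ℝ) ≤ X i + f (X i) := by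
      intro n hnA hnB
      by_contra hc
      push Not at hc
      exact hnB ⟨hnA, fun i hi h => absurd h.2 (not_le.2 (hc i hi h.1))⟩
    clear_value B
    refine ⟨(1 / Real.log 2) * (1 / Real.log 2), fun x hx => ?_⟩
    refine (?_ : ∀ S : Finset ℕ, (∀ n ∈ S, (1 ≤ n ∧ n ≤ x) ∧ n ∈ A ∧ n ∉ B) →
      (#S : ℝ) ≤ (1 / Real.log 2) * (1 / Real.log 2) * √x * Real.log x ^ 2) _ (fun n hn => by
        rw [mem_filter, mem_Icc] at hn
        exact hn)
    intro S hS
    have hsub : S ⊆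
        ((range (Nat.log 2 x)).filter (fun i => i0 ≤ i ∧ X i < x)).biUnion
          (fun i => Ioc (X i) (X i + ⌊f (X i)⌋₊)) := by
      intro n hn
      obtain ⟨⟨hn1, hnx⟩, hnA, hnB⟩ := hS n hn
      obtain ⟨i, hi, h4, h5⟩ := hBm n hnA hnB
      rw [mem_biUnion]
      refine ⟨i, ?_, ?_⟩
      · rw [mem_filter, mem_range]
        refine ⟨?_, hi, by omega⟩
        have h6 : 2 ^ 2 ^ i ≤ x := by
          have := (hXp i hi).2.1
          omega
        have h7 := Nat.le_log_of_pow_le (by norm_num : 1 < 2) h6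
        have h8 : i < 2 ^ i := Nat.lt_two_pow_self
        omega
      · rw [mem_Ioc]
        refine ⟨h4, ?_⟩
        have h6 : n - X i ≤ ⌊f (X i)⌋₊ := by
          apply Nat.le_floor
          rw [Nat.cast_sub h4.le]
          linarith
        omega
    have hcard := (card_le_card hsub).trans (card_biUnion_le)
    have hsx : ∀ i ∈ ((range (Nat.log 2 x)).filter (fun i => i0 ≤ i ∧ X i < x)),
        ((#(Ioc (X i) (X i + ⌊f (X i)⌋₊)) : ℕ) : ℝ) ≤ √x := by
      intro i hi
      rw [mem_filter] at hi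
      rw [Nat.card_Ioc, Nat.add_sub_cancel_left]
      have h1 := hXN i hi.2.1
      calc ((⌊f (X i)⌋₊ : ℕ) : ℝ) ≤ f (X i) := Nat.floor_le (hfpos _ h1).le
        _ ≤ √(X i) := hfsq _ h1
        _ ≤ √x := Real.sqrt_le_sqrt (by exact_mod_cast hi.2.2.le)
    have h1 : ((#S : ℕ) : ℝ) ≤ Nat.log 2 x * √x := by
      calc ((#S : ℕ) : ℝ)
          ≤ ((∑ i ∈ ((range (Nat.log 2 x)).filter (fun i => i0 ≤ i ∧ X i < x)),
            #(Ioc (X i) (X i + ⌊f (X i)⌋₊)) : ℕ) : ℝ) := by exact_mod_cast hcard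
        _ = ∑ i ∈ ((range (Nat.log 2 x)).filter (fun i => i0 ≤ i ∧ X i < x)),
            ((#(Ioc (X i) (X i + ⌊f (X i)⌋₊)) : ℕ) : ℝ) := by push_cast; rfl
        _ ≤ ∑ i ∈ ((range (Nat.log 2 x)).filter (fun i => i0 ≤ i ∧ X i < x)), √x :=
            Finset.sum_le_sum hsx
        _ = (#((range (Nat.log 2 x)).filter (fun i => i0 ≤ i ∧ X i < x)) : ℝ) * √x := by
            rw [Finset.sum_const, nsmul_eq_mul]
        _ ≤ Nat.log 2 x * √x := by
            refine mul_le_mul_of_nonneg_right ?_ (Real.sqrt_nonneg _)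
            have := card_filter_le (range (Nat.log 2 x)) (fun i => i0 ≤ i ∧ X i < x)
            rw [card_range] at this
            exact_mod_cast this
    have hx2 : (2 : ℝ) ≤ x := by exact_mod_cast hx
    have hlx : Real.log 2 ≤ Real.log x := Real.log_le_log (by norm_num) hx2
    have hlog : (Nat.log 2 x : ℝ) ≤ Real.log x / Real.log 2 := by
      rw [le_div_iff₀ hl2]
      have h1 : 2 ^ Nat.log 2 x ≤ x := Nat.pow_log_le_self 2 (by omega)
      have h2 : ((2 : ℝ)) ^ Nat.log 2 x ≤ x := by exact_mod_cast h1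
      have h3 := Real.log_le_log (by positivity) h2
      rwa [Real.log_pow] at h3
    have h1x : 1 ≤ Real.log x / Real.log 2 := by
      rw [le_div_iff₀ hl2]; linarith
    have h2 : (Nat.log 2 x : ℝ) ≤ (Real.log x / Real.log 2) * (Real.log x / Real.log 2) := by
      nlinarith
    calc ((#S : ℕ) : ℝ) ≤ Nat.log 2 x * √x := h1
      _ ≤ ((Real.log x / Real.log 2) * (Real.log x / Real.log 2)) * √x :=
          mul_le_mul_of_nonneg_right h2 (Real.sqrt_nonneg _)
      _ = _ := by ring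

end Pool.Agent.LibTHL
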