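import Pool.Agent.LibTHL.Cram
import Pool.Agent.LibTHL.Delete

/-! Every limsup of the gaps is compatible with the prime `k`-tuples conjecture. -/

set_option autoImplicit false

namespace Pool.Agent.LibTHL

open Finset Filter

/-- **Every limsup.** -/
theorem every_gap (f : ℕ → ℝ) (hf : Tendsto (fun n : ℕ => f n / Real.log n) atTop atTop)
    (hf2 : ∀ᶠ n : ℕ in atTop, f n ≤ √n) :
    ∃ A : Set ℕ, A.Infinite ∧ HLSqrt A ∧ gapLim f A = 1 := by
  obtain ⟨ψ, h1, h2⟩ := exists_psi f hf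
  obtain ⟨A, hA, C, hC, hg⟩ := construct ψ h1
  obtain ⟨B, hBA, hB, hlim, C', hC'⟩ := exists_delete f hf hf2 ψ h2 h1 A C hC hg
  exact ⟨B, hB, hA.modify hBA C' hC', hlim⟩

end Pool.Agent.LibTHL
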