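import Pool.Agent.LibTHL.Defs
import Pool.Agent.LibBar93.Conc

/-! Hoeffding's inequality for the random set. -/

set_option autoImplicit false
set_option linter.unusedVariables false
set_option linter.unusedSectionVars false

namespace Pool.Agent.LibTHL

open Finset MeasureTheory ProbabilityTheory Filter
open scoped ENNReal

section

variable {p : ℕ → ℝ} {b κ : ℕ → ℕ} {s : ℕ → ℕ → ℝ} {J : ℕ} {Ω : Type} [MeasurableSpace Ω]
  {μ : Measure Ω} [IsProbabilityMeasure μ] {A : Ω → Set ℕ} {P : Finset ℕ → ℝ}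

theorem Model.empty (hM : Model p b κ s J μ A P) : P ∅ = 1 := by
  rw [← hM.prob ∅]
  simp

theorem Model.prod_disj (hM : Model p b κ s J μ A P) (t : Finset ℕ) (G : ℕ → Finset ℕ)
    (hd : ∀ a ∈ t, ∀ c ∈ t, a ≠ c → Disjoint ((G a).biUnion (nb b J)) ((G c).biUnion (nb b J))) :
    P (t.biUnion G) = ∏ a ∈ t, P (G a) := by
  induction t using Finset.induction_on with
  | empty => simp [hM.empty]
  | insert a t ha ih =>
    rw [Finset.biUnion_insert, Finset.prod_insert ha, hM.mul, ih]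
    · intro c hc d hd' hcd
      exact hd c (mem_insert_of_mem hc) d (mem_insert_of_mem hd') hcd
    · rw [Finset.disjoint_left]
      intro i hi hi'
      rw [mem_biUnion] at hi'
      obtain ⟨n, hn, hni⟩ := hi'
      rw [mem_biUnion] at hn
      obtain ⟨c, hc, hnc⟩ := hn
      have h1 := hd a (mem_insert_self _ _) c (mem_insert_of_mem hc) (by
        rintro rfl
        exact ha hc)
      rw [Finset.disjoint_left] at h1
      exact h1 hi (mem_biUnion.2 ⟨n, hnc, hni⟩)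

theorem Model.measEv (hM : Model p b κ s J μ A P) (G : Finset ℕ) :
    MeasurableSet {ω | ∀ n ∈ G, n ∈ A ω} := by
  have : {ω | ∀ n ∈ G, n ∈ A ω} = ⋂ n ∈ G, {ω | n ∈ A ω} := by
    ext ω
    simp
  rw [this]
  exact Finset.measurableSet_biInter G fun n _ => hM.meas n

theorem Model.indep (hM : Model p b κ s J μ A P) (t : Finset ℕ) (G : ℕ → Finset ℕ)
    (hd : ∀ a ∈ t, ∀ c ∈ t, a ≠ c → Disjoint ((G a).biUnion (nb b J)) ((G c).biUnion (nb b J))) :
    iIndepSet (fun a : t => {ω | ∀ n ∈ G a, n ∈ A ω}) μ := by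
  classical
  rw [iIndepSet_iff_meas_biInter (fun a => hM.measEv _)]
  intro v
  have hinj : Function.Injective (fun a : t => (a : ℕ)) := Subtype.val_injective
  have h1 : (⋂ a ∈ v, {ω | ∀ n ∈ G a, n ∈ A ω}) =
      {ω | ∀ n ∈ (v.image (fun a : t => (a : ℕ))).biUnion G, n ∈ A ω} := by
    ext ω
    simp only [Set.mem_iInter, Set.mem_ofPred_eq, mem_biUnion, mem_image]
    constructor
    · rintro h n ⟨a, ⟨c, hc, rfl⟩, hn⟩
      exact h c hc n hn
    · intro h a ha n hn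
      exact h n ⟨a, ⟨a, ha, rfl⟩, hn⟩
  have h2 : P ((v.image (fun a : t => (a : ℕ))).biUnion G) = ∏ a ∈ v, P (G a) := by
    rw [hM.prod_disj, Finset.prod_image (fun a _ c _ h => hinj h)]
    intro a ha c hc hac
    rw [mem_image] at ha hc
    obtain ⟨a', -, rfl⟩ := ha
    obtain ⟨c', -, rfl⟩ := hc
    exact hd a' a'.2 c' c'.2 hac
  rw [h1, ← ENNReal.ofReal_toReal (measure_ne_top μ _)]
  have h3 : (μ {ω | ∀ n ∈ (v.image (fun a : t => (a : ℕ))).biUnion G, n ∈ A ω}).toReal =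
      P ((v.image (fun a : t => (a : ℕ))).biUnion G) := hM.prob _
  rw [h3, h2, ENNReal.ofReal_prod_of_nonneg]
  · refine Finset.prod_congr rfl fun a _ => ?_
    rw [← hM.prob (G a)]
    exact ENNReal.ofReal_toReal (measure_ne_top μ _)
  · intro a _
    rw [← hM.prob (G a)]
    exact measureReal_nonneg

open Classical in
/-- C1: Hoeffding's inequality for one colour. -/
theorem Model.hoeff (hM : Model p b κ s J μ A P) (t : Finset ℕ) (G : ℕ → Finset ℕ)
    (hd : ∀ a ∈ t, ∀ c ∈ t, a ≠ c → Disjoint ((G a).biUnion (nb b J)) ((G c).biUnion (nb b J)))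
    (x u : ℝ) (hu : 0 ≤ u) (hx : 0 < x) (hs : (#t : ℝ) ≤ x) :
    μ.real {ω | u ≤ |∑ a ∈ t, ((if ∀ n ∈ G a, n ∈ A ω then (1 : ℝ) else 0) - P (G a))|} ≤
      2 * Real.exp (-2 * u ^ 2 / x) := by
  rcases Nat.eq_zero_or_pos #t with hs0 | hspos
  · rw [Finset.card_eq_zero] at hs0
    subst hs0
    rcases hu.eq_or_lt with h0 | hpos
    · subst h0
      have h1 : μ.real {ω : Ω | (0 : ℝ) ≤ |∑ a ∈ (∅ : Finset ℕ),
          ((if ∀ n ∈ G a, n ∈ A ω then (1 : ℝ) else 0) - P (G a))|} ≤ 1 := measureReal_le_one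
      refine h1.trans ?_
      simp
    · have h1 : {ω : Ω | u ≤ |∑ a ∈ (∅ : Finset ℕ),
          ((if ∀ n ∈ G a, n ∈ A ω then (1 : ℝ) else 0) - P (G a))|} = ∅ := by
        ext ω
        simp [hpos]
      rw [h1, measureReal_empty]
      positivity
  set X : t → Ω → ℝ := fun a => ({ω | ∀ n ∈ G a, n ∈ A ω} : Set Ω).indicator fun _ => 1 with hX
  have hind : iIndepFun X μ := (hM.indep t G hd).iIndepFun_indicator
  have hmeas : ∀ a, Measurable (X a) := fun a =>
    measurable_const.indicator (hM.measEv _)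
  have hint : ∀ a, ∫ ω, X a ω ∂μ = P (G a) := by
    intro a
    rw [hX]
    simp only
    rw [integral_indicator_const _ (hM.measEv _), hM.prob]
    simp
  have hsub : ∀ a, HasSubgaussianMGF (fun ω => X a ω - P (G a)) ((‖(1 : ℝ) - 0‖₊ / 2) ^ 2) μ := by
    intro a
    have := hasSubgaussianMGF_of_mem_Icc (μ := μ) (a := 0) (b := 1) (hmeas a).aemeasurable
      (Eventually.of_forall fun ω => by
        rw [hX]
        simp only [Set.indicator]
        split_ifs <;> simp)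
    rw [hint a] at this
    exact this
  have hind2 : iIndepFun (fun (a : t) ω => X a ω - P (G a)) μ :=
    hind.comp (fun a x => x - P (G a)) fun a => measurable_id.sub_const _
  have hind3 : iIndepFun (fun (a : t) ω => -(X a ω - P (G a))) μ :=
    hind2.comp (fun _ x => -x) fun _ => measurable_neg
  have hsub3 : ∀ a : t, HasSubgaussianMGF (fun ω => -(X a ω - P (G a)))
      ((‖(1 : ℝ) - 0‖₊ / 2) ^ 2) μ := fun a => (hsub a).neg
  have b1 := HasSubgaussianMGF.measure_sum_ge_le_of_iIndepFun hind2 (s := univ)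
    (fun a _ => hsub a) hu
  have b2 := HasSubgaussianMGF.measure_sum_ge_le_of_iIndepFun hind3 (s := univ)
    (fun a _ => hsub3 a) hu
  have hc : (((∑ _a : t, (‖(1 : ℝ) - 0‖₊ / 2) ^ 2 : NNReal)) : ℝ) = #t / 4 := by
    rw [Finset.sum_const, Finset.card_univ, Fintype.card_coe]
    simp
    ring
  rw [hc] at b1 b2
  have hexp : Real.exp (-u ^ 2 / (2 * (#t / 4))) ≤ Real.exp (-2 * u ^ 2 / x) := by
    rw [Real.exp_le_exp]
    have hs0 : (0 : ℝ) < #t := by exact_mod_cast hspos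
    have e : -u ^ 2 / (2 * (#t / 4 : ℝ)) = -(2 * u ^ 2 / #t) := by
      field_simp
      ring
    have e' : -2 * u ^ 2 / x = -(2 * u ^ 2 / x) := by ring
    rw [e, e', neg_le_neg_iff]
    gcongr
  have hset : {ω | u ≤ |∑ a ∈ t, ((if ∀ n ∈ G a, n ∈ A ω then (1 : ℝ) else 0) - P (G a))|} ⊆
      {ω | u ≤ ∑ a : t, (X a ω - P (G a))} ∪ {ω | u ≤ ∑ a : t, -(X a ω - P (G a))} := by
    intro ω hω
    rw [Set.mem_ofPred_eq] at hω
    have e : ∑ a ∈ t, ((if ∀ n ∈ G a, n ∈ A ω then (1 : ℝ) else 0) - P (G a)) =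
        ∑ a : t, (X a ω - P (G a)) := by
      rw [← Finset.sum_coe_sort t]
      refine Finset.sum_congr rfl fun a _ => ?_
      rw [hX]
      simp only [Set.indicator, Set.mem_ofPred_eq]
    rw [e] at hω
    rcases le_abs.1 hω with h | h
    · exact Or.inl h
    · refine Or.inr ?_
      rw [Set.mem_ofPred_eq, Finset.sum_neg_distrib]
      exact h
  calc μ.real _ ≤ μ.real ({ω | u ≤ ∑ a : t, (X a ω - P (G a))} ∪
        {ω | u ≤ ∑ a : t, -(X a ω - P (G a))}) := measureReal_mono hset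
    _ ≤ μ.real {ω | u ≤ ∑ a : t, (X a ω - P (G a))} +
        μ.real {ω | u ≤ ∑ a : t, -(X a ω - P (G a))} := measureReal_union_le _ _
    _ ≤ Real.exp (-2 * u ^ 2 / x) + Real.exp (-2 * u ^ 2 / x) :=
        add_le_add (b1.trans hexp) (b2.trans hexp)
    _ = 2 * Real.exp (-2 * u ^ 2 / x) := by ring

open Classical in
/-- C2: the concentration inequality. -/
theorem Model.conc (hM : Model p b κ s J μ A P) (t : Finset ℕ) (G : ℕ → Finset ℕ) (D : ℕ)
    (hD : ∀ a ∈ t, ∀ v ⊆ t,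
      (∀ c ∈ v, ¬ Disjoint ((G a).biUnion (nb b J)) ((G c).biUnion (nb b J))) → #v ≤ D)
    (x u : ℝ) (hu : 0 ≤ u) (hx : 0 < x) (hs : (#t : ℝ) ≤ x) :
    μ.real {ω | (D + 1) * u ≤ |∑ a ∈ t, ((if ∀ n ∈ G a, n ∈ A ω then (1 : ℝ) else 0) - P (G a))|} ≤
      (D + 1) * (2 * Real.exp (-2 * u ^ 2 / x)) := by
  obtain ⟨c, hc, hc'⟩ := LibBar93.exists_colour t
    (fun a c => ¬ Disjoint ((G a).biUnion (nb b J)) ((G c).biUnion (nb b J)))
    (fun a c h h' => h h'.symm) D hD
  rcases eq_or_lt_of_le hu with ht0 | ht0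
  · rw [← ht0]
    have h1 : μ.real {ω | ((D : ℝ) + 1) * 0 ≤
        |∑ a ∈ t, ((if ∀ n ∈ G a, n ∈ A ω then (1 : ℝ) else 0) - P (G a))|} ≤ 1 :=
      measureReal_le_one
    have h2 : (1 : ℝ) ≤ (D + 1) * (2 * Real.exp (-2 * 0 ^ 2 / x)) := by
      have : Real.exp (-2 * (0 : ℝ) ^ 2 / x) = 1 := by simp
      rw [this]
      have : (0 : ℝ) ≤ D := Nat.cast_nonneg D
      linarith
    exact h1.trans h2
  set f : ℕ → Ω → ℝ := fun a ω => (if ∀ n ∈ G a, n ∈ A ω then (1 : ℝ) else 0) - P (G a) with hf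
  have hsub : {ω | ((D : ℝ) + 1) * u ≤ |∑ a ∈ t, f a ω|} ⊆
      ⋃ k ∈ range (D + 1), {ω | u ≤ |∑ a ∈ t with c a = k, f a ω|} := by
    intro ω hω
    by_contra hcon
    simp only [mem_range, Set.mem_iUnion, Set.mem_ofPred_eq, exists_prop, not_exists, not_and,
      not_le] at hcon
    have hsum : ∑ a ∈ t, f a ω = ∑ k ∈ range (D + 1), ∑ a ∈ t with c a = k, f a ω := by
      rw [Finset.sum_fiberwise_of_maps_to]
      intro a _
      exact Finset.mem_range.2 (Nat.lt_succ_of_le (hc a))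
    have h1 : |∑ a ∈ t, f a ω| < (D + 1) * u := by
      rw [hsum]
      calc |∑ k ∈ range (D + 1), ∑ a ∈ t with c a = k, f a ω|
          ≤ ∑ k ∈ range (D + 1), |∑ a ∈ t with c a = k, f a ω| := Finset.abs_sum_le_sum_abs _ _
        _ < ∑ _k ∈ range (D + 1), u := by
            refine Finset.sum_lt_sum_of_nonempty ⟨0, Finset.mem_range.2 (Nat.succ_pos D)⟩ ?_
            intro k hk
            exact hcon k (Finset.mem_range.1 hk)
        _ = (D + 1) * u := by simp
    exact absurd hω (not_le.2 h1)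
  have hone : ∀ k ∈ range (D + 1), μ.real {ω | u ≤ |∑ a ∈ t with c a = k, f a ω|} ≤
      2 * Real.exp (-2 * u ^ 2 / x) := by
    intro k _
    refine hM.hoeff {a ∈ t | c a = k} G ?_ x u hu hx ?_
    · intro a ha d hd had
      rw [Finset.mem_filter] at ha hd
      have := hc' a ha.1 d hd.1 had (ha.2.trans hd.2.symm)
      exact not_not.1 this
    · have h1 : (#{a ∈ t | c a = k} : ℝ) ≤ #t := by
        exact_mod_cast Finset.card_le_card (Finset.filter_subset _ _)
      exact h1.trans hs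
  calc μ.real {ω | ((D : ℝ) + 1) * u ≤ |∑ a ∈ t, f a ω|}
      ≤ μ.real (⋃ k ∈ range (D + 1), {ω | u ≤ |∑ a ∈ t with c a = k, f a ω|}) :=
        measureReal_mono hsub (measure_ne_top μ _)
    _ ≤ ∑ k ∈ range (D + 1), μ.real {ω | u ≤ |∑ a ∈ t with c a = k, f a ω|} :=
        measureReal_biUnion_finset_le _ _
    _ ≤ ∑ _k ∈ range (D + 1), 2 * Real.exp (-2 * u ^ 2 / x) := Finset.sum_le_sum hone
    _ = (D + 1) * (2 * Real.exp (-2 * u ^ 2 / x)) := by simp

end

end Pool.Agent.LibTHL
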