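import Pool.Agent.LibTHL.Moeb
import Pool.Agent.LibBar93.Block

/-! L3: perturbing the product law. -/

set_option autoImplicit false

namespace Pool.Agent.LibTHL

open Finset
open Pool.Agent.LibBar93 (pw pw_sum pw_incl)

/-- L3. -/
theorem law_pos (S : Finset ℕ) (θ : ℕ → ℝ) (h0 : ∀ n ∈ S, 0 ≤ θ n) (h1 : ∀ n ∈ S, θ n ≤ 1)
    (k : ℕ) (δ : Finset ℕ → ℝ) (hδ0 : δ ∅ = 0) (ε : ℝ) (hδ : ∀ F ⊆ S, #F ≤ k → |δ F| ≤ ε)
    (hε : 0 ≤ ε) (hs : ε * ∏ n ∈ S, (1 + θ n) ≤ 1 / 2 * ∏ n ∈ S, (1 - θ n)) :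
    ∃ w : Finset ℕ → ℝ,
      (∀ ω ∈ S.powerset, 1 / 2 * ((∏ n ∈ ω, θ n) * ∏ n ∈ S, (1 - θ n)) ≤ w ω) ∧
      ∑ ω ∈ S.powerset, w ω = 1 ∧
      ∀ F ⊆ S, #F ≤ k → ∑ ω ∈ S.powerset with F ⊆ ω, w ω = (1 + δ F) * ∏ n ∈ F, θ n := by
  refine ⟨fun ω => pw S θ ω + mb S θ k δ ω, ?_, ?_, ?_⟩
  · intro ω hω
    rw [mem_powerset] at hω
    have hθ : 0 ≤ ∏ n ∈ ω, θ n := prod_nonneg fun n hn => h0 n (hω hn)
    have hc : 0 ≤ ∏ n ∈ S \ ω, (1 - θ n) :=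
      prod_nonneg fun n hn => by linarith [h1 n (mem_sdiff.1 hn).1]
    have hd : ∏ n ∈ ω, (1 - θ n) ≤ 1 :=
      prod_le_one (fun n hn => by linarith [h1 n (hω hn)]) fun n hn => by linarith [h0 n (hω hn)]
    have hS : ∏ n ∈ S, (1 - θ n) ≤ ∏ n ∈ S \ ω, (1 - θ n) := by
      rw [← prod_sdiff hω]
      exact mul_le_of_le_one_right hc hd
    have h3 : (∏ n ∈ ω, θ n) * ∏ n ∈ S, (1 - θ n) ≤ pw S θ ω := mul_le_mul_of_nonneg_left hS hθ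
    have h4 := mb_abs S θ h0 k δ ε hδ hε ω hω
    have h5 : ε * (∏ n ∈ ω, θ n) * ∏ n ∈ S, (1 + θ n) ≤
        (∏ n ∈ ω, θ n) * (1 / 2 * ∏ n ∈ S, (1 - θ n)) := by
      have := mul_le_mul_of_nonneg_left hs hθ
      linarith [this]
    have h6 := (abs_le.1 h4).1
    simp only
    nlinarith [h3, h5, h6]
  · rw [sum_add_distrib, pw_sum]
    have h2 := mb_incl S θ k δ ∅ (empty_subset S)
    simp only [empty_subset, filter_true, card_empty, Nat.zero_le, if_true, hδ0, zero_mul] at h2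
    rw [h2, add_zero]
  · intro F hF hk
    rw [sum_add_distrib, pw_incl S θ F hF, mb_incl S θ k δ F hF, if_pos hk]
    ring

end Pool.Agent.LibTHL
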