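import Pool.Agent.LibTHL.BlkTwo
import Pool.Agent.LibBar93.Model

/-! The random set. -/

set_option autoImplicit false

namespace Pool.Agent.LibTHL

open Finset MeasureTheory ProbabilityTheory Filter
open scoped ENNReal

/-- the outcomes of one block: a set for every pair of sets of the neighbours -/
abbrev Out : Type := Finset ℕ × Finset ℕ → Finset ℕ

open Classical in
/-- the set chosen in the block `i` -/
noncomputable def XX (b : ℕ → ℕ) (ω : ℕ → Out) (i : ℕ) : Finset ℕ :=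
  if OddB b i then ω i (ω (i - len b i) (∅, ∅), ω (i + len b i) (∅, ∅)) else ω i (∅, ∅)

/-- the random set -/
def RS (p : ℕ → ℝ) (b : ℕ → ℕ) (J : ℕ) (ω : ℕ → Out) : Set ℕ :=
  {n | n ∈ XX b ω (blk b J n) ∧ p n ≠ 0 ∧ J ≤ Nat.log 2 n}

theorem XX_odd {b : ℕ → ℕ} {i : ℕ} (h : OddB b i) (ω : ℕ → Out) :
    XX b ω i = ω i (ω (i - len b i) (∅, ∅), ω (i + len b i) (∅, ∅)) := by
  unfold XX
  rw [if_pos h]

theorem XX_even {b : ℕ → ℕ} {i : ℕ} (h : ¬ OddB b i) (ω : ℕ → Out) :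
    XX b ω i = ω i (∅, ∅) := by
  unfold XX
  rw [if_neg h]

theorem meas_coord (i : ℕ) (z : Finset ℕ × Finset ℕ) (Q : Set (Finset ℕ)) :
    MeasurableSet {ω : ℕ → Out | ω i z ∈ Q} := by
  have h : Measurable (fun ω : ℕ → Out => ω i z) :=
    (measurable_pi_apply z).comp (measurable_pi_apply i)
  exact h MeasurableSet.of_discrete

theorem meas_XX (b : ℕ → ℕ) (i : ℕ) (Q : Set (Finset ℕ)) :
    MeasurableSet {ω : ℕ → Out | XX b ω i ∈ Q} := by
  by_cases h : OddB b i
  · have e : {ω : ℕ → Out | XX b ω i ∈ Q} = ⋃ z : Finset ℕ × Finset ℕ,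
        {ω | ω (i - len b i) (∅, ∅) ∈ ({z.1} : Set (Finset ℕ))} ∩
          {ω | ω (i + len b i) (∅, ∅) ∈ ({z.2} : Set (Finset ℕ))} ∩ {ω | ω i z ∈ Q} := by
      ext ω
      simp only [Set.mem_ofPred_eq, Set.mem_iUnion, Set.mem_inter_iff, Set.mem_singleton_iff,
        XX_odd h]
      constructor
      · intro hq
        exact ⟨(ω (i - len b i) (∅, ∅), ω (i + len b i) (∅, ∅)), ⟨rfl, rfl⟩, hq⟩
      · rintro ⟨⟨z1, z2⟩, ⟨h1, h2⟩, h3⟩
        dsimp only at h1 h2 h3
        rw [h1, h2]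
        exact h3
    rw [e]
    exact MeasurableSet.iUnion fun z =>
      ((meas_coord _ _ _).inter (meas_coord _ _ _)).inter (meas_coord _ _ _)
  · have e : {ω : ℕ → Out | XX b ω i ∈ Q} = {ω | ω i (∅, ∅) ∈ Q} := by
      ext ω
      simp only [Set.mem_ofPred_eq, XX_even h]
    rw [e]
    exact meas_coord _ _ _

theorem meas_RS (p : ℕ → ℝ) (b : ℕ → ℕ) (J n : ℕ) :
    MeasurableSet {ω : ℕ → Out | n ∈ RS p b J ω} := by
  have e : {ω : ℕ → Out | n ∈ RS p b J ω} =
      {ω | XX b ω (blk b J n) ∈ {F : Finset ℕ | n ∈ F ∧ p n ≠ 0 ∧ J ≤ Nat.log 2 n}} := by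
    ext ω
    rfl
  rw [e]
  exact meas_XX _ _ _

theorem meas_ev (p : ℕ → ℝ) (b : ℕ → ℕ) (J : ℕ) (G : Finset ℕ) :
    MeasurableSet {ω : ℕ → Out | ∀ n ∈ G, n ∈ RS p b J ω} := by
  have : {ω : ℕ → Out | ∀ n ∈ G, n ∈ RS p b J ω} = ⋂ n ∈ G, {ω | n ∈ RS p b J ω} := by
    ext ω
    simp
  rw [this]
  exact Finset.measurableSet_biInter G fun n _ => meas_RS p b J n

/-- the event `n ∈ A` depends on the blocks in `nb n` only -/
theorem dep (p : ℕ → ℝ) (b : ℕ → ℕ) (J n : ℕ) (ω ω' : ℕ → Out)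
    (h : ∀ i ∈ nb b J n, ω i = ω' i) : n ∈ RS p b J ω ↔ n ∈ RS p b J ω' := by
  by_cases hJ : J ≤ Nat.log 2 n
  · have hX : XX b ω (blk b J n) = XX b ω' (blk b J n) := by
      by_cases ho : OddB b (blk b J n)
      · rw [XX_odd ho, XX_odd ho]
        have hn : nb b J n = {blk b J n - len b (blk b J n), blk b J n,
            blk b J n + len b (blk b J n)} := by
          unfold nb
          rw [if_neg (not_lt.2 hJ), if_pos ho]
        rw [h _ (by rw [hn]; simp), h (blk b J n - len b (blk b J n)) (by rw [hn]; simp),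
          h (blk b J n + len b (blk b J n)) (by rw [hn]; simp)]
      · rw [XX_even ho, XX_even ho]
        have hn : nb b J n = {blk b J n} := by
          unfold nb
          rw [if_neg (not_lt.2 hJ), if_neg ho]
        rw [h _ (by rw [hn]; simp)]
    unfold RS
    rw [Set.mem_ofPred_eq, Set.mem_ofPred_eq, hX]
  · unfold RS
    rw [Set.mem_ofPred_eq, Set.mem_ofPred_eq]
    constructor
    · intro h'
      exact absurd h'.2.2 hJ
    · intro h'
      exact absurd h'.2.2 hJ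

theorem dep_ev (p : ℕ → ℝ) (b : ℕ → ℕ) (J : ℕ) (G : Finset ℕ) (ω ω' : ℕ → Out)
    (h : ∀ i ∈ G.biUnion (nb b J), ω i = ω' i) :
    (∀ n ∈ G, n ∈ RS p b J ω) ↔ ∀ n ∈ G, n ∈ RS p b J ω' := by
  constructor
  · intro h' n hn
    exact (dep p b J n ω ω' fun i hi => h i (mem_biUnion.2 ⟨n, hn, hi⟩)).1 (h' n hn)
  · intro h' n hn
    exact (dep p b J n ω ω' fun i hi => h i (mem_biUnion.2 ⟨n, hn, hi⟩)).2 (h' n hn)

open Classical in
/-- extension by a default value -/
noncomputable def ext (V : Finset ℕ) (y : V → Out) : ℕ → Out :=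
  fun i => if h : i ∈ V then y ⟨i, h⟩ else fun _ => ∅

theorem meas_ext (V : Finset ℕ) : Measurable (ext V) := by
  refine measurable_pi_lambda _ fun i => ?_
  unfold ext
  by_cases h : i ∈ V
  · simp only [h, dif_pos]
    exact measurable_pi_apply _
  · simp only [h, dif_neg, not_false_eq_true]
    exact measurable_const

theorem indep_ev (M : ℕ → Measure Out) [∀ i, IsProbabilityMeasure (M i)]
    (p : ℕ → ℝ) (b : ℕ → ℕ) (J : ℕ) (G G' : Finset ℕ)
    (hd : Disjoint (G.biUnion (nb b J)) (G'.biUnion (nb b J))) :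
    (Measure.infinitePi M) {ω | ∀ n ∈ G ∪ G', n ∈ RS p b J ω} =
      (Measure.infinitePi M) {ω | ∀ n ∈ G, n ∈ RS p b J ω} *
        (Measure.infinitePi M) {ω | ∀ n ∈ G', n ∈ RS p b J ω} := by
  have hind : iIndepFun (fun (i : ℕ) (ω : ℕ → Out) => ω i) (Measure.infinitePi M) := by
    have := iIndepFun_infinitePi (P := M) (X := fun (_ : ℕ) (y : Out) => y)
      (fun _ => measurable_id)
    exact this
  have h2 := hind.indepFun_finset (G.biUnion (nb b J)) (G'.biUnion (nb b J)) hd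
    (fun i => measurable_pi_apply i)
  have e1 : ∀ K : Finset ℕ, {ω : ℕ → Out | ∀ n ∈ K, n ∈ RS p b J ω} =
      (fun (a : ℕ → Out) (i : (K.biUnion (nb b J))) => a i) ⁻¹'
        (ext (K.biUnion (nb b J)) ⁻¹' {ω | ∀ n ∈ K, n ∈ RS p b J ω}) := by
    intro K
    ext ω
    rw [Set.mem_preimage, Set.mem_preimage, Set.mem_ofPred_eq, Set.mem_ofPred_eq]
    refine dep_ev p b J K _ _ fun i hi => ?_
    unfold ext
    rw [dif_pos hi]
  have h3 := h2.measure_inter_preimage_eq_mul _ _ (meas_ext _ (meas_ev p b J G))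
    (meas_ext _ (meas_ev p b J G'))
  rw [← e1 G, ← e1 G'] at h3
  rw [← h3]
  congr 1
  ext ω
  simp only [Set.mem_ofPred_eq, Set.mem_inter_iff, mem_union]
  constructor
  · intro h
    exact ⟨fun n hn => h n (Or.inl hn), fun n hn => h n (Or.inr hn)⟩
  · rintro ⟨h, h'⟩ n (hn | hn)
    · exact h n hn
    · exact h' n hn

end Pool.Agent.LibTHL
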