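import Pool.Agent.LibTHL.Model

/-! The random set, existence. -/

set_option autoImplicit false

namespace Pool.Agent.LibTHL

open Finset MeasureTheory ProbabilityTheory Filter
open scoped ENNReal

section core

variable {p : ℕ → ℝ} {b κ : ℕ → ℕ} {s : ℕ → ℕ → ℝ} {J : ℕ}
  {w : ℕ → Finset ℕ → Finset ℕ → Finset ℕ → ℝ}
  {m : ℕ → Finset ℕ × Finset ℕ → Measure (Finset ℕ)} [∀ i z, IsProbabilityMeasure (m i z)]

/-- the measure on the outcomes of all blocks -/
noncomputable def MU (m : ℕ → Finset ℕ × Finset ℕ → Measure (Finset ℕ))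
    [∀ i z, IsProbabilityMeasure (m i z)] : Measure (ℕ → Out) :=
  Measure.infinitePi fun i => (Measure.infinitePi fun z => m i z)

instance : IsProbabilityMeasure (MU m) := by
  unfold MU
  infer_instance

theorem inner_apply (i : ℕ) (z : Finset ℕ × Finset ℕ) (Q : Set (Finset ℕ)) :
    (Measure.infinitePi fun z => m i z) {y : Out | y z ∈ Q} = m i z Q := by
  have h := Measure.infinitePi_map_eval (fun z => m i z) z
  conv_rhs => rw [← h, Measure.map_apply (measurable_pi_apply z) MeasurableSet.of_discrete]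
  rfl

theorem outer_apply (i : ℕ) (z : Finset ℕ × Finset ℕ) (Q : Set (Finset ℕ)) :
    MU m {ω : ℕ → Out | ω i z ∈ Q} = m i z Q := by
  have h := Measure.infinitePi_map_eval (fun i => (Measure.infinitePi fun z => m i z)) i
  have hm : MeasurableSet {y : Out | y z ∈ Q} := (measurable_pi_apply z) MeasurableSet.of_discrete
  rw [← inner_apply (m := m) i z Q, ← h, Measure.map_apply (measurable_pi_apply i) hm]
  rfl

theorem triple_apply (i l r : ℕ) (hil : l ≠ i) (hir : r ≠ i) (hlr : l ≠ r) (z z' : Finset ℕ)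
    (Q : Set (Finset ℕ)) :
    MU m {ω : ℕ → Out | ω l (∅, ∅) = z ∧ ω r (∅, ∅) = z' ∧ ω i (z, z') ∈ Q} =
      m l (∅, ∅) {z} * m r (∅, ∅) {z'} * m i (z, z') Q := by
  classical
  set t : ℕ → Set Out := fun a => if a = i then {y | y (z, z') ∈ Q} else
    if a = l then {y | y (∅, ∅) ∈ ({z} : Set (Finset ℕ))} else {y | y (∅, ∅) ∈ ({z'} : Set (Finset ℕ))}
    with ht
  have ht_i : t i = {y | y (z, z') ∈ Q} := by
    rw [ht]
    simp
  have ht_l : t l = {y | y (∅, ∅) ∈ ({z} : Set (Finset ℕ))} := by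
    rw [ht]
    simp [hil]
  have ht_r : t r = {y | y (∅, ∅) ∈ ({z'} : Set (Finset ℕ))} := by
    rw [ht]
    simp [hir, hlr.symm]
  have e : {ω : ℕ → Out | ω l (∅, ∅) = z ∧ ω r (∅, ∅) = z' ∧ ω i (z, z') ∈ Q} =
      ((({l, r, i} : Finset ℕ)) : Set ℕ).pi t := by
    ext ω
    simp only [Set.mem_ofPred_eq, Set.mem_pi, Finset.coe_insert, Finset.coe_singleton,
      Set.mem_insert_iff, Set.mem_singleton_iff, forall_eq_or_imp, forall_eq, ht_i, ht_l, ht_r]
  have hmt : ∀ a ∈ ({l, r, i} : Finset ℕ), MeasurableSet (t a) := by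
    intro a _
    rw [ht]
    dsimp only
    split_ifs
    · exact (measurable_pi_apply _) MeasurableSet.of_discrete
    · exact (measurable_pi_apply _) MeasurableSet.of_discrete
    · exact (measurable_pi_apply _) MeasurableSet.of_discrete
  unfold MU
  rw [e, Measure.infinitePi_pi _ hmt, Finset.prod_insert, Finset.prod_insert,
    Finset.prod_singleton, ht_i, ht_l, ht_r, inner_apply, inner_apply, inner_apply, mul_assoc]
  · simp [hir]
  · simp [hlr, hil]

/-- probability that the neighbours take given values and the odd block contains a given set -/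
theorem odd_prob (hb : GoodB b J) (hw : Sys p b κ s J w)
    (hm : ∀ i (z : Finset ℕ × Finset ℕ) (Q : Finset ℕ → Prop) [DecidablePred Q],
      m i z {ω | Q ω} = ENNReal.ofReal (∑ ω ∈ (sites p b J i).powerset with Q ω, w i z.1 z.2 ω))
    (i : ℕ) (hi : IsBlk b J i) (ho : OddB b i) (F Fl Fr : Finset ℕ) :
    (MU m).real {ω : ℕ → Out | Fl ⊆ ω (i - len b i) (∅, ∅) ∧ Fr ⊆ ω (i + len b i) (∅, ∅) ∧
      F ⊆ ω i (ω (i - len b i) (∅, ∅), ω (i + len b i) (∅, ∅))} =
    ∑ z ∈ (sites p b J (i - len b i)).powerset with Fl ⊆ z,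
      ∑ z' ∈ (sites p b J (i + len b i)).powerset with Fr ⊆ z',
        w (i - len b i) ∅ ∅ z * w (i + len b i) ∅ ∅ z' *
          ∑ ω ∈ (sites p b J i).powerset with F ⊆ ω, w i z z' ω := by
  classical
  set l := i - len b i with hl
  set r := i + len b i with hr
  have hlen : 0 < len b i := hb.pos _
  have hle : len b i ≤ i := (left_nb hb hi ho).1
  have hli : l ≠ i := by omega
  have hri : r ≠ i := by omega
  have hlr : l ≠ r := by omega
  set I := ((sites p b J l).powerset.filter (fun z => Fl ⊆ z)) ×ˢ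
    ((sites p b J r).powerset.filter (fun z' => Fr ⊆ z')) with hI
  set U : Finset ℕ × Finset ℕ → Set (ℕ → Out) := fun z =>
    {ω : ℕ → Out | ω l (∅, ∅) = z.1 ∧ ω r (∅, ∅) = z.2 ∧ ω i (z.1, z.2) ∈ {T : Finset ℕ | F ⊆ T}}
    with hU
  have hnull : ∀ a : ℕ, MU m {ω : ℕ → Out | ω a (∅, ∅) ∈ {T : Finset ℕ | ¬ T ⊆ sites p b J a}} = 0 := by
    intro a
    rw [outer_apply, hm, ENNReal.ofReal_eq_zero]
    refine le_of_eq (Finset.sum_eq_zero fun T hT => ?_)
    rw [mem_filter, mem_powerset] at hT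
    exact absurd hT.1 hT.2
  have hmeas : ∀ z ∈ I, MeasurableSet (U z) := by
    intro z _
    have : U z = {ω | ω l (∅, ∅) ∈ ({z.1} : Set (Finset ℕ))} ∩
        {ω | ω r (∅, ∅) ∈ ({z.2} : Set (Finset ℕ))} ∩ {ω | ω i (z.1, z.2) ∈ {T : Finset ℕ | F ⊆ T}} := by
      ext ω
      simp only [hU, Set.mem_ofPred_eq, Set.mem_inter_iff, Set.mem_singleton_iff, and_assoc]
    rw [this]
    exact ((meas_coord _ _ _).inter (meas_coord _ _ _)).inter (meas_coord _ _ _)
  have hdisj : (I : Set (Finset ℕ × Finset ℕ)).PairwiseDisjoint U := by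
    intro z _ z' _ hzz
    rw [Function.onFun, Set.disjoint_left]
    intro ω h1 h2
    simp only [hU, Set.mem_ofPred_eq] at h1 h2
    exact hzz (Prod.ext (h1.1.symm.trans h2.1) (h1.2.1.symm.trans h2.2.1))
  set E := {ω : ℕ → Out | Fl ⊆ ω l (∅, ∅) ∧ Fr ⊆ ω r (∅, ∅) ∧
      F ⊆ ω i (ω l (∅, ∅), ω r (∅, ∅))} with hE
  have hUE : (⋃ z ∈ I, U z) ⊆ E := by
    intro ω hω
    rw [Set.mem_iUnion₂] at hω
    obtain ⟨z, hz, hωz⟩ := hω
    rw [hI, mem_product, mem_filter, mem_filter] at hz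
    simp only [hU, Set.mem_ofPred_eq] at hωz
    simp only [hE, Set.mem_ofPred_eq]
    rw [hωz.1, hωz.2.1]
    exact ⟨hz.1.2, hz.2.2, hωz.2.2⟩
  have hEU : E ⊆ (⋃ z ∈ I, U z) ∪
      ({ω : ℕ → Out | ω l (∅, ∅) ∈ {T : Finset ℕ | ¬ T ⊆ sites p b J l}} ∪
        {ω : ℕ → Out | ω r (∅, ∅) ∈ {T : Finset ℕ | ¬ T ⊆ sites p b J r}}) := by
    intro ω hω
    simp only [hE, Set.mem_ofPred_eq] at hω
    by_cases h1 : ω l (∅, ∅) ⊆ sites p b J l
    · by_cases h2 : ω r (∅, ∅) ⊆ sites p b J r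
      · left
        rw [Set.mem_iUnion₂]
        refine ⟨(ω l (∅, ∅), ω r (∅, ∅)), ?_, rfl, rfl, hω.2.2⟩
        rw [hI, mem_product, mem_filter, mem_filter, mem_powerset, mem_powerset]
        exact ⟨⟨h1, hω.1⟩, h2, hω.2.1⟩
      · right
        right
        exact h2
    · right
      left
      exact h1
  have hme : MU m E = MU m (⋃ z ∈ I, U z) := by
    refine le_antisymm ?_ (measure_mono hUE)
    refine (measure_mono hEU).trans ((measure_union_le _ _).trans ?_)
    rw [measure_union_null (hnull l) (hnull r), add_zero]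
  have hUz : ∀ z ∈ I, MU m (U z) = ENNReal.ofReal (w l ∅ ∅ z.1 * w r ∅ ∅ z.2 *
      ∑ ω ∈ (sites p b J i).powerset with F ⊆ ω, w i z.1 z.2 ω) := by
    intro z hz
    rw [hI, mem_product, mem_filter, mem_filter, mem_powerset, mem_powerset] at hz
    have hsing : ∀ (a : ℕ) (y : Finset ℕ), y ⊆ sites p b J a →
        m a (∅, ∅) {y} = ENNReal.ofReal (w a ∅ ∅ y) := by
      intro a y hy
      have h1 := hm a (∅, ∅) (fun T => T = y)
      have h2 : ({ω | ω = y} : Set (Finset ℕ)) = {y} := rfl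
      rw [h2] at h1
      rw [h1]
      congr 1
      rw [Finset.filter_eq' , if_pos (mem_powerset.2 hy), Finset.sum_singleton]
    rw [hU]
    dsimp only
    rw [triple_apply i l r hli hri hlr, hsing l z.1 hz.1.1, hsing r z.2 hz.2.1, hm,
      ENNReal.ofReal_mul (mul_nonneg (hw.nonneg _ _ _ _) (hw.nonneg _ _ _ _)),
      ENNReal.ofReal_mul (hw.nonneg _ _ _ _)]
  rw [Measure.real, hme, measure_biUnion_finset hdisj hmeas, Finset.sum_congr rfl hUz,
    ← ENNReal.ofReal_sum_of_nonneg, ENNReal.toReal_ofReal]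
  · rw [hI, Finset.sum_product]
  · refine Finset.sum_nonneg fun z _ => mul_nonneg (mul_nonneg (hw.nonneg _ _ _ _)
      (hw.nonneg _ _ _ _)) (Finset.sum_nonneg fun _ _ => hw.nonneg _ _ _ _)
  · intro z _
    exact mul_nonneg (mul_nonneg (hw.nonneg _ _ _ _)
      (hw.nonneg _ _ _ _)) (Finset.sum_nonneg fun _ _ => hw.nonneg _ _ _ _)

end core

end Pool.Agent.LibTHL
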