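import Pool.Agent.LibTHL.Model2

/-! The random set, existence of the model. -/

set_option autoImplicit false

namespace Pool.Agent.LibTHL

open Finset MeasureTheory ProbabilityTheory Filter
open scoped ENNReal

theorem sites_of {p : ℕ → ℝ} {b : ℕ → ℕ} {J i : ℕ} (hi : IsBlk b J i) :
    sites p b J i = {n ∈ Ico i (i + b (Nat.log 2 i)) | p n ≠ 0} := by
  unfold sites
  exact if_pos hi

section core

variable {p : ℕ → ℝ} {b κ : ℕ → ℕ} {s : ℕ → ℕ → ℝ} {J : ℕ}
  {w : ℕ → Finset ℕ → Finset ℕ → Finset ℕ → ℝ}
  {m : ℕ → Finset ℕ × Finset ℕ → Measure (Finset ℕ)} [∀ i z, IsProbabilityMeasure (m i z)]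

open Classical in
theorem ev_odd (hb : GoodB b J) (i : ℕ) (hi : IsBlk b J i) (ho : OddB b i) (F : Finset ℕ)
    (hF : ∀ n ∈ F, blk b J n = i ∨ blk b J n = i - len b i ∨ blk b J n = i + len b i)
    (hp : ∀ n ∈ F, p n ≠ 0 ∧ J ≤ Nat.log 2 n) :
    {ω : ℕ → Out | ∀ n ∈ F, n ∈ RS p b J ω} =
      {ω : ℕ → Out | F.filter (fun n => blk b J n = i - len b i) ⊆ ω (i - len b i) (∅, ∅) ∧
        F.filter (fun n => blk b J n = i + len b i) ⊆ ω (i + len b i) (∅, ∅) ∧
        F.filter (fun n => blk b J n = i) ⊆
          ω i (ω (i - len b i) (∅, ∅), ω (i + len b i) (∅, ∅))} := by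
  obtain ⟨hle, hl, hlo, -⟩ := left_nb hb hi ho
  obtain ⟨hr, hro, -⟩ := right_nb hb hi ho
  ext ω
  simp only [Set.mem_ofPred_eq]
  constructor
  · intro h
    refine ⟨fun n hn => ?_, fun n hn => ?_, fun n hn => ?_⟩
    · rw [mem_filter] at hn
      have := (h n hn.1).1
      rw [hn.2, XX_even hlo] at this
      exact this
    · rw [mem_filter] at hn
      have := (h n hn.1).1
      rw [hn.2, XX_even hro] at this
      exact this
    · rw [mem_filter] at hn
      have := (h n hn.1).1
      rw [hn.2, XX_odd ho] at this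
      exact this
  · rintro ⟨h1, h2, h3⟩ n hn
    refine ⟨?_, hp n hn⟩
    rcases hF n hn with h | h | h
    · rw [h, XX_odd ho]
      exact h3 (mem_filter.2 ⟨hn, h⟩)
    · rw [h, XX_even hlo]
      exact h1 (mem_filter.2 ⟨hn, h⟩)
    · rw [h, XX_even hro]
      exact h2 (mem_filter.2 ⟨hn, h⟩)

theorem mem_sites_of (hb : GoodB b J) {n i : ℕ} (hn : blk b J n = i) (hp : p n ≠ 0)
    (hJ : J ≤ Nat.log 2 n) : n ∈ sites p b J i := by
  obtain ⟨h1, h2, h3, h4, h5⟩ := blk_spec hb hJ
  rw [hn] at h1 h2 h3 h5
  rw [sites_of h5, mem_filter, mem_Ico, h3]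
  exact ⟨⟨h1, h2⟩, hp⟩

theorem ev_empty {F : Finset ℕ} {n : ℕ} (hn : n ∈ F) (h : ¬ (p n ≠ 0 ∧ J ≤ Nat.log 2 n)) :
    {ω : ℕ → Out | ∀ n ∈ F, n ∈ RS p b J ω} = ∅ := by
  ext ω
  simp only [Set.mem_ofPred_eq, Set.mem_empty_iff_false, iff_false]
  intro hω
  exact h (hω n hn).2

end core

/-- M1. -/
theorem exists_model {p : ℕ → ℝ} {b κ : ℕ → ℕ} {s : ℕ → ℕ → ℝ} {J : ℕ} (hp : ∀ n, 0 ≤ p n)
    (hb : GoodB b J) (w : ℕ → Finset ℕ → Finset ℕ → Finset ℕ → ℝ) (hw : Sys p b κ s J w) :
    ∃ (Ω : Type) (_ : MeasurableSpace Ω) (μ : Measure Ω) (_ : IsProbabilityMeasure μ)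
      (A : Ω → Set ℕ) (P : Finset ℕ → ℝ), Model p b κ s J μ A P := by
  classical
  choose m hm hmQ using fun (i : ℕ) (z : Finset ℕ × Finset ℕ) =>
    LibBar93.exists_prob (sites p b J i) (w i z.1 z.2) (hw.nonneg i z.1 z.2) (hw.supp i z.1 z.2)
      (hw.total i z.1 z.2)
  refine ⟨ℕ → Out, inferInstance, MU m, inferInstance, RS p b J,
    fun G => (MU m).real {ω | ∀ n ∈ G, n ∈ RS p b J ω}, ?_, ?_, ?_, ?_, ?_, ?_⟩
  · exact meas_RS p b J
  · intro ω n hn
    exact hn.2
  · have h1 : ∀ z : ℕ × (Finset ℕ × Finset ℕ), ∀ᵐ ω ∂(MU m),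
        ω z.1 z.2 ⊆ sites p b J z.1 ∧ (IsBlk b J z.1 ∧ OddB b z.1 → ω z.1 z.2 ≠ ∅) := by
      rintro ⟨i, z⟩
      have h2 : MU m {ω : ℕ → Out | ω i z ∈
          {T : Finset ℕ | ¬ (T ⊆ sites p b J i ∧ (IsBlk b J i ∧ OddB b i → T ≠ ∅))}} = 0 := by
        rw [outer_apply, hmQ, ENNReal.ofReal_eq_zero]
        refine le_of_eq (Finset.sum_eq_zero fun T hT => ?_)
        rw [mem_filter, mem_powerset] at hT
        have h3 : ¬ (IsBlk b J i ∧ OddB b i → T ≠ ∅) := fun h => hT.2 ⟨hT.1, h⟩
        push Not at h3
        rw [h3.2]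
        exact hw.ne i h3.1.1 h3.1.2 _ _
      exact h2
    filter_upwards [ae_all_iff.2 h1] with ω hω i hi ho
    have h2 := hω (i, (ω (i - len b i) (∅, ∅), ω (i + len b i) (∅, ∅)))
    dsimp only at h2
    obtain ⟨n, hn⟩ := Finset.nonempty_iff_ne_empty.2 (h2.2 ⟨hi, ho⟩)
    have hn' := h2.1 hn
    rw [sites_of hi, mem_filter, mem_Ico] at hn'
    obtain ⟨hbl, hl⟩ := blk_of_mem hb hi hn'.1.1 hn'.1.2
    refine ⟨n, ⟨?_, hn'.2, ?_⟩, hbl⟩
    · rw [hbl, XX_odd ho]
      exact hn
    · rw [hl]
      exact hi.1
  · intro G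
    rfl
  · intro G G' hd
    simp only [Measure.real]
    rw [← ENNReal.toReal_mul]
    congr 1
    exact indep_ev _ p b J G G' hd
  · intro j hj F h1 h2 hk
    have hmQ' : ∀ i (z : Finset ℕ × Finset ℕ) (Q : Finset ℕ → Prop) [DecidablePred Q],
      m i z {ω | Q ω} = ENNReal.ofReal (∑ ω ∈ (sites p b J i).powerset with Q ω, w i z.1 z.2 ω) :=
      fun i z Q _ => hmQ i z Q
    by_cases hz : ∀ n ∈ F, p n ≠ 0
    swap
    · push Not at hz
      obtain ⟨n, hn, hn0⟩ := hz
      rw [ev_empty hn (fun h => h.1 hn0), measureReal_empty, Finset.prod_eq_zero hn hn0, mul_zero]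
    have hlev : ∀ n ∈ F, J ≤ Nat.log 2 n := fun n hn => by
      rw [h1 n hn]
      exact hj
    have hsub : ∀ i, F.filter (fun n => blk b J n = i) ⊆ sites p b J i := by
      intro i n hn
      rw [mem_filter] at hn
      exact mem_sites_of hb hn.2 (hz n hn.1) (hlev n hn.1)
    have hcard : ∀ i, #(F.filter (fun n => blk b J n = i)) ≤ κ j := fun i =>
      (Finset.card_le_card (filter_subset _ _)).trans hk
    rcases two_blocks hb hj F h1 h2 with ⟨i, hi, hij, hF⟩ | ⟨i, hi, hij, ho, hF⟩ |
      ⟨i, hi, hij, ho, hr, hF⟩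
    · by_cases ho : OddB b i
      · -- one odd block
        obtain ⟨hle, hl, hlo, -⟩ := left_nb hb hi ho
        have hlen : 0 < len b i := hb.pos _
        rw [ev_odd hb i hi ho F (fun n hn => Or.inl (hF n hn)) (fun n hn => ⟨hz n hn, hlev n hn⟩),
          odd_prob hb hw hmQ' i hi ho]
        have e1 : F.filter (fun n => blk b J n = i - len b i) = ∅ := by
          rw [Finset.filter_eq_empty_iff]
          intro n hn
          rw [hF n hn]
          omega
        have e2 : F.filter (fun n => blk b J n = i + len b i) = ∅ := by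
          rw [Finset.filter_eq_empty_iff]
          intro n hn
          rw [hF n hn]
          omega
        have e3 : F.filter (fun n => blk b J n = i) = F := by
          rw [Finset.filter_eq_self]
          exact hF
        have e4 : ∀ T : Finset (Finset ℕ), T.filter (fun z' => (∅ : Finset ℕ) ⊆ z') = T := by
          intro T
          rw [Finset.filter_eq_self]
          exact fun _ _ => empty_subset _
        have h3 := hw.left i hi ho F (by rw [← e3]; exact hsub i) (by rw [hij]; exact hk) ∅
          (empty_subset _) (by simp)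
        rw [e1, e2, e3]
        rw [e4 (sites p b J (i + len b i)).powerset, h3, hij]
        simp
      · -- one even block
        have e : {ω : ℕ → Out | ∀ n ∈ F, n ∈ RS p b J ω} =
            {ω | ω i (∅, ∅) ∈ {T : Finset ℕ | F ⊆ T}} := by
          ext ω
          simp only [Set.mem_ofPred_eq]
          constructor
          · intro h n hn
            have := (h n hn).1
            rw [hF n hn, XX_even ho] at this
            exact this
          · intro h n hn
            refine ⟨?_, hz n hn, hlev n hn⟩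
            rw [hF n hn, XX_even ho]
            exact h hn
        have hFs : F ⊆ sites p b J i := by
          have := hsub i
          rw [Finset.filter_eq_self.2 hF] at this
          exact this
        rw [Measure.real, e, outer_apply, hmQ, ENNReal.toReal_ofReal, hw.even i hi ho F hFs
          (by rw [hij]; exact hk), hij]
        exact Finset.sum_nonneg fun _ _ => hw.nonneg _ _ _ _
    · -- an odd block and its left neighbour
      obtain ⟨hle, hl, hlo, -⟩ := left_nb hb hi ho
      have hlen : 0 < len b i := hb.pos _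
      rw [ev_odd hb i hi ho F (fun n hn => (hF n hn).imp id Or.inl)
        (fun n hn => ⟨hz n hn, hlev n hn⟩), odd_prob hb hw hmQ' i hi ho]
      have e2 : F.filter (fun n => blk b J n = i + len b i) = ∅ := by
        rw [Finset.filter_eq_empty_iff]
        intro n hn
        rcases hF n hn with h | h <;> rw [h] <;> omega
      have e4 : ∀ T : Finset (Finset ℕ), T.filter (fun z' => (∅ : Finset ℕ) ⊆ z') = T := by
        intro T
        rw [Finset.filter_eq_self]
        exact fun _ _ => empty_subset _
      have e5 : F = F.filter (fun n => blk b J n = i) ∪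
          F.filter (fun n => blk b J n = i - len b i) := by
        ext n
        rw [mem_union, mem_filter, mem_filter]
        constructor
        · intro hn
          exact (hF n hn).imp (fun h => ⟨hn, h⟩) fun h => ⟨hn, h⟩
        · rintro (h | h) <;> exact h.1
      have e6 : Disjoint (F.filter (fun n => blk b J n = i))
          (F.filter (fun n => blk b J n = i - len b i)) := by
        rw [Finset.disjoint_left]
        intro n hn hn'
        rw [mem_filter] at hn hn'
        have := hn.2.symm.trans hn'.2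
        omega
      have h3 := hw.left i hi ho _ (hsub i) (by rw [hij]; exact hcard i) _ (hsub (i - len b i))
        (by rw [hij]; exact hcard _)
      rw [e2, e4 (sites p b J (i + len b i)).powerset, h3, hij]
      conv_rhs => rw [e5]
      rw [Finset.card_union_of_disjoint e6, Finset.prod_union e6, mul_assoc]
    · -- an odd block and its right neighbour
      obtain ⟨hle, hl, hlo, -⟩ := left_nb hb hi ho
      have hlen : 0 < len b i := hb.pos _
      rw [ev_odd hb i hi ho F (fun n hn => (hF n hn).imp id Or.inr)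
        (fun n hn => ⟨hz n hn, hlev n hn⟩), odd_prob hb hw hmQ' i hi ho]
      have e2 : F.filter (fun n => blk b J n = i - len b i) = ∅ := by
        rw [Finset.filter_eq_empty_iff]
        intro n hn
        rcases hF n hn with h | h <;> rw [h] <;> omega
      have e4 : ∀ T : Finset (Finset ℕ), T.filter (fun z' => (∅ : Finset ℕ) ⊆ z') = T := by
        intro T
        rw [Finset.filter_eq_self]
        exact fun _ _ => empty_subset _
      have e5 : F = F.filter (fun n => blk b J n = i) ∪
          F.filter (fun n => blk b J n = i + len b i) := by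
        ext n
        rw [mem_union, mem_filter, mem_filter]
        constructor
        · intro hn
          exact (hF n hn).imp (fun h => ⟨hn, h⟩) fun h => ⟨hn, h⟩
        · rintro (h | h) <;> exact h.1
      have e6 : Disjoint (F.filter (fun n => blk b J n = i))
          (F.filter (fun n => blk b J n = i + len b i)) := by
        rw [Finset.disjoint_left]
        intro n hn hn'
        rw [mem_filter] at hn hn'
        have := hn.2.symm.trans hn'.2
        omega
      have h3 := hw.right i hi ho hr _ (hsub i) (by rw [hij]; exact hcard i) _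
        (hsub (i + len b i)) (by rw [hij]; exact hcard _)
      rw [e2, e4 (sites p b J (i - len b i)).powerset, h3, hij]
      conv_rhs => rw [e5]
      rw [Finset.card_union_of_disjoint e6, Finset.prod_union e6, mul_assoc]

end Pool.Agent.LibTHL
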