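import Pool.Agent.LibTHL.Defs

/-! [THL L12] -/

set_option autoImplicit false

namespace Pool.Agent.LibTHL

open Finset

/-- sums over the sets between `F` and `F0` -/
theorem L12_between (F F0 : Finset ℕ) (h : F ⊆ F0) (f : Finset ℕ → ℝ) :
    ∑ ω ∈ F0.powerset with F ⊆ ω, f ω = ∑ η ∈ (F0 \ F).powerset, f (F ∪ η) := by
  symm
  refine Finset.sum_bij' (fun η _ => F ∪ η) (fun ω _ => ω \ F) ?_ ?_ ?_ ?_ ?_
  · intro η hη
    rw [mem_powerset] at hη
    rw [mem_filter, mem_powerset]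
    exact ⟨union_subset h (hη.trans sdiff_subset), subset_union_left⟩
  · intro ω hω
    rw [mem_filter, mem_powerset] at hω
    rw [mem_powerset]
    exact sdiff_subset_sdiff hω.1 (Subset.refl _)
  · intro η hη
    rw [mem_powerset] at hη
    rw [union_sdiff_left, Finset.sdiff_eq_self_iff_disjoint]
    exact (disjoint_sdiff.symm).mono_left hη
  · intro ω hω
    rw [mem_filter, mem_powerset] at hω
    exact union_sdiff_of_subset hω.2
  · intro η _
    rfl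

/-- alternating sums over the sets between `F` and `F0` -/
theorem L12_alt (F F0 : Finset ℕ) :
    ∑ ω ∈ F0.powerset with F ⊆ ω, (-1 : ℝ) ^ (#F0 - #ω) = if F = F0 then 1 else 0 := by
  by_cases h : F ⊆ F0
  · rw [L12_between F F0 h]
    have h1 : ∀ η ∈ (F0 \ F).powerset, (-1 : ℝ) ^ (#F0 - #(F ∪ η)) =
        (-1) ^ #(F0 \ F) * (-1) ^ #η := by
      intro η hη
      rw [mem_powerset] at hη
      have hd : Disjoint F η := (disjoint_sdiff).mono_right hη
      have h2 : #(F ∪ η) = #F + #η := card_union_of_disjoint hd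
      have h3 : #(F0 \ F) = #F0 - #F := card_sdiff_of_subset h
      have h4 : #η ≤ #(F0 \ F) := card_le_card hη
      have h5 : #F ≤ #F0 := card_le_card h
      rw [← pow_add, h2]
      have h6 : #(F0 \ F) + #η = (#F0 - (#F + #η)) + 2 * #η := by omega
      rw [h6, pow_add, pow_mul]
      norm_num
    rw [sum_congr rfl h1, ← mul_sum]
    have h7 : ∑ η ∈ (F0 \ F).powerset, (-1 : ℝ) ^ #η = if F0 \ F = ∅ then 1 else 0 := by
      have h8 := sum_powerset_neg_one_pow_card (x := F0 \ F)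
      have h9 := congrArg (fun z : ℤ => (z : ℝ)) h8
      push_cast at h9
      exact h9
    rw [h7]
    by_cases h10 : F = F0
    · rw [if_pos h10, if_pos (by rw [h10, sdiff_self]; rfl), h10, sdiff_self]
      simp
    · rw [if_neg h10, if_neg, mul_zero]
      intro h11
      exact h10 (h.antisymm (sdiff_eq_empty_iff_subset.1 h11))
  · have h' : F ≠ F0 := fun h' => h (h' ▸ Subset.refl _)
    rw [if_neg h', sum_eq_zero]
    intro ω hω
    rw [mem_filter, mem_powerset] at hω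
    exact absurd (hω.2.trans hω.1) h

/-- L1. -/
theorem mb_incl (S : Finset ℕ) (θ : ℕ → ℝ) (k : ℕ) (δ : Finset ℕ → ℝ) (F : Finset ℕ) (hF : F ⊆ S) :
    ∑ ω ∈ S.powerset with F ⊆ ω, mb S θ k δ ω = if #F ≤ k then δ F * ∏ n ∈ F, θ n else 0 := by
  unfold mb
  have h1 : ∀ ω ∈ (S.powerset.filter (fun ω => F ⊆ ω)),
      (∑ F0 ∈ S.powerset with #F0 ≤ k ∧ ω ⊆ F0, (-1 : ℝ) ^ (#F0 - #ω) * δ F0 * ∏ n ∈ F0, θ n) =
      ∑ F0 ∈ S.powerset, if #F0 ≤ k ∧ ω ⊆ F0 then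
        (-1 : ℝ) ^ (#F0 - #ω) * δ F0 * ∏ n ∈ F0, θ n else 0 := by
    intro ω _
    rw [sum_filter]
  rw [sum_congr rfl h1, sum_comm]
  have h2 : ∀ F0 ∈ S.powerset, (∑ ω ∈ (S.powerset.filter (fun ω => F ⊆ ω)),
      if #F0 ≤ k ∧ ω ⊆ F0 then (-1 : ℝ) ^ (#F0 - #ω) * δ F0 * ∏ n ∈ F0, θ n else 0) =
      if F0 = F then (if #F ≤ k then δ F * ∏ n ∈ F, θ n else 0) else 0 := by
    intro F0 hF0
    rw [mem_powerset] at hF0
    by_cases hk : #F0 ≤ k
    · have h3 : (∑ ω ∈ (S.powerset.filter (fun ω => F ⊆ ω)),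
          if #F0 ≤ k ∧ ω ⊆ F0 then (-1 : ℝ) ^ (#F0 - #ω) * δ F0 * ∏ n ∈ F0, θ n else 0) =
          (∑ ω ∈ F0.powerset with F ⊆ ω, (-1 : ℝ) ^ (#F0 - #ω)) * (δ F0 * ∏ n ∈ F0, θ n) := by
        rw [sum_mul, ← sum_filter, filter_filter]
        refine sum_congr ?_ fun ω _ => by ring
        ext ω
        simp only [mem_filter, mem_powerset]
        constructor
        · rintro ⟨_, h5, _, h6⟩
          exact ⟨h6, h5⟩
        · rintro ⟨h6, h5⟩
          exact ⟨h6.trans hF0, h5, hk, h6⟩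
      rw [h3, L12_alt]
      by_cases h4 : F = F0
      · subst h4
        rw [if_pos rfl, if_pos rfl, if_pos hk, one_mul]
      · rw [if_neg h4, if_neg (Ne.symm h4), zero_mul]
    · rw [sum_eq_zero]
      · by_cases h4 : F0 = F
        · subst h4
          rw [if_pos rfl, if_neg hk]
        · rw [if_neg h4]
      · intro ω _
        rw [if_neg (fun h => hk h.1)]
  rw [sum_congr rfl h2, sum_ite_eq' , if_pos (mem_powerset.2 hF)]

/-- L2. -/
theorem mb_abs (S : Finset ℕ) (θ : ℕ → ℝ) (h0 : ∀ n ∈ S, 0 ≤ θ n) (k : ℕ) (δ : Finset ℕ → ℝ)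
    (ε : ℝ) (hδ : ∀ F ⊆ S, #F ≤ k → |δ F| ≤ ε) (hε : 0 ≤ ε) (G : Finset ℕ) (hG : G ⊆ S) :
    |mb S θ k δ G| ≤ ε * (∏ n ∈ G, θ n) * ∏ n ∈ S, (1 + θ n) := by
  unfold mb
  refine (abs_sum_le_sum_abs _ _).trans ?_
  have hp : ∀ F ⊆ S, 0 ≤ ∏ n ∈ F, θ n := fun F hF => prod_nonneg fun n hn => h0 n (hF hn)
  have h1 : ∑ F ∈ S.powerset with #F ≤ k ∧ G ⊆ F, |(-1 : ℝ) ^ (#F - #G) * δ F * ∏ n ∈ F, θ n| ≤
      ∑ F ∈ S.powerset with G ⊆ F, ε * ∏ n ∈ F, θ n := by
    refine (sum_le_sum (g := fun F => ε * ∏ n ∈ F, θ n) ?_).trans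
      (sum_le_sum_of_subset_of_nonneg ?_ ?_)
    · intro F hF
      rw [mem_filter, mem_powerset] at hF
      rw [abs_mul, abs_mul, abs_pow, abs_neg, abs_one, one_pow, one_mul,
        abs_of_nonneg (hp F hF.1)]
      exact mul_le_mul_of_nonneg_right (hδ F hF.1 hF.2.1) (hp F hF.1)
    · intro F hF
      rw [mem_filter] at hF ⊢
      exact ⟨hF.1, hF.2.2⟩
    · intro F hF _
      rw [mem_filter, mem_powerset] at hF
      exact mul_nonneg hε (hp F hF.1)
  refine h1.trans ?_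
  rw [← mul_sum, L12_between G S hG]
  have h2 : ∀ η ∈ (S \ G).powerset, ∏ n ∈ G ∪ η, θ n = (∏ n ∈ G, θ n) * ∏ n ∈ η, θ n := by
    intro η hη
    rw [mem_powerset] at hη
    exact prod_union ((disjoint_sdiff).mono_right hη)
  rw [sum_congr rfl h2, ← mul_sum, ← prod_one_add, mul_assoc]
  refine mul_le_mul_of_nonneg_left (mul_le_mul_of_nonneg_left ?_ (hp G hG)) hε
  have h3 : ∏ n ∈ S, (1 + θ n) = (∏ n ∈ S \ G, (1 + θ n)) * ∏ n ∈ G, (1 + θ n) :=
    (prod_sdiff hG).symm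
  rw [h3]
  have h4 : 0 ≤ ∏ n ∈ S \ G, (1 + θ n) := prod_nonneg fun n hn => by
    have := h0 n (mem_sdiff.1 hn).1
    linarith
  have h5 : 1 ≤ ∏ n ∈ G, (1 + θ n) := by
    have h6 : ∏ n ∈ G, (1 : ℝ) ≤ ∏ n ∈ G, (1 + θ n) := by
      refine prod_le_prod (fun _ _ => zero_le_one) fun n hn => ?_
      have := h0 n (hG hn)
      linarith
    rwa [prod_const_one] at h6
  exact le_mul_of_one_le_right h4 h5

end Pool.Agent.LibTHL
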